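import Pool.Agent.Lib_MP_49ddc8_l.LDefs

/-!
# [St1] The limit ring is stable: the Galois argument

`z` is fixed by `S.s ρ` for `ρ` fixing a finite extension `E₀ / κ`.  Let `θ` be a primitive element of a finite extension `A` of `k(u)` which contains `κ` and `E₀`.  If `S.s τ θ` is a root of the minimal polynomial of `θ` over `L`, there is an
automorphism `σ` over `L` with `σ θ = S.s τ θ`; it agrees with `τ` on `A`, in particular it fixes `κ`; so it is an automorphism over `κ` which fixes `L`, and `S.s σ z = S.s τ z`.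
-/

set_option autoImplicit false

open Polynomial

namespace BSC

/-- an automorphism of the algebraic closure over `L` which fixes `κ` -/
private theorem gal_up {κ Ω : Type} [Field κ] [Field Ω] [Algebra κ Ω] {L : Type} [Field L] [Algebra L Ω]
    (hiff : ∀ z : Ω, IsAlgebraic L z ↔ IsAlgebraic κ z) (σ : algebraicClosure L Ω ≃ₐ[L] algebraicClosure L Ω)
    (hσ : ∀ (r : κ) (h : algebraMap κ Ω r ∈ algebraicClosure L Ω),
      ((σ ⟨algebraMap κ Ω r, h⟩ : algebraicClosure L Ω) : Ω) = algebraMap κ Ω r) :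
    ∃ τ' : algebraicClosure κ Ω ≃ₐ[κ] algebraicClosure κ Ω, ∀ (x : algebraicClosure κ Ω) (y : algebraicClosure L Ω),
      (x : Ω) = (y : Ω) → ((τ' x : algebraicClosure κ Ω) : Ω) = ((σ y : algebraicClosure L Ω) : Ω) := by
  have h1 : ∀ x : algebraicClosure κ Ω, (x : Ω) ∈ algebraicClosure L Ω := fun x =>
    mem_algebraicClosure_iff.2 ((hiff _).2 (mem_algebraicClosure_iff.1 x.2))
  have h2 : ∀ y : algebraicClosure L Ω, (y : Ω) ∈ algebraicClosure κ Ω := fun y =>
    mem_algebraicClosure_iff.2 ((hiff _).1 (mem_algebraicClosure_iff.1 y.2))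
  let f : (algebraicClosure L Ω ≃ₐ[L] algebraicClosure L Ω) → algebraicClosure κ Ω → algebraicClosure κ Ω := fun ρ x =>
    ⟨(ρ ⟨x, h1 x⟩ : algebraicClosure L Ω), h2 _⟩
  have hinv : ∀ ρ ρ' : algebraicClosure L Ω ≃ₐ[L] algebraicClosure L Ω, (∀ y, ρ' (ρ y) = y) → ∀ x, f ρ' (f ρ x) = x := by
    intro ρ ρ' h x
    apply Subtype.ext
    show ((ρ' (ρ ⟨x, h1 x⟩) : algebraicClosure L Ω) : Ω) = x
    rw [h]
  refine ⟨{ toFun := f σ
            invFun := f σ.symm
            left_inv := hinv σ σ.symm fun y => σ.symm_apply_apply y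
            right_inv := hinv σ.symm σ fun y => σ.apply_symm_apply y
            map_mul' := fun x y => ?_
            map_add' := fun x y => ?_
            commutes' := fun r => ?_ }, fun x y hxy => ?_⟩
  · apply Subtype.ext
    show ((σ (⟨x, h1 x⟩ * ⟨y, h1 y⟩) : algebraicClosure L Ω) : Ω) = _
    rw [map_mul]
    rfl
  · apply Subtype.ext
    show ((σ (⟨x, h1 x⟩ + ⟨y, h1 y⟩) : algebraicClosure L Ω) : Ω) = _
    rw [map_add]
    rfl
  · apply Subtype.ext
    exact hσ r _
  · show ((σ ⟨x, h1 x⟩ : algebraicClosure L Ω) : Ω) = _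
    congr 2
    exact Subtype.ext hxy

variable {k κ Ω : Type} [Field k] [CharZero k] [Field κ] [CharZero κ] [Field Ω] [IsAlgClosed Ω] [Algebra (RatFunc k) Ω]
  [Algebra κ Ω] [Algebra (RatFunc k) κ] [IsScalarTower (RatFunc k) κ Ω] [FiniteDimensional (RatFunc k) κ]

/-- a primitive element -/
private theorem st1_prim (E₀ : IntermediateField κ (algebraicClosure κ Ω)) [FiniteDimensional κ E₀] :
    ∃ θ : Ω, IsAlgebraic (RatFunc k) θ ∧ (∀ r : κ, algebraMap κ Ω r ∈ IntermediateField.adjoin (RatFunc k) {θ}) ∧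
      ∀ x ∈ E₀, ((x : algebraicClosure κ Ω) : Ω) ∈ IntermediateField.adjoin (RatFunc k) {θ} := by
  classical
  haveI : CharZero (RatFunc k) := charZero_of_injective_algebraMap (algebraMap k (RatFunc k)).injective
  haveI : Algebra.IsAlgebraic (RatFunc k) κ := Algebra.IsAlgebraic.of_finite (RatFunc k) κ
  let b := Module.finBasis (RatFunc k) κ
  let d := Module.finBasis κ E₀
  let B : Finset Ω := (Finset.univ.image fun j => algebraMap κ Ω (b j)) ∪
    (Finset.univ.image fun j => ((d j : algebraicClosure κ Ω) : Ω))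
  have hB : ∀ x ∈ (B : Set Ω), IsAlgebraic (RatFunc k) x := by
    intro x hx
    rw [Finset.mem_coe, Finset.mem_union, Finset.mem_image, Finset.mem_image] at hx
    rcases hx with ⟨j, -, rfl⟩ | ⟨j, -, rfl⟩
    · exact (isAlgebraic_algebraMap (b j)).restrictScalars (RatFunc k)
    · exact (mem_algebraicClosure_iff.1 ((d j : algebraicClosure κ Ω)).2).restrictScalars (RatFunc k)
  let A : IntermediateField (RatFunc k) Ω := IntermediateField.adjoin (RatFunc k) (B : Set Ω)
  haveI : FiniteDimensional (RatFunc k) A := IntermediateField.finiteDimensional_adjoin fun x hx => (hB x hx).isIntegral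
  obtain ⟨α, hα⟩ := Field.exists_primitive_element (RatFunc k) A
  have hA : A = IntermediateField.adjoin (RatFunc k) {(α : Ω)} := by
    have h1 := congrArg (fun M => IntermediateField.map A.val M) hα
    simp only [IntermediateField.adjoin_map, Set.image_singleton] at h1
    rw [← AlgHom.fieldRange_eq_map, IntermediateField.fieldRange_val] at h1
    exact h1.symm
  have hκ : ∀ r : κ, algebraMap κ Ω r ∈ A := by
    intro r
    have h1 : r = ∑ j, b.repr r j • b j := (b.sum_repr r).symm
    rw [h1, map_sum]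
    refine sum_mem fun j _ => ?_
    rw [Algebra.smul_def, map_mul, ← IsScalarTower.algebraMap_apply]
    refine mul_mem (A.algebraMap_mem _) (IntermediateField.subset_adjoin (RatFunc k) _ ?_)
    exact Finset.mem_union_left _ (Finset.mem_image_of_mem _ (Finset.mem_univ j))
  refine ⟨α, ?_, ?_, ?_⟩
  · have h1 : IsAlgebraic (RatFunc k) α := Algebra.IsAlgebraic.isAlgebraic α
    exact h1.algebraMap
  · intro r
    rw [← hA]
    exact hκ r
  · intro x hx
    rw [← hA]
    have h1 : (⟨x, hx⟩ : E₀) = ∑ j, d.repr ⟨x, hx⟩ j • d j := (d.sum_repr _).symm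
    have h2 : x = ∑ j, d.repr ⟨x, hx⟩ j • (d j : algebraicClosure κ Ω) := by
      have h3 := congrArg (fun y : E₀ => (y : algebraicClosure κ Ω)) h1
      simp only [AddSubmonoidClass.coe_finset_sum] at h3
      exact h3
    have h3 : (x : Ω) = ∑ j, d.repr ⟨x, hx⟩ j • ((d j : algebraicClosure κ Ω) : Ω) := by
      have h4 := congrArg (fun y : algebraicClosure κ Ω => (y : Ω)) h2
      simp only [AddSubmonoidClass.coe_finset_sum] at h4
      exact h4
    rw [h3]
    refine sum_mem fun j _ => ?_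
    rw [Algebra.smul_def]
    refine mul_mem (hκ _) (IntermediateField.subset_adjoin (RatFunc k) _ ?_)
    exact Finset.mem_union_right _ (Finset.mem_image_of_mem _ (Finset.mem_univ j))

/-- the Galois argument -/
theorem st_gal (S : Sec κ Ω) (τ : algebraicClosure κ Ω ≃ₐ[κ] algebraicClosure κ Ω) (z : Ω) :
    ∃ θ : Ω, IsAlgebraic (RatFunc k) θ ∧ ∀ L : IntermediateField (RatFunc k) Ω,
      (∀ x ∈ L, IsAlgebraic (RatFunc k) x) → aeval (S.s τ θ) (minpoly L θ) = 0 →
        ∃ τ' : algebraicClosure κ Ω ≃ₐ[κ] algebraicClosure κ Ω, Fix (L : Set Ω) τ' ∧ S.s τ' z = S.s τ z := by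
  classical
  haveI : CharZero (RatFunc k) := charZero_of_injective_algebraMap (algebraMap k (RatFunc k)).injective
  haveI : Algebra.IsAlgebraic (RatFunc k) κ := Algebra.IsAlgebraic.of_finite (RatFunc k) κ
  obtain ⟨E₀, hE₀, hfix⟩ := S.cont z
  obtain ⟨θ, hθ, hκ, hE⟩ := st1_prim (k := k) E₀
  refine ⟨θ, hθ, fun L hL hroot => ?_⟩
  haveI : Algebra.IsAlgebraic (RatFunc k) L := ⟨fun x => by
    have h1 := hL x x.2
    exact (isAlgebraic_algebraMap_iff (algebraMap L Ω).injective).1 h1⟩
  have hiff : ∀ x : Ω, IsAlgebraic L x ↔ IsAlgebraic κ x := fun x =>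
    ⟨fun h => (h.restrictScalars (RatFunc k)).tower_top κ, fun h => (h.restrictScalars (RatFunc k)).tower_top L⟩
  have hTκ : ∀ r : κ, S.s τ (algebraMap κ Ω r) = algebraMap κ Ω r := by
    intro r
    have h1 := S.res τ (algebraMap κ (algebraicClosure κ Ω) r)
    rw [AlgEquiv.commutes] at h1
    exact h1
  have hTR : ∀ r : RatFunc k, S.s τ (algebraMap (RatFunc k) Ω r) = algebraMap (RatFunc k) Ω r := by
    intro r
    rw [IsScalarTower.algebraMap_apply (RatFunc k) κ Ω]
    exact hTκ _
  have hθκ : θ ∈ algebraicClosure κ Ω := mem_algebraicClosure_iff.2 (hθ.tower_top κ)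
  have hTθ : S.s τ θ = ((τ ⟨θ, hθκ⟩ : algebraicClosure κ Ω) : Ω) := S.res τ ⟨θ, hθκ⟩
  have hθL : θ ∈ algebraicClosure L Ω := mem_algebraicClosure_iff.2 (hθ.tower_top L)
  have hTθL : S.s τ θ ∈ algebraicClosure L Ω := by
    rw [hTθ]
    exact mem_algebraicClosure_iff.2 ((hiff _).2 (mem_algebraicClosure_iff.1 (τ ⟨θ, hθκ⟩).2))
  -- the conjugation over `L`
  haveI : CharZero L := charZero_of_injective_algebraMap (algebraMap (RatFunc k) L).injective
  haveI : IsGalois L (algebraicClosure L Ω) := ⟨⟩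
  have hθint : IsIntegral L θ := (hθ.tower_top L).isIntegral
  have hmin : minpoly L θ = minpoly L (S.s τ θ) :=
    minpoly.eq_of_irreducible_of_monic (minpoly.irreducible hθint) hroot (minpoly.monic hθint)
  have hconj : IsConjRoot L (⟨S.s τ θ, hTθL⟩ : algebraicClosure L Ω) ⟨θ, hθL⟩ := by
    unfold IsConjRoot
    have h1 : minpoly L (⟨S.s τ θ, hTθL⟩ : algebraicClosure L Ω) = minpoly L (S.s τ θ) :=
      (minpoly.algebraMap_eq (algebraMap (algebraicClosure L Ω) Ω).injective (⟨S.s τ θ, hTθL⟩ : algebraicClosure L Ω)).symm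
    have h2 : minpoly L (⟨θ, hθL⟩ : algebraicClosure L Ω) = minpoly L θ :=
      (minpoly.algebraMap_eq (algebraMap (algebraicClosure L Ω) Ω).injective (⟨θ, hθL⟩ : algebraicClosure L Ω)).symm
    rw [h1, h2, hmin]
  obtain ⟨σ, hσ⟩ := isConjRoot_iff_exists_algEquiv.1 hconj
  -- `σ` and `S.s τ` agree on `k(u)(θ)`
  have hagree : ∀ x ∈ IntermediateField.adjoin (RatFunc k) {θ}, ∀ h : x ∈ algebraicClosure L Ω,
      ((σ ⟨x, h⟩ : algebraicClosure L Ω) : Ω) = S.s τ x := by
    intro x hx
    have hmem : ∀ y ∈ IntermediateField.adjoin (RatFunc k) {θ}, y ∈ algebraicClosure L Ω := by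
      intro y hy
      have h1 : IntermediateField.adjoin (RatFunc k) {θ} ≤ (algebraicClosure L Ω).restrictScalars (RatFunc k) := by
        rw [IntermediateField.adjoin_le_iff]
        intro w hw
        rw [Set.mem_singleton_iff] at hw
        rw [hw]
        exact hθL
      exact h1 hy
    induction hx using IntermediateField.adjoin_induction with
    | mem x hx =>
      intro h
      rw [Set.mem_singleton_iff] at hx
      subst hx
      rw [hσ]
    | algebraMap x =>
      intro h
      have h1 : (⟨algebraMap (RatFunc k) Ω x, h⟩ : algebraicClosure L Ω) =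
          algebraMap L (algebraicClosure L Ω) (algebraMap (RatFunc k) L x) := by
        apply Subtype.ext
        rfl
      rw [h1, AlgEquiv.commutes, hTR]
      rfl
    | add x y hx hy ihx ihy =>
      intro h
      have h1 : (⟨x + y, h⟩ : algebraicClosure L Ω) = ⟨x, hmem x hx⟩ + ⟨y, hmem y hy⟩ := rfl
      rw [h1, map_add, map_add, ← ihx (hmem x hx), ← ihy (hmem y hy)]
      rfl
    | inv x hx ih =>
      intro h
      have h1 : (⟨x⁻¹, h⟩ : algebraicClosure L Ω) = (⟨x, hmem x hx⟩)⁻¹ := rfl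
      rw [h1, map_inv₀, map_inv₀, ← ih (hmem x hx)]
      rfl
    | mul x y hx hy ihx ihy =>
      intro h
      have h1 : (⟨x * y, h⟩ : algebraicClosure L Ω) = ⟨x, hmem x hx⟩ * ⟨y, hmem y hy⟩ := rfl
      rw [h1, map_mul, map_mul, ← ihx (hmem x hx), ← ihy (hmem y hy)]
      rfl
  obtain ⟨τ', hτ'⟩ := gal_up (κ := κ) hiff σ (fun r h => by
    rw [hagree _ (hκ r) h, hTκ])
  refine ⟨τ', ?_, ?_⟩
  · intro x hx
    apply Subtype.ext
    have hxL : (x : Ω) ∈ algebraicClosure L Ω :=
      mem_algebraicClosure_iff.2 ((hiff _).2 (mem_algebraicClosure_iff.1 x.2))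
    rw [hτ' x ⟨x, hxL⟩ rfl]
    have h1 : (⟨(x : Ω), hxL⟩ : algebraicClosure L Ω) = algebraMap L (algebraicClosure L Ω) ⟨(x : Ω), hx⟩ := by
      apply Subtype.ext
      rfl
    rw [h1, AlgEquiv.commutes]
    rfl
  · have h1 : ∀ x ∈ E₀, τ' x = τ x := by
      intro x hx
      apply Subtype.ext
      have hxL : (x : Ω) ∈ algebraicClosure L Ω :=
        mem_algebraicClosure_iff.2 ((hiff _).2 (mem_algebraicClosure_iff.1 x.2))
      rw [hτ' x ⟨x, hxL⟩ rfl, hagree _ (hE x hx) hxL]
      exact S.res τ x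
    have h2 : S.s (τ⁻¹ * τ') z = z := by
      apply hfix
      rw [IntermediateField.mem_fixingSubgroup_iff]
      intro x hx
      rw [AlgEquiv.mul_apply, h1 x hx, ← AlgEquiv.mul_apply, inv_mul_cancel, AlgEquiv.one_apply]
    have h3 : S.s τ (S.s (τ⁻¹ * τ') z) = S.s τ' z := by
      rw [← RingAut.mul_apply, ← map_mul, mul_inv_cancel_left]
    rw [← h3, h2]

end BSC
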