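import Pool.Agent.Lib_MP_49ddc8_l.LDefs

/-!
# [L-DE] `L A` has degree `< p` over `L`

`a_1, .., a_m`: a basis of `A` over `RatFunc k` (`m = [κ : k(u)] [A : κ] < p`).  The set of the sums `∑ l_i a_i`, `l_i ∈ L`, is a ring (`a_i a_j ∈ A`), of dimension `≤ m` over `L`, so a field, it contains `κ` (`⊆ A`), `L`, `A`, so it is `adjoin κ (L ∪ A)`: `p > m` elements are dependent.
-/

set_option autoImplicit false

open Polynomial

namespace BSC

variable {k κ Ω : Type} [Field k] [CharZero k] [Field κ] [CharZero κ] [Field Ω] [IsAlgClosed Ω] [Algebra k Ω] [Algebra (RatFunc k) Ω]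
  [IsScalarTower k (RatFunc k) Ω] [Algebra κ Ω] [Algebra (RatFunc k) κ] [IsScalarTower (RatFunc k) κ Ω]
  [FiniteDimensional (RatFunc k) κ] {p : ℕ} [Fact p.Prime] {σ : k →+* ℚ_[p]} {L : IntermediateField (RatFunc k) Ω} {nm : Ω → ℝ}

theorem lext_adjoin (hG : GN p σ L nm) (A : IntermediateField κ Ω) (hfin : FiniteDimensional κ A)
    (hlt : Module.finrank (RatFunc k) κ * Module.finrank κ A < p) :
    LExt L (IntermediateField.adjoin κ ((L : Set Ω) ∪ (A : Set Ω))) p := by
  haveI := hfin
  refine ⟨fun x hx => IntermediateField.subset_adjoin κ _ (Or.inl hx), ?_, ?_⟩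
  · intro x hx
    haveI : Algebra.IsAlgebraic κ (IntermediateField.adjoin κ ((L : Set Ω) ∪ (A : Set Ω))) := by
      refine IntermediateField.isAlgebraic_adjoin fun y hy => ?_
      rcases hy with hy | hy
      · exact ((alg_iff (k := k) (κ := κ) y).2 (hG.alg y hy)).isIntegral
      · have h1 : IsIntegral κ (⟨y, hy⟩ : A) := Algebra.IsIntegral.isIntegral _
        exact h1.map A.val
    have h2 := Algebra.IsAlgebraic.isAlgebraic (R := κ)
      (⟨x, hx⟩ : IntermediateField.adjoin κ ((L : Set Ω) ∪ (A : Set Ω)))
    exact IsAlgebraic.algebraMap (A := Ω) h2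
  · let A' : IntermediateField (RatFunc k) Ω := A.restrictScalars (RatFunc k)
    let M : IntermediateField L Ω := IntermediateField.adjoin L (A' : Set Ω)
    let e : A ≃ₗ[RatFunc k] A' :=
      { toFun := fun x => ⟨x, x.2⟩
        invFun := fun x => ⟨x, x.2⟩
        map_add' := fun _ _ => rfl
        map_smul' := fun _ _ => rfl
        left_inv := fun _ => rfl
        right_inv := fun _ => rfl }
    haveI hfA : FiniteDimensional (RatFunc k) A := Module.Finite.trans κ A
    haveI hfA' : FiniteDimensional (RatFunc k) A' := Module.Finite.equiv e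
    have hdim : Module.finrank (RatFunc k) A' < p := by
      rw [← e.finrank_eq, ← Module.finrank_mul_finrank (RatFunc k) κ A]
      exact hlt
    have hrank : Module.rank L M ≤ Module.rank (RatFunc k) A' :=
      IntermediateField.adjoin_rank_le_of_isAlgebraic_right L A'
    haveI hfM : FiniteDimensional L M := by
      refine Module.rank_lt_aleph0_iff.1 (hrank.trans_lt ?_)
      exact Module.rank_lt_aleph0_iff.2 hfA'
    have hdM : Module.finrank L M < p := by
      refine lt_of_le_of_lt ?_ hdim
      have h1 := hrank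
      rw [← Module.finrank_eq_rank, ← Module.finrank_eq_rank] at h1
      exact_mod_cast h1
    have hsub : ∀ x ∈ IntermediateField.adjoin κ ((L : Set Ω) ∪ (A : Set Ω)), x ∈ M := by
      have hA : ∀ x ∈ A, x ∈ M := fun x hx => IntermediateField.subset_adjoin L _ hx
      have h1 : IntermediateField.adjoin κ ((L : Set Ω) ∪ (A : Set Ω)) ≤
          M.toSubfield.toIntermediateField (fun x => hA _ (A.algebraMap_mem x)) := by
        refine IntermediateField.adjoin_le_iff.2 fun x hx => ?_
        rcases hx with hx | hx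
        · exact M.algebraMap_mem ⟨x, hx⟩
        · exact hA x hx
      exact fun x hx => h1 hx
    intro z hz
    have hnot : ¬ LinearIndependent L (fun i : Fin p => (⟨z i, hsub _ (hz i)⟩ : M)) := by
      intro hli
      have h1 := hli.fintype_card_le_finrank
      rw [Fintype.card_fin] at h1
      omega
    obtain ⟨g, hg, i, hi⟩ := Fintype.not_linearIndependent_iff.1 hnot
    refine ⟨fun i => (g i : Ω), fun i => (g i).2, ⟨i, fun h0 => hi (Subtype.ext h0)⟩, ?_⟩
    have h1 := congrArg (fun x : M => (x : Ω)) hg
    simpa [Algebra.smul_def] using h1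

end BSC
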