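import Pool.Agent.Lib_MP_49ddc8_v.VDefs
import Pool.Agent.Lib_MP_49ddc8_v.VFam

/-!
# Definitions for the general version (every finitely generated field which is not a number field)

`κ` is a finite extension of `k(u)` (`RatFunc k`), `Ω` algebraically closed over `κ`, `S : Sec κ Ω`.  `p` an odd prime, `σ : k → ℚ_p`, `L ≤ Ω` and `nm` the Gauss norm package `GN p σ L nm` (VDefs.lean), `L` = the elements of `Ω` algebraic over `k(u)` which lie in the completion of `ℚ_p(u)`.
-/

set_option autoImplicit false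

open Polynomial

namespace BSC

/-- `p` elements of `L'` are linearly dependent over `L` (so `[L' : L] < p`) -/
def DepOver {Ω : Type} [Field Ω] (L L' : Set Ω) (p : ℕ) : Prop :=
  ∀ z : Fin p → Ω, (∀ i, z i ∈ L') → ∃ c : Fin p → Ω, (∀ i, c i ∈ L) ∧ (∃ i, c i ≠ 0) ∧ ∑ i, c i * z i = 0

section

variable {k κ Ω : Type} [Field k] [Field κ] [Field Ω] [Algebra k Ω] [Algebra (RatFunc k) Ω] [Algebra κ Ω]

/-- `L'` is an extension of `L κ` of degree `< p` over `L` -/
structure LExt (L : IntermediateField (RatFunc k) Ω) (L' : IntermediateField κ Ω) (p : ℕ) : Prop where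
  le : (L : Set Ω) ⊆ (L' : Set Ω)
  alg : ∀ x ∈ L', IsAlgebraic κ x
  dep : DepOver (L : Set Ω) (L' : Set Ω) p

/-- `W` is the valuation ring `nm ≤ 1` on the algebraic elements and stable under the section over `L κ` -/
structure GW (S : Sec κ Ω) (L : IntermediateField (RatFunc k) Ω) (nm : Ω → ℝ) (W : ValuationSubring Ω) : Prop where
  mem : ∀ x : Ω, IsAlgebraic κ x → (x ∈ W ↔ nm x ≤ 1)
  st : ∀ τ : algebraicClosure κ Ω ≃ₐ[κ] algebraicClosure κ Ω, Fix (L : Set Ω) τ → ∀ z : Ω, S.s τ z ∈ W ↔ z ∈ W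

/-- The output of the local part at one place `(p, σ)`: `res`: the residue class of an element of `S.F A` (in `W`) lies in the residue field of `L A`, if `[A : κ] [κ : k(u)] < p`. -/
structure GTri [Algebra (RatFunc k) κ] (S : Sec κ Ω) where
  p : ℕ
  hp : Fact p.Prime
  odd : p ≠ 2
  σ : k →+* ℚ_[p]
  L : IntermediateField (RatFunc k) Ω
  nm : Ω → ℝ
  W : ValuationSubring Ω
  gn : GN p σ L nm
  gw : GW S L nm W
  res : ∀ A : IntermediateField κ Ω, FiniteDimensional κ A → Module.finrank (RatFunc k) κ * Module.finrank κ A < p →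
    ∀ x ∈ S.F (A : Set Ω), x ∈ W → ∃ y ∈ IntermediateField.adjoin κ ((L : Set Ω) ∪ (A : Set Ω)), W.valuation (x - y) < 1

/-- The family of places: `big`: the primes are large; `const`: a given element of the algebraic closure of `k` is for almost all members in `L`, a unit, congruent to an integer; `unit`: a given algebraic element is a unit for almost all members. -/
structure GFam [Algebra (RatFunc k) κ] (S : Sec κ Ω) where
  T : Type
  U : Ultrafilter T
  tri : T → GTri (k := k) S
  big : ∀ N : ℕ, ∀ᶠ t in (U : Filter T), N < (tri t).p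
  const : ∀ c : Ω, IsAlgebraic k c → c ≠ 0 → ∀ᶠ t in (U : Filter T), c ∈ (tri t).L ∧ (tri t).nm c = 1 ∧
    ∃ r : ℤ, (tri t).nm (c - (r : Ω)) < 1
  unit : ∀ z : Ω, IsAlgebraic κ z → z ≠ 0 → ∀ᶠ t in (U : Filter T), (tri t).nm z = 1

theorem alg_iff {k κ Ω : Type} [Field k] [Field κ] [Field Ω] [Algebra (RatFunc k) Ω] [Algebra κ Ω] [Algebra (RatFunc k) κ]
    [IsScalarTower (RatFunc k) κ Ω] [FiniteDimensional (RatFunc k) κ] (x : Ω) : IsAlgebraic κ x ↔ IsAlgebraic (RatFunc k) x := by
  haveI : Algebra.IsAlgebraic (RatFunc k) κ := Algebra.IsAlgebraic.of_finite _ _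
  exact ⟨fun h => h.restrictScalars (RatFunc k), fun h => h.tower_top κ⟩

end

end BSC
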