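import Pool.Agent.Lib_MP_49ddc8_l.LDefs
import Pool.Agent.Lib_MP_49ddc8_v.VGc

/-!
# [L-EM] The Gauss norm with a given embedding of a finite extension `k'` of `k`

Apply `exists_GN` (Lib_MP_49ddc8_v/VGc.lean) to the constant field `k'` and `RatFunc k' → Ω` (the extension of `k' → Ω`, `X ↦ tt k Ω`; `tt k Ω` is transcendental over `k'`), and restrict the scalars: `L` as an intermediate field over `RatFunc k`.  `inv`: an automorphism over `RatFunc k` fixing `L` fixes `k'`.
-/

set_option autoImplicit false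

open Polynomial

namespace BSC

section LEmAux

variable {F F' Ω : Type} [Field F] [Field F'] [Field Ω] [Algebra F F'] [Algebra F Ω] [Algebra F' Ω] [IsScalarTower F F' Ω]
  [Algebra.IsAlgebraic F F']

private theorem lem_alg (x : Ω) : IsAlgebraic F' x ↔ IsAlgebraic F x :=
  ⟨fun h => h.restrictScalars F, fun h => h.tower_top F'⟩

/-- the two algebraic closures have the same elements -/
private noncomputable def lemE : algebraicClosure F Ω ≃+* algebraicClosure F' Ω where
  toFun x := ⟨(x : Ω), mem_algebraicClosure_iff.2 ((lem_alg (F := F) (F' := F') (x : Ω)).2 (mem_algebraicClosure_iff.1 x.2))⟩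
  invFun x := ⟨(x : Ω), mem_algebraicClosure_iff.2 ((lem_alg (F := F) (F' := F') (x : Ω)).1 (mem_algebraicClosure_iff.1 x.2))⟩
  left_inv _ := rfl
  right_inv _ := rfl
  map_mul' _ _ := rfl
  map_add' _ _ := rfl

private theorem lem_inv (nm : Ω → ℝ) (L : Set Ω) (hL : ∀ r : F', algebraMap F' Ω r ∈ L)
    (h : ∀ τ : algebraicClosure F' Ω ≃ₐ[F'] algebraicClosure F' Ω, (∀ x : algebraicClosure F' Ω, (x : Ω) ∈ L → τ x = x) →
      ∀ x : algebraicClosure F' Ω, nm ((τ x : algebraicClosure F' Ω) : Ω) = nm (x : Ω))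
    (τ : algebraicClosure F Ω ≃ₐ[F] algebraicClosure F Ω) (hτ : ∀ x : algebraicClosure F Ω, (x : Ω) ∈ L → τ x = x)
    (x : algebraicClosure F Ω) : nm ((τ x : algebraicClosure F Ω) : Ω) = nm (x : Ω) := by
  let e : algebraicClosure F Ω ≃+* algebraicClosure F' Ω := lemE
  have he : ∀ y : algebraicClosure F Ω, ((e y : algebraicClosure F' Ω) : Ω) = (y : Ω) := fun _ => rfl
  have he' : ∀ y : algebraicClosure F' Ω, ((e.symm y : algebraicClosure F Ω) : Ω) = (y : Ω) := fun _ => rfl
  have hfix : ∀ y : algebraicClosure F' Ω, (y : Ω) ∈ L → e (τ (e.symm y)) = y := by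
    intro y hy
    rw [hτ (e.symm y) (by rw [he']; exact hy)]
    exact e.apply_symm_apply y
  let τ' : algebraicClosure F' Ω ≃ₐ[F'] algebraicClosure F' Ω :=
    AlgEquiv.ofRingEquiv (f := (e.symm.trans τ.toRingEquiv).trans e) (fun r => hfix (algebraMap F' (algebraicClosure F' Ω) r) (hL r))
  have h1 := h τ' (fun y hy => hfix y hy) (e x)
  have h2 : τ' (e x) = e (τ x) := by
    show e (τ (e.symm (e x))) = e (τ x)
    rw [e.symm_apply_apply]
  rw [h2, he, he] at h1
  exact h1

end LEmAux

section LEmAux2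

variable {k Ω : Type} [Field k] [Field Ω] [Algebra k Ω] [Algebra (RatFunc k) Ω] [IsScalarTower k (RatFunc k) Ω]

private theorem lem_tr (k' : IntermediateField k Ω) [FiniteDimensional k k'] : Transcendental k' (tt k Ω) := by
  intro h
  have h1 : IsAlgebraic k (tt k Ω) := h.restrictScalars k
  have h2 : Transcendental k (tt k Ω) :=
    (transcendental_algebraMap_iff (algebraMap (RatFunc k) Ω).injective).2 RatFunc.transcendental_X
  exact h2 h1

/-- the map of rational functions -/
private noncomputable def lemPsi (k' : IntermediateField k Ω) : RatFunc k →+* RatFunc k' :=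
  IsFractionRing.lift (A := k[X]) (K := RatFunc k)
    (g := (algebraMap k'[X] (RatFunc k')).comp (mapRingHom (algebraMap k k')))
    ((RatFunc.algebraMap_injective k').comp (map_injective _ (algebraMap k k').injective))

private theorem lem_inj (k' : IntermediateField k Ω) [FiniteDimensional k k'] :
    Function.Injective (eval₂RingHom (algebraMap k' Ω) (tt k Ω)) := by
  have h := transcendental_iff_injective.1 (lem_tr k')
  intro f g hfg
  exact h hfg

private noncomputable def lemPhi (k' : IntermediateField k Ω) [FiniteDimensional k k'] : RatFunc k' →+* Ω :=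
  IsFractionRing.lift (A := k'[X]) (K := RatFunc k')
    (g := eval₂RingHom (algebraMap k' Ω) (tt k Ω))
    (lem_inj k')

omit [Algebra (RatFunc k) Ω] [IsScalarTower k (RatFunc k) Ω] in
private theorem lemPsi_alg (k' : IntermediateField k Ω) (f : k[X]) :
    lemPsi k' (algebraMap k[X] (RatFunc k) f) = algebraMap k'[X] (RatFunc k') (f.map (algebraMap k k')) := by
  unfold lemPsi
  rw [IsFractionRing.lift_algebraMap]
  rfl

private theorem lemPhi_alg (k' : IntermediateField k Ω) [FiniteDimensional k k'] (f : k'[X]) :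
    lemPhi k' (algebraMap k'[X] (RatFunc k') f) = aeval (tt k Ω) f := by
  unfold lemPhi
  rw [IsFractionRing.lift_algebraMap]
  rfl

private theorem lem_tt (f : k[X]) :
    aeval (tt k Ω) f = algebraMap (RatFunc k) Ω (algebraMap k[X] (RatFunc k) f) := by
  rw [← RatFunc.aeval_X_left_eq_algebraMap, tt, aeval_algebraMap_apply]

private theorem lemPhiPsi (k' : IntermediateField k Ω) [FiniteDimensional k k'] (r : RatFunc k) :
    lemPhi k' (lemPsi k' r) = algebraMap (RatFunc k) Ω r := by
  obtain ⟨f, g, hg, rfl⟩ := IsFractionRing.div_surjective (A := k[X]) r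
  rw [map_div₀, map_div₀, map_div₀, lemPsi_alg, lemPsi_alg, lemPhi_alg, lemPhi_alg, aeval_map_algebraMap, aeval_map_algebraMap,
    lem_tt, lem_tt]

private theorem lem_isalg (k' : IntermediateField k Ω) [FiniteDimensional k k'] (r : RatFunc k') :
    IsAlgebraic (RatFunc k) (lemPhi k' r) := by
  have hp : ∀ f : k'[X], aeval (tt k Ω) f ∈ algebraicClosure (RatFunc k) Ω := by
    intro f
    rw [aeval_eq_sum_range]
    refine sum_mem fun i _ => ?_
    rw [Algebra.smul_def]
    refine mul_mem ?_ (pow_mem ?_ i)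
    · rw [mem_algebraicClosure_iff]
      have h1 : IsAlgebraic k (algebraMap k' Ω (f.coeff i)) :=
        (Algebra.IsAlgebraic.isAlgebraic (R := k) (f.coeff i)).algebraMap
      exact h1.tower_top (RatFunc k)
    · exact (algebraicClosure (RatFunc k) Ω).algebraMap_mem RatFunc.X
  obtain ⟨f, g, hg, rfl⟩ := IsFractionRing.div_surjective (A := k'[X]) r
  rw [← mem_algebraicClosure_iff, map_div₀, lemPhi_alg, lemPhi_alg]
  exact div_mem (hp f) (hp g)

end LEmAux2

variable {k κ Ω : Type} [Field k] [CharZero k] [Field κ] [CharZero κ] [Field Ω] [IsAlgClosed Ω] [Algebra k Ω] [Algebra (RatFunc k) Ω]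
  [IsScalarTower k (RatFunc k) Ω] [Algebra κ Ω] [Algebra (RatFunc k) κ] [IsScalarTower (RatFunc k) κ Ω]
  [FiniteDimensional (RatFunc k) κ] {p : ℕ} [Fact p.Prime] {σ : k →+* ℚ_[p]} {L : IntermediateField (RatFunc k) Ω} {nm : Ω → ℝ}

omit [CharZero κ] [Algebra κ Ω] [Algebra (RatFunc k) κ] [IsScalarTower (RatFunc k) κ Ω] [FiniteDimensional (RatFunc k) κ] in
theorem exists_GN' (k' : IntermediateField k Ω) (hfin : FiniteDimensional k k') (σ' : k' →+* ℚ_[p]) :
    ∃ (L : IntermediateField (RatFunc k) Ω) (nm : Ω → ℝ), GN p (σ'.comp (algebraMap k k')) L nm ∧ (∀ c ∈ k', c ∈ L) ∧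
      ∀ c : k', nm (c : Ω) = ‖σ' c‖ := by
  let iΩ : Algebra (RatFunc k') Ω := (lemPhi k').toAlgebra
  let iψ : Algebra (RatFunc k) (RatFunc k') := (lemPsi k').toAlgebra
  have hmapΩ : ∀ r : RatFunc k', algebraMap (RatFunc k') Ω r = lemPhi k' r := fun _ => rfl
  have hmapψ : ∀ r : RatFunc k, algebraMap (RatFunc k) (RatFunc k') r = lemPsi k' r := fun _ => rfl
  have t1 : IsScalarTower k' (RatFunc k') Ω := by
    refine IsScalarTower.of_algebraMap_eq fun c => ?_
    rw [hmapΩ]
    have e : algebraMap k' (RatFunc k') c = algebraMap k'[X] (RatFunc k') (C c) := (RatFunc.algebraMap_C c).symm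
    rw [e, lemPhi_alg, aeval_C]
  have t2 : IsScalarTower (RatFunc k) (RatFunc k') Ω :=
    IsScalarTower.of_algebraMap_eq fun r => (lemPhiPsi k' r).symm
  have t3 : Algebra.IsAlgebraic (RatFunc k) (RatFunc k') := by
    refine ⟨fun r => ?_⟩
    have h := lem_isalg k' r
    rw [← hmapΩ] at h
    exact (isAlgebraic_algebraMap_iff (algebraMap (RatFunc k') Ω).injective).1 h
  obtain ⟨L₀, nm, hG⟩ := exists_GN (k := k') (Ω := Ω) p σ'
  have htt : tt k' Ω = tt k Ω := by
    have e : (RatFunc.X : RatFunc k') = algebraMap k'[X] (RatFunc k') X := RatFunc.algebraMap_X.symm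
    show algebraMap (RatFunc k') Ω RatFunc.X = tt k Ω
    rw [hmapΩ, e, lemPhi_alg, aeval_X]
  have hle : ∀ (f : k'[X]) (c : ℝ), 0 ≤ c → (∀ i, ‖σ' (f.coeff i)‖ ≤ c) → nm (aeval (tt k Ω) f) ≤ c := by
    intro f c hc hf
    have h := hG.poly_le f c hc hf
    rwa [htt] at h
  have hge : ∀ (f : k'[X]) (i : ℕ), ‖σ' (f.coeff i)‖ ≤ nm (aeval (tt k Ω) f) := by
    intro f i
    have h := hG.poly_ge f i
    rwa [htt] at h
  have hconst : ∀ c : k', (c : Ω) ∈ L₀ := by
    intro c
    have e : (c : Ω) = algebraMap (RatFunc k') Ω (algebraMap k' (RatFunc k') c) :=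
      IsScalarTower.algebraMap_apply k' (RatFunc k') Ω c
    rw [e]
    exact L₀.algebraMap_mem _
  have hA : ∀ x : Ω, IsAlgebraic (RatFunc k') x ↔ IsAlgebraic (RatFunc k) x := fun x => lem_alg x
  refine ⟨L₀.restrictScalars (RatFunc k), nm, ⟨?_, hG.zero, ?_, ?_, ?_, ?_, ?_, hG.nm_p, ?_, ?_, ?_⟩, ?_, ?_⟩
  · intro x hx
    exact (hA x).1 (hG.alg x hx)
  · intro x hx hx0
    exact hG.pos x ((hA x).2 hx) hx0
  · intro x y hx hy
    exact hG.mul x y ((hA x).2 hx) ((hA y).2 hy)
  · intro x y hx hy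
    exact hG.add x y ((hA x).2 hx) ((hA y).2 hy)
  · intro τ hτ x
    exact lem_inv (F := RatFunc k) (F' := RatFunc k') nm (L₀ : Set Ω) (fun r => L₀.algebraMap_mem r) hG.inv τ hτ x
  · intro x hx hx0
    exact hG.disc x hx hx0
  · intro x hx hx1
    have h := hG.res x hx hx1
    rwa [htt] at h
  · intro f c hc hf
    have h := hle (f.map (algebraMap k k')) c hc (fun i => by rw [coeff_map]; exact hf i)
    rwa [aeval_map_algebraMap] at h
  · intro f i
    have h := hge (f.map (algebraMap k k')) i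
    rwa [aeval_map_algebraMap, coeff_map] at h
  · intro c hc
    exact hconst ⟨c, hc⟩
  · intro c
    have e : aeval (tt k Ω) (C c : k'[X]) = (c : Ω) := aeval_C (R := k') (A := Ω) (tt k Ω) c
    refine le_antisymm ?_ ?_
    · rw [← e]
      refine hle _ _ (norm_nonneg _) fun i => ?_
      rw [coeff_C]
      split_ifs <;> simp
    · have h := hge (C c : k'[X]) 0
      rw [coeff_C_zero, e] at h
      exact h

end BSC
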