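import Pool.Agent.Lib_MP_49ddc8_l.LDefs

/-!
# [L-SF] The residue field `F'` of `L'` satisfies `F' = ∑ u ^ i F' ^ p`

`O = {x ∈ L' : nm x ≤ 1}` (valuation ring of `L'`), `F'` its residue field, `F₀ ⊆ F'` the residue field of `L`, which is `𝔽_p(u)` (`GN.res`).  By `DepOver` for `1, x, .., x ^ (p - 1)` (divide by the coefficient of largest norm) every `x ∈ F'` satisfies a nonzero polynomial of degree `< p` over `F₀`.
`x ∈ F₀(x ^ p)`: the minimal polynomial of `x` over `E₀ = F₀(x ^ p)` divides `X ^ p - x ^ p = (X - x) ^ p`, so it is `(X - x) ^ j`, `1 ≤ j < p`, its coefficient `- j x` lies in `E₀`.  `E₀ = F₀[x ^ p]` (algebraic), `x = ∑ a_j x ^ (p j)`, `a_j ∈ F₀ = ∑ u ^ i F₀ ^ p` (`a / b = a b ^ (p - 1) / b ^ p`, `𝔽_p[u] = ∑ u ^ i 𝔽_p[u] ^ p`), so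
`x = ∑ i, u ^ i (∑ j, a_ji x ^ j) ^ p`.
-/

set_option autoImplicit false

open Polynomial

namespace BSC

private theorem lsf_sep {E : Type} [Field E] {p : ℕ} [Fact p.Prime] [CharP E p] (F : Subfield E) (x : E)
    (hdep : ∃ a : Fin p → E, (∀ i, a i ∈ F) ∧ (∃ i, a i ≠ 0) ∧ ∑ i, a i * x ^ (i : ℕ) = 0) :
    IsSeparable F x ∧ IsIntegral F x := by
  obtain ⟨a, haF, ⟨i0, hi0⟩, hsum⟩ := hdep
  have hcF : CharP F p := inferInstance
  set f : F[X] := ∑ i : Fin p, C (⟨a i, haF i⟩ : F) * X ^ (i : ℕ) with hf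
  have hdeg : f.degree < p := degree_sum_fin_lt _
  have hcoef : f.coeff i0 = ⟨a i0, haF i0⟩ := by
    rw [hf, finsetSum_coeff, Finset.sum_eq_single i0]
    · rw [coeff_C_mul, coeff_X_pow_self, mul_one]
    · intro j _ hj
      rw [coeff_C_mul, coeff_X_pow, if_neg (fun h => hj (Fin.ext h).symm), mul_zero]
    · intro h
      exact absurd (Finset.mem_univ _) h
  have hf0 : f ≠ 0 := by
    intro h
    rw [h, coeff_zero] at hcoef
    exact hi0 (congrArg Subtype.val hcoef).symm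
  have hev : aeval x f = 0 := by
    rw [hf, map_sum, ← hsum]
    refine Finset.sum_congr rfl fun i _ => ?_
    rw [map_mul, aeval_C, map_pow, aeval_X]
    rfl
  have hint : IsIntegral F x := (isAlgebraic_iff_isIntegral).mp ⟨f, hf0, hev⟩
  refine ⟨?_, hint⟩
  have hd : (minpoly F x).degree < p := lt_of_le_of_lt (minpoly.degree_le_of_ne_zero F x hf0 hev) hdeg
  have hnd : (minpoly F x).natDegree < p := (natDegree_lt_iff_degree_lt (minpoly.ne_zero hint)).mpr hd
  have hpos : 0 < (minpoly F x).natDegree := minpoly.natDegree_pos hint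
  refine (separable_iff_derivative_ne_zero (minpoly.irreducible hint)).mpr fun h => ?_
  have h1 : (derivative (minpoly F x)).coeff ((minpoly F x).natDegree - 1) = 0 := by
    rw [h, coeff_zero]
  rw [coeff_derivative, Nat.sub_add_cancel hpos, coeff_natDegree, (minpoly.monic hint).leadingCoeff, one_mul,
    ← Nat.cast_succ, Nat.succ_eq_add_one, Nat.sub_add_cancel hpos, CharP.cast_eq_zero_iff F p] at h1
  exact absurd (Nat.le_of_dvd hpos h1) (not_le.mpr hnd)

private theorem lsf_abs {E : Type} [Field E] {p : ℕ} [Fact p.Prime] [CharP E p] (u : E)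
    (hdep : ∀ x : E, ∃ a : Fin p → E, (∀ i, a i ∈ Subfield.closure {u}) ∧ (∃ i, a i ≠ 0) ∧
      ∑ i, a i * x ^ (i : ℕ) = 0) (x : E) :
    ∃ c : ℕ → E, x = ∑ i ∈ Finset.range p, u ^ i * c i ^ p := by
  have hp0 : 0 < p := (Fact.out : p.Prime).pos
  set F : Subfield E := Subfield.closure {u} with hF
  set K : Subfield E := (frobenius E p).fieldRange with hK
  obtain ⟨hsep, hint⟩ := lsf_sep F x (hdep x)
  have hcF : CharP F p := inferInstance
  have hpK : ∀ y : E, y ^ p ∈ K := fun y => ⟨y, frobenius_def p y⟩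
  have huD : u ∈ IntermediateField.adjoin K {u} := IntermediateField.mem_adjoin_simple_self K u
  have hFD : F ≤ (IntermediateField.adjoin K {u}).toSubfield := by
    rw [hF, Subfield.closure_le]
    intro y hy
    rw [Set.mem_singleton_iff] at hy
    subst hy
    exact huD
  have hKD : ∀ y ∈ K, y ∈ IntermediateField.adjoin K {u} := fun y hy =>
    (IntermediateField.adjoin K {u}).algebraMap_mem ⟨y, hy⟩
  have hxD : x ∈ IntermediateField.adjoin K {u} := by
    have h1 : x ∈ IntermediateField.adjoin F {x} := IntermediateField.mem_adjoin_simple_self F x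
    rw [IntermediateField.adjoin_simple_eq_adjoin_pow_expChar_of_isSeparable F E hsep p] at h1
    have h2 : (IntermediateField.adjoin F {x ^ p}).toSubfield ≤ (IntermediateField.adjoin K {u}).toSubfield := by
      rw [IntermediateField.adjoin_toSubfield, Subfield.closure_le]
      rintro y (⟨z, rfl⟩ | hy)
      · exact hFD z.2
      · rw [Set.mem_singleton_iff] at hy
        subst hy
        exact hKD _ (hpK x)
    exact h2 h1
  have huint : IsIntegral K u := by
    refine ⟨X ^ p - C (⟨u ^ p, hpK u⟩ : K), monic_X_pow_sub_C _ hp0.ne', ?_⟩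
    rw [eval₂_sub, eval₂_pow, eval₂_X, eval₂_C]
    exact sub_self _
  have hxA : x ∈ Algebra.adjoin K {u} := by
    rw [← IntermediateField.adjoin_simple_toSubalgebra_of_isAlgebraic huint.isAlgebraic]
    exact hxD
  rw [Algebra.adjoin_singleton_eq_range_aeval] at hxA
  obtain ⟨f, hf⟩ := hxA
  have hmon : (X ^ p - C (⟨u ^ p, hpK u⟩ : K)).Monic := monic_X_pow_sub_C _ hp0.ne'
  have hroot : aeval u (X ^ p - C (⟨u ^ p, hpK u⟩ : K)) = 0 := by
    rw [map_sub, map_pow, aeval_X, aeval_C]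
    exact sub_self _
  have hg : aeval u (f %ₘ (X ^ p - C (⟨u ^ p, hpK u⟩ : K))) = x := by
    rw [aeval_modByMonic_eq_self_of_root hroot]
    exact hf
  have hgd : (f %ₘ (X ^ p - C (⟨u ^ p, hpK u⟩ : K))).natDegree < p := by
    have h1 := natDegree_modByMonic_lt f hmon (fun h => by
      have h2 := congrArg natDegree h
      rw [natDegree_X_pow_sub_C, natDegree_one] at h2
      exact hp0.ne' h2)
    rwa [natDegree_X_pow_sub_C] at h1
  set g := f %ₘ (X ^ p - C (⟨u ^ p, hpK u⟩ : K))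
  rw [aeval_eq_sum_range' hgd] at hg
  have hc : ∀ i, ∃ c : E, c ^ p = (g.coeff i : E) := fun i => by
    obtain ⟨c, hc⟩ := (g.coeff i).2
    exact ⟨c, hc⟩
  choose c hc using hc
  refine ⟨c, hg.symm.trans (Finset.sum_congr rfl fun i _ => ?_)⟩
  rw [hc, mul_comm]
  rfl

private theorem lsf_res {Ω : Type} [Field Ω] (M : Subfield Ω) (nm : Ω → ℝ) (zero : nm 0 = 0)
    (pos : ∀ x ∈ M, x ≠ 0 → 0 < nm x) (mul : ∀ x ∈ M, ∀ y ∈ M, nm (x * y) = nm x * nm y)
    (add : ∀ x ∈ M, ∀ y ∈ M, nm (x + y) ≤ max (nm x) (nm y)) :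
    ∃ (O : Subring Ω) (E : Type) (_ : Field E) (r : O →+* E), (∀ x, x ∈ O ↔ x ∈ M ∧ nm x ≤ 1) ∧
      Function.Surjective r ∧ ∀ x : O, r x = 0 ↔ nm (x : Ω) < 1 := by
  have h1 : nm 1 = 1 := by
    have h2 := mul 1 M.one_mem 1 M.one_mem
    rw [mul_one] at h2
    have h3 := pos 1 M.one_mem one_ne_zero
    exact (mul_left_cancel₀ h3.ne' (by rw [mul_one]; exact h2)).symm
  have hm1 : nm (-1) = 1 := by
    have h2 := mul (-1) (M.neg_mem M.one_mem) (-1) (M.neg_mem M.one_mem)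
    rw [neg_one_mul, neg_neg, h1] at h2
    have h3 := pos (-1) (M.neg_mem M.one_mem) (neg_ne_zero.mpr one_ne_zero)
    nlinarith
  have hneg : ∀ x ∈ M, nm (-x) = nm x := by
    intro x hx
    rw [← neg_one_mul, mul (-1) (M.neg_mem M.one_mem) x hx, hm1, one_mul]
  have hnn : ∀ x ∈ M, 0 ≤ nm x := by
    intro x hx
    by_cases h : x = 0
    · rw [h, zero]
    · exact (pos x hx h).le
  let O : Subring Ω :=
    { carrier := {x | x ∈ M ∧ nm x ≤ 1}
      mul_mem' := fun {a b} ha hb => ⟨M.mul_mem ha.1 hb.1, by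
        rw [mul a ha.1 b hb.1]
        exact mul_le_one₀ ha.2 (hnn b hb.1) hb.2⟩
      one_mem' := ⟨M.one_mem, h1.le⟩
      add_mem' := fun {a b} ha hb => ⟨M.add_mem ha.1 hb.1, (add a ha.1 b hb.1).trans (max_le ha.2 hb.2)⟩
      zero_mem' := ⟨M.zero_mem, by rw [zero]; exact zero_le_one⟩
      neg_mem' := fun {a} ha => ⟨M.neg_mem ha.1, by rw [hneg a ha.1]; exact ha.2⟩ }
  have hO : ∀ x, x ∈ O ↔ x ∈ M ∧ nm x ≤ 1 := fun x => Iff.rfl
  let m : Ideal O :=
    { carrier := {x | nm (x : Ω) < 1}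
      add_mem' := fun {a b} ha hb => lt_of_le_of_lt (add _ a.2.1 _ b.2.1) (max_lt ha hb)
      zero_mem' := by
        change nm 0 < 1
        rw [zero]
        exact zero_lt_one
      smul_mem' := fun c x hx => by
        change nm ((c : Ω) * (x : Ω)) < 1
        rw [mul _ c.2.1 _ x.2.1]
        exact lt_of_le_of_lt (mul_le_of_le_one_left (hnn _ x.2.1) c.2.2) hx }
  have hm : ∀ x : O, x ∈ m ↔ nm (x : Ω) < 1 := fun x => Iff.rfl
  have hmax : m.IsMaximal := by
    rw [Ideal.isMaximal_iff]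
    refine ⟨fun h => ?_, fun J x hJ hx hxJ => ?_⟩
    · rw [hm] at h
      change nm 1 < 1 at h
      exact absurd h (not_lt.mpr h1.ge)
    · rw [hm, not_lt] at hx
      have hx1 : nm (x : Ω) = 1 := le_antisymm x.2.2 hx
      have hx0 : (x : Ω) ≠ 0 := by
        intro h
        rw [h, zero] at hx1
        exact zero_ne_one hx1
      have hi : (x : Ω)⁻¹ ∈ O := by
        refine ⟨M.inv_mem x.2.1, ?_⟩
        have h2 := mul _ x.2.1 _ (M.inv_mem x.2.1)
        rw [mul_inv_cancel₀ hx0, h1, hx1, one_mul] at h2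
        exact h2.ge
      have h3 : (1 : O) = (⟨(x : Ω)⁻¹, hi⟩ : O) * x := by
        apply Subtype.ext
        exact (inv_mul_cancel₀ hx0).symm
      rw [h3]
      exact J.mul_mem_left _ hxJ
  refine ⟨O, O ⧸ m, Ideal.Quotient.field m, Ideal.Quotient.mk m, hO, Ideal.Quotient.mk_surjective, fun x => ?_⟩
  rw [← hm]
  exact Ideal.Quotient.eq_zero_iff_mem

variable {k κ Ω : Type} [Field k] [CharZero k] [Field κ] [CharZero κ] [Field Ω] [IsAlgClosed Ω] [Algebra k Ω] [Algebra (RatFunc k) Ω]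
  [IsScalarTower k (RatFunc k) Ω] [Algebra κ Ω] [Algebra (RatFunc k) κ] [IsScalarTower (RatFunc k) κ Ω]
  [FiniteDimensional (RatFunc k) κ] {p : ℕ} [Fact p.Prime] {σ : k →+* ℚ_[p]} {L : IntermediateField (RatFunc k) Ω} {nm : Ω → ℝ}

theorem sepg (hG : GN p σ L nm) {L' : IntermediateField κ Ω} (hL : LExt L L' p) (x : Ω) (hx : x ∈ L') (h1 : nm x ≤ 1) :
    ∃ c : ℕ → Ω, (∀ i, c i ∈ L' ∧ nm (c i) ≤ 1) ∧ nm (x - ∑ i ∈ Finset.range p, tt k Ω ^ i * c i ^ p) < 1 := by
  have hL'a : ∀ y ∈ L', IsAlgebraic (RatFunc k) y := fun y hy => (alg_iff y).mp (hL.alg y hy)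
  have hL'a' : ∀ y ∈ L'.toSubfield, IsAlgebraic (RatFunc k) y := hL'a
  have hLL : ∀ y ∈ L, y ∈ L' := fun y hy => hL.le hy
  obtain ⟨O, E, _, r, hO, hr, h0⟩ := lsf_res L'.toSubfield nm hG.zero (fun y hy h => hG.pos y (hL'a y hy) h)
    (fun y hy z hz => hG.mul y z (hL'a y hy) (hL'a z hz)) (fun y hy z hz => hG.add y z (hL'a y hy) (hL'a z hz))
  have hOm : ∀ y, y ∈ L' → nm y ≤ 1 → y ∈ O := fun y h1 h2 => (hO y).mpr ⟨h1, h2⟩
  -- the variable
  have hpoly : ∀ b : ℤ[X], nm (aeval (tt k Ω) b) ≤ 1 := by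
    intro b
    have h2 := hG.poly_le (b.map (Int.castRingHom k)) 1 zero_le_one (fun i => by
      rw [coeff_map, eq_intCast, map_intCast]
      exact Padic.norm_int_le_one _)
    rwa [← algebraMap_int_eq, aeval_map_algebraMap] at h2
  have hpoly1 : ∀ b : ℤ[X], NZ p b → 1 ≤ nm (aeval (tt k Ω) b) := by
    intro b hb
    obtain ⟨i, hi⟩ : ∃ i, (b.map (Int.castRingHom (ZMod p))).coeff i ≠ 0 := by
      by_contra h
      push Not at h
      exact hb (Polynomial.ext fun i => by rw [h i, coeff_zero])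
    rw [coeff_map, eq_intCast] at hi
    have h2 := hG.poly_ge (b.map (Int.castRingHom k)) i
    rw [coeff_map, eq_intCast, map_intCast, ← algebraMap_int_eq, aeval_map_algebraMap] at h2
    refine le_trans (le_of_eq ?_) h2
    symm
    have h3 : ¬ ‖((b.coeff i : ℤ) : ℚ_[p])‖ < 1 := by
      rw [Padic.norm_intCast_lt_one_iff, ← ZMod.intCast_zmod_eq_zero_iff_dvd]
      exact hi
    exact le_antisymm (Padic.norm_int_le_one _) (not_lt.mp h3)
  have hu' : tt k Ω ∈ L' := by
    have h2 : tt k Ω = algebraMap κ Ω (algebraMap (RatFunc k) κ RatFunc.X) := by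
      rw [← IsScalarTower.algebraMap_apply]
      rfl
    rw [h2]
    exact L'.algebraMap_mem _
  have hu1 : nm (tt k Ω) ≤ 1 := by
    have h2 := hpoly X
    rwa [aeval_X] at h2
  set u : O := ⟨tt k Ω, hOm _ hu' hu1⟩ with hu
  have hval : ∀ b : ℤ[X], ((aeval u b : O) : Ω) = aeval (tt k Ω) b := by
    intro b
    have h2 := (aeval_algHom_apply (O.subtype.toIntAlgHom) u b)
    exact h2.symm
  have hres : ∀ b : ℤ[X], r (aeval u b) ∈ Subfield.closure {r u} := by
    intro b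
    have h2 : r (aeval u b) = aeval (r u) b := (aeval_algHom_apply (r.toIntAlgHom) u b).symm
    rw [h2, aeval_eq_sum_range]
    refine sum_mem fun i _ => ?_
    refine zsmul_mem (pow_mem (Subfield.subset_closure (Set.mem_singleton _)) _) _
  -- residues of elements of L
  have hLres : ∀ (y : Ω) (hy : y ∈ L) (hy1 : nm y ≤ 1), r ⟨y, hOm y (hLL y hy) hy1⟩ ∈ Subfield.closure {r u} := by
    intro y hy hy1
    obtain ⟨a, b, hb, hab⟩ := hG.res y hy hy1
    set B : O := aeval u b with hB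
    have hBn : 1 ≤ nm (B : Ω) := by
      rw [hB, hval]
      exact hpoly1 b hb
    have hB0 : r B ≠ 0 := by
      rw [Ne, h0, not_lt]
      exact hBn
    have hBm := (hO B).mp B.2
    have hBne : (B : Ω) ≠ 0 := by
      intro h
      rw [h, hG.zero] at hBn
      exact absurd hBn (not_le.mpr zero_lt_one)
    have hkey : r (⟨y, hOm y (hLL y hy) hy1⟩ * B - aeval u a) = 0 := by
      rw [h0]
      have h2 : ((⟨y, hOm y (hLL y hy) hy1⟩ * B - aeval u a : O) : Ω) =
          (y - aeval (tt k Ω) a / aeval (tt k Ω) b) * (B : Ω) := by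
        have h3 : (B : Ω) = aeval (tt k Ω) b := hval b
        rw [sub_mul, ← h3, div_mul_cancel₀ _ hBne, ← hval a]
        rfl
      have hA : aeval (tt k Ω) a / aeval (tt k Ω) b ∈ L'.toSubfield := by
        rw [← hval a, ← hval b]
        exact div_mem ((hO _).mp (aeval u a).2).1 ((hO _).mp (aeval u b).2).1
      rw [h2, hG.mul _ _ (hL'a' _ (sub_mem (hLL y hy) hA)) (hL'a' _ hBm.1)]
      have h4 : nm (B : Ω) = 1 := le_antisymm hBm.2 hBn
      rw [h4, mul_one]
      exact hab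
    rw [map_sub, map_mul, sub_eq_zero] at hkey
    rw [eq_div_of_mul_eq hB0 hkey]
    exact div_mem (hres a) (hres b)
  -- characteristic
  have hp1 : (1 : ℝ) < p := by exact_mod_cast (Fact.out : p.Prime).one_lt
  have hchar : CharP E p := by
    rw [CharP.charP_iff_prime_eq_zero (Fact.out : p.Prime)]
    have h2 : r (p : O) = 0 := by
      rw [h0]
      have h3 : (((p : ℕ) : O) : Ω) = (p : Ω) := rfl
      rw [h3, hG.nm_p]
      exact inv_lt_one_of_one_lt₀ hp1
    rw [← h2, map_natCast]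
  -- dependence
  have hdep : ∀ z : E, ∃ a : Fin p → E, (∀ i, a i ∈ Subfield.closure {r u}) ∧ (∃ i, a i ≠ 0) ∧
      ∑ i, a i * z ^ (i : ℕ) = 0 := by
    intro z
    obtain ⟨y, rfl⟩ := hr z
    have hy := (hO y).mp y.2
    obtain ⟨c, hc, ⟨i0, hi0⟩, hsum⟩ := hL.dep (fun i : Fin p => (y : Ω) ^ (i : ℕ))
      (fun i => pow_mem (show (y : Ω) ∈ L' from hy.1) _)
    have hcL : ∀ i, c i ∈ L := hc
    have : Nonempty (Fin p) := ⟨i0⟩
    obtain ⟨j, hj⟩ := Finite.exists_max (fun i => nm (c i))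
    have hnj : 0 < nm (c j) := lt_of_lt_of_le (hG.pos _ (hG.alg _ (hcL i0)) hi0) (hj i0)
    have hcj : c j ≠ 0 := by
      intro h
      rw [h, hG.zero] at hnj
      exact lt_irrefl _ hnj
    have hdL : ∀ i, c i / c j ∈ L := fun i => div_mem (hcL i) (hcL j)
    have hdn : ∀ i, nm (c i / c j) ≤ 1 := by
      intro i
      have h2 := hG.mul (c i / c j) (c j) (hG.alg _ (hdL i)) (hG.alg _ (hcL j))
      rw [div_mul_cancel₀ _ hcj] at h2
      have h3 : nm (c i) ≤ nm (c j) := hj i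
      rw [h2] at h3
      exact le_of_mul_le_mul_right (by rw [one_mul]; exact h3) hnj
    refine ⟨fun i => r ⟨c i / c j, hOm _ (hLL _ (hdL i)) (hdn i)⟩, fun i => hLres _ (hdL i) (hdn i), ⟨j, ?_⟩, ?_⟩
    · have h2 : (⟨c j / c j, hOm _ (hLL _ (hdL j)) (hdn j)⟩ : O) = 1 := Subtype.ext (div_self hcj)
      change r (⟨c j / c j, hOm _ (hLL _ (hdL j)) (hdn j)⟩ : O) ≠ 0
      rw [h2, map_one]
      exact one_ne_zero
    · have h2 : (∑ i : Fin p, (⟨c i / c j, hOm _ (hLL _ (hdL i)) (hdn i)⟩ : O) * y ^ (i : ℕ)) = 0 := by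
        apply Subtype.ext
        rw [AddSubmonoidClass.coe_finsetSum]
        have h3 : ∀ i : Fin p, (((⟨c i / c j, hOm _ (hLL _ (hdL i)) (hdn i)⟩ : O) * y ^ (i : ℕ) : O) : Ω) =
            (c j)⁻¹ * (c i * (y : Ω) ^ (i : ℕ)) := by
          intro i
          rw [← mul_assoc, inv_mul_eq_div]
          rfl
        simp only [h3]
        rw [← Finset.mul_sum, hsum, mul_zero]
        rfl
      have h4 := congrArg r h2
      rw [map_sum, map_zero] at h4
      rw [← h4]
      refine Finset.sum_congr rfl fun i _ => ?_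
      rw [map_mul, map_pow]
  obtain ⟨c, hc⟩ := lsf_abs (r u) hdep (r ⟨x, hOm x hx h1⟩)
  choose d hd using fun i => hr (c i)
  refine ⟨fun i => (d i : Ω), fun i => (hO _).mp (d i).2, ?_⟩
  have h2 : r (⟨x, hOm x hx h1⟩ - ∑ i ∈ Finset.range p, u ^ i * d i ^ p) = 0 := by
    rw [map_sub, hc, map_sum, sub_eq_zero]
    refine Finset.sum_congr rfl fun i _ => ?_
    rw [map_mul, map_pow, map_pow, hd]
  rw [h0] at h2
  have h3 : ((⟨x, hOm x hx h1⟩ - ∑ i ∈ Finset.range p, u ^ i * d i ^ p : O) : Ω) =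
      x - ∑ i ∈ Finset.range p, tt k Ω ^ i * (d i : Ω) ^ p := by
    rw [AddSubgroupClass.coe_sub, AddSubmonoidClass.coe_finsetSum]
    rfl
  rw [h3] at h2
  exact h2

end BSC
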