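import Pool.Agent.Lib_MP_49ddc8_l.LDefs

/-!
# [L-VG] A uniformiser of `L'`

`DepOver` for `1, x, .., x ^ (p - 1)`: two nonzero terms have the same norm, so `nm x ^ d ∈ p ^ ℤ` for some `0 < d < p` (`GN.disc`), so `nm x ^ ((p - 1)!) ∈ p ^ ℤ`; the integers `l` with `nm x ^ ((p - 1)!) = p ^ l` for some `0 ≠ x ∈ L'` form a subgroup `≠ 0` of `ℤ`; take a generator (see Lib_MP_49ddc8_v/VE2.lean).
-/

set_option autoImplicit false

open Polynomial

namespace BSC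

variable {k κ Ω : Type} [Field k] [CharZero k] [Field κ] [CharZero κ] [Field Ω] [IsAlgClosed Ω] [Algebra k Ω] [Algebra (RatFunc k) Ω]
  [IsScalarTower k (RatFunc k) Ω] [Algebra κ Ω] [Algebra (RatFunc k) κ] [IsScalarTower (RatFunc k) κ Ω]
  [FiniteDimensional (RatFunc k) κ] {p : ℕ} [Fact p.Prime] {σ : k →+* ℚ_[p]} {L : IntermediateField (RatFunc k) Ω} {nm : Ω → ℝ}

section

omit [CharZero k] [IsAlgClosed Ω] [IsScalarTower k (RatFunc k) Ω]

private theorem lvg_one (hG : GN p σ L nm) : nm 1 = 1 := by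
  have h1 : IsAlgebraic (RatFunc k) (1 : Ω) := isAlgebraic_one
  have h2 := hG.mul 1 1 h1 h1
  rw [one_mul] at h2
  have h3 := hG.pos 1 h1 one_ne_zero
  have h4 : nm 1 * 1 = nm 1 * nm 1 := by rw [mul_one]; exact h2
  exact (mul_left_cancel₀ h3.ne' h4).symm

private theorem lvg_neg_one (hG : GN p σ L nm) : nm (-1) = 1 := by
  have h1 : IsAlgebraic (RatFunc k) (-1 : Ω) := isAlgebraic_one.neg
  have h2 := hG.mul (-1) (-1) h1 h1
  rw [neg_mul_neg, one_mul, lvg_one hG] at h2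
  have h3 := hG.pos (-1) h1 (neg_ne_zero.2 one_ne_zero)
  nlinarith

private theorem lvg_pow (hG : GN p σ L nm) {x : Ω} (hx : IsAlgebraic (RatFunc k) x) (n : ℕ) :
    nm (x ^ n) = nm x ^ n := by
  induction n with
  | zero => rw [pow_zero, pow_zero, lvg_one hG]
  | succ n ih => rw [pow_succ, hG.mul _ _ (hx.pow n) hx, ih, pow_succ]

private theorem lvg_inv (hG : GN p σ L nm) {x : Ω} (hx : IsAlgebraic (RatFunc k) x) (h0 : x ≠ 0) :
    nm x⁻¹ = (nm x)⁻¹ := by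
  have h1 := hG.mul x x⁻¹ hx hx.inv
  rw [mul_inv_cancel₀ h0, lvg_one hG] at h1
  exact eq_inv_of_mul_eq_one_right h1.symm

private theorem lvg_neg (hG : GN p σ L nm) {x : Ω} (hx : IsAlgebraic (RatFunc k) x) : nm (-x) = nm x := by
  rw [← neg_one_mul, hG.mul (-1) x isAlgebraic_one.neg hx, lvg_neg_one hG, one_mul]

private theorem lvg_sum (hG : GN p σ L nm) {ι : Type} (s : Finset ι) (a : ι → Ω) (ha : ∀ i ∈ s, IsAlgebraic (RatFunc k) (a i))
    {c : ℝ} (hc : 0 < c) (h : ∀ i ∈ s, nm (a i) < c) : nm (∑ i ∈ s, a i) < c := by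
  classical
  induction s using Finset.induction_on with
  | empty =>
    rw [Finset.sum_empty, hG.zero]
    exact hc
  | insert j s hj ih =>
    rw [Finset.sum_insert hj]
    have h1 : IsAlgebraic (RatFunc k) (∑ i ∈ s, a i) :=
      mem_algebraicClosure_iff.1 (sum_mem fun i hi => mem_algebraicClosure_iff.2 (ha i (Finset.mem_insert_of_mem hi)))
    refine (hG.add _ _ (ha j (Finset.mem_insert_self j s)) h1).trans_lt (max_lt (h j (Finset.mem_insert_self j s)) ?_)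
    exact ih (fun i hi => ha i (Finset.mem_insert_of_mem hi)) fun i hi => h i (Finset.mem_insert_of_mem hi)

/-- two nonzero terms of a vanishing sum have the same norm -/
private theorem lvg_pair (hG : GN p σ L nm) {n : ℕ} (a : Fin n → Ω) (ha : ∀ i, IsAlgebraic (RatFunc k) (a i))
    (hne : ∃ i, a i ≠ 0) (hsum : ∑ i, a i = 0) : ∃ i j, i < j ∧ a i ≠ 0 ∧ a j ≠ 0 ∧ nm (a i) = nm (a j) := by
  classical
  obtain ⟨i1, hi1⟩ := hne
  obtain ⟨i0, -, hmax⟩ := Finset.exists_max_image Finset.univ (fun i => nm (a i)) ⟨i1, Finset.mem_univ i1⟩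
  have hpos : 0 < nm (a i0) := (hG.pos _ (ha i1) hi1).trans_le (hmax i1 (Finset.mem_univ i1))
  have hi0 : a i0 ≠ 0 := by
    intro h
    rw [h, hG.zero] at hpos
    exact lt_irrefl _ hpos
  have key : ∃ j, j ≠ i0 ∧ nm (a j) = nm (a i0) := by
    by_contra hcon
    push Not at hcon
    have h1 : ∀ j ∈ Finset.univ.erase i0, nm (a j) < nm (a i0) := fun j hj =>
      lt_of_le_of_ne (hmax j (Finset.mem_univ j)) (hcon j (Finset.ne_of_mem_erase hj))
    have h2 := lvg_sum hG (Finset.univ.erase i0) a (fun j _ => ha j) hpos h1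
    have h3 : a i0 + ∑ j ∈ Finset.univ.erase i0, a j = 0 := by
      rw [Finset.add_sum_erase _ _ (Finset.mem_univ i0), hsum]
    have h4 : ∑ j ∈ Finset.univ.erase i0, a j = -a i0 := by
      rw [eq_neg_iff_add_eq_zero, add_comm]
      exact h3
    rw [h4, lvg_neg hG (ha i0)] at h2
    exact lt_irrefl _ h2
  obtain ⟨j, hj, he⟩ := key
  have hj0 : a j ≠ 0 := by
    intro h
    rw [h, hG.zero] at he
    exact hpos.ne he
  rcases lt_or_gt_of_ne hj with h | h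
  · exact ⟨j, i0, h, hj0, hi0, he⟩
  · exact ⟨i0, j, h, hi0, hj0, he.symm⟩

end

omit [CharZero k] [CharZero κ] [IsAlgClosed Ω] [IsScalarTower k (RatFunc k) Ω] in
/-- some power `m ≤ p` of the norm is a power of `p` -/
private theorem lvg_root (hG : GN p σ L nm) {L' : IntermediateField κ Ω} (hL : LExt L L' p) (x : Ω) (hx : x ∈ L') (hx0 : x ≠ 0) :
    ∃ m : ℕ, 0 < m ∧ m ≤ p ∧ ∃ n : ℤ, nm x ^ m = (p : ℝ) ^ n := by
  have hxa : IsAlgebraic (RatFunc k) x := (alg_iff (κ := κ) x).1 (hL.alg x hx)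
  have hp0 : (0 : ℝ) < p := by exact_mod_cast (Fact.out : p.Prime).pos
  have hxp := hG.pos x hxa hx0
  obtain ⟨c, hc, ⟨i0, hi0⟩, hsum⟩ := hL.dep (fun i => x ^ (i : ℕ)) fun i => pow_mem hx _
  have hca : ∀ i, IsAlgebraic (RatFunc k) (c i) := fun i => hG.alg _ (hc i)
  obtain ⟨i, j, hij, hi, hj, he⟩ := lvg_pair hG (fun i => c i * x ^ (i : ℕ)) (fun i => (hca i).mul (hxa.pow _))
    ⟨i0, mul_ne_zero hi0 (pow_ne_zero _ hx0)⟩ hsum
  have hci : c i ≠ 0 := left_ne_zero_of_mul hi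
  have hcj : c j ≠ 0 := left_ne_zero_of_mul hj
  obtain ⟨a, ha⟩ := hG.disc _ (hc i) hci
  obtain ⟨b, hb⟩ := hG.disc _ (hc j) hcj
  rw [hG.mul _ _ (hca i) (hxa.pow _), hG.mul _ _ (hca j) (hxa.pow _), lvg_pow hG hxa, lvg_pow hG hxa, ha, hb] at he
  have hij' : (i : ℕ) < (j : ℕ) := hij
  refine ⟨(j : ℕ) - (i : ℕ), Nat.sub_pos_of_lt hij', (Nat.sub_le _ _).trans j.2.le, a - b, ?_⟩
  have h1 : nm x ^ (j : ℕ) = nm x ^ ((j : ℕ) - (i : ℕ)) * nm x ^ (i : ℕ) := by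
    rw [← pow_add, Nat.sub_add_cancel hij'.le]
  rw [h1, ← mul_assoc] at he
  have h2 := mul_right_cancel₀ (pow_ne_zero _ hxp.ne') he
  rw [zpow_sub₀ hp0.ne', h2, mul_div_cancel_left₀ _ (zpow_pos hp0 b).ne']

theorem unifg (hG : GN p σ L nm) {L' : IntermediateField κ Ω} (hL : LExt L L' p) :
    ∃ π ∈ L', π ≠ 0 ∧ nm π < 1 ∧ ∀ x ∈ L', x ≠ 0 → ∃ n : ℤ, nm x = nm π ^ n := by
  have hp0 : (0 : ℝ) < p := by exact_mod_cast (Fact.out : p.Prime).pos
  have hp1 : (1 : ℝ) < p := by exact_mod_cast (Fact.out : p.Prime).one_lt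
  have hE : ∀ x ∈ L', IsAlgebraic (RatFunc k) x := fun x hx => (alg_iff (κ := κ) x).1 (hL.alg x hx)
  obtain ⟨N, hN0, hN⟩ : ∃ N : ℕ, 0 < N ∧ ∀ x ∈ L', x ≠ 0 → ∃ n : ℤ, nm x ^ N = (p : ℝ) ^ n := by
    refine ⟨p.factorial, Nat.factorial_pos _, ?_⟩
    intro x hx hx0
    obtain ⟨m, hm0, hm, n, hn⟩ := lvg_root hG hL x hx hx0
    obtain ⟨q, hq⟩ := Nat.dvd_factorial hm0 hm
    refine ⟨n * q, ?_⟩
    rw [hq, pow_mul, hn, zpow_mul, zpow_natCast]
  have hpos : ∀ x ∈ L', x ≠ 0 → 0 < nm x := fun x hx hx0 => hG.pos x (hE x hx) hx0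
  let H : AddSubgroup ℤ :=
    { carrier := {l | ∃ x ∈ L', x ≠ 0 ∧ nm x ^ N = (p : ℝ) ^ l}
      zero_mem' := ⟨1, one_mem L', one_ne_zero, by rw [lvg_one hG, one_pow, zpow_zero]⟩
      add_mem' := by
        rintro a b ⟨x, hx, hx0, h1⟩ ⟨y, hy, hy0, h2⟩
        refine ⟨x * y, mul_mem hx hy, mul_ne_zero hx0 hy0, ?_⟩
        rw [hG.mul x y (hE x hx) (hE y hy), mul_pow, h1, h2, zpow_add₀ hp0.ne']
      neg_mem' := by
        rintro a ⟨x, hx, hx0, h1⟩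
        refine ⟨x⁻¹, inv_mem hx, inv_ne_zero hx0, ?_⟩
        rw [lvg_inv hG (hE x hx) hx0, inv_pow, h1, zpow_neg] }
  have hH : ∀ l : ℤ, l ∈ H ↔ ∃ x ∈ L', x ≠ 0 ∧ nm x ^ N = (p : ℝ) ^ l := fun l => Iff.rfl
  have hpE : (p : Ω) ∈ L' := natCast_mem L' p
  have hchar : CharZero Ω := charZero_of_injective_algebraMap (algebraMap k Ω).injective
  have hpne : (p : Ω) ≠ 0 := by exact_mod_cast (Fact.out : p.Prime).ne_zero
  have hNH : (-(N : ℤ)) ∈ H := by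
    rw [hH]
    refine ⟨(p : Ω), hpE, hpne, ?_⟩
    rw [hG.nm_p, inv_pow, zpow_neg, zpow_natCast]
  obtain ⟨g, hg⟩ := Int.subgroup_cyclic H
  rw [← AddSubgroup.zmultiples_eq_closure] at hg
  have hgH : g ∈ H := by
    rw [hg]
    exact AddSubgroup.mem_zmultiples g
  have hg0 : g ≠ 0 := by
    rintro rfl
    rw [hg, AddSubgroup.mem_zmultiples_iff] at hNH
    obtain ⟨t, ht⟩ := hNH
    simp at ht
    omega
  have hgen : ∀ l ∈ H, ∃ t : ℤ, l = t * (-|g|) := by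
    intro l hl
    rw [hg, AddSubgroup.mem_zmultiples_iff] at hl
    obtain ⟨t, ht⟩ := hl
    rcases abs_choice g with h | h
    · refine ⟨-t, ?_⟩
      rw [h, ← ht, smul_eq_mul]
      ring
    · refine ⟨t, ?_⟩
      rw [h, ← ht, smul_eq_mul]
      ring
  have hgm : -|g| ∈ H := by
    rcases abs_choice g with h | h
    · rw [h]
      exact H.neg_mem hgH
    · rw [h, neg_neg]
      exact hgH
  obtain ⟨π, hπE, hπ0, hπ⟩ := (hH _).1 hgm
  have hπp := hpos π hπE hπ0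
  refine ⟨π, hπE, hπ0, ?_, ?_⟩
  · by_contra hc
    push Not at hc
    have h1 : 1 ≤ nm π ^ N := one_le_pow₀ hc
    rw [hπ] at h1
    have h2 : (p : ℝ) ^ (-|g|) < 1 := by
      refine zpow_lt_one_of_neg₀ hp1 ?_
      have := abs_pos.2 hg0
      omega
    linarith
  · intro x hx hx0
    obtain ⟨l, hl⟩ := hN x hx hx0
    obtain ⟨t, ht⟩ := hgen l ((hH l).2 ⟨x, hx, hx0, hl⟩)
    refine ⟨t, ?_⟩
    refine (pow_left_inj₀ (hpos x hx hx0).le (zpow_pos hπp t).le hN0.ne').1 ?_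
    rw [hl, ht, mul_comm, zpow_mul, ← hπ, ← zpow_natCast (nm π ^ t), ← zpow_mul, mul_comm t, zpow_mul, zpow_natCast]

end BSC
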