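import Pool.Agent.Lib_MP_49ddc8_l.LNo
import Pool.Agent.Lib_MP_49ddc8_l.LVg
import Pool.Agent.Lib_MP_49ddc8_l.LSf
import Pool.Agent.Lib_MP_49ddc8.VaAlg

/-!
# [L-FU] The residue field of `W` on `S.F L'` is the residue field of `L'`

Adaptation of Lib_MP_49ddc8_v/VFu.lean: `O = W.comap (S.F L').subtype`, `R = ResidueField O`, `F' ⊆ R` the subfield of the classes of the elements of `L'`.  `va_alg` (Lib_MP_49ddc8/VaAlg.lean) with `F = F'`, `u`: `hF`: `sepg`; `hu`: `no_rootg`; `kp` for `A = L'`: `x = c w ^ p`, `c ∈ L'`; `π₀` from `unifg`, `nm c = nm π₀ ^ n`,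
`c = π₀ ^ n c₀`, so `π₀ ^ n w ^ p` is a unit.  If there are `n₁` prime to `p` and `w₁` with `π₀ ^ n₁ w₁ ^ p` a unit of `W` then there is `π ∈ S.F L'` with `W.valuation π₀ = W.valuation π ^ p` (Bezout) and `ε` = class of `π₀ / π ^ p`; otherwise `ε = 1`.
-/

set_option autoImplicit false

open Polynomial

namespace BSC

private theorem lfu_field {Ω : Type} [Field Ω] (F : Subfield Ω) (W : ValuationSubring Ω) :
    ∃ (R : Type) (_ : Field R) (cl : F → R),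
      (∀ r : R, ∃ z : F, (z : Ω) ∈ W ∧ cl z = r) ∧
      (∀ z w : F, (z : Ω) ∈ W → (w : Ω) ∈ W → cl (z + w) = cl z + cl w) ∧
      (∀ z w : F, (z : Ω) ∈ W → (w : Ω) ∈ W → cl (z * w) = cl z * cl w) ∧ cl 1 = 1 ∧
      (∀ z : F, (z : Ω) ∈ W → (cl z = 0 ↔ W.valuation (z : Ω) < 1)) := by
  classical
  let V : ValuationSubring F := W.comap F.subtype
  have hV : ∀ z : F, z ∈ V ↔ (z : Ω) ∈ W := fun z => Iff.rfl
  refine ⟨IsLocalRing.ResidueField V, inferInstance,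
    fun z => if h : z ∈ V then IsLocalRing.residue V ⟨z, h⟩ else 0, ?_, ?_, ?_, ?_, ?_⟩
  · intro r
    obtain ⟨⟨z, hz⟩, rfl⟩ := IsLocalRing.residue_surjective r
    exact ⟨z, hz, dif_pos hz⟩
  · intro z w hz hw
    have hz' : z ∈ V := hz
    have hw' : w ∈ V := hw
    beta_reduce
    rw [dif_pos hz', dif_pos hw', dif_pos (add_mem hz' hw'), ← map_add]
    rfl
  · intro z w hz hw
    have hz' : z ∈ V := hz
    have hw' : w ∈ V := hw
    beta_reduce
    rw [dif_pos hz', dif_pos hw', dif_pos (mul_mem hz' hw'), ← map_mul]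
    rfl
  · beta_reduce
    rw [dif_pos (one_mem V)]
    exact map_one _
  · intro z hz
    have hz' : z ∈ V := hz
    beta_reduce
    rw [dif_pos hz', IsLocalRing.residue_eq_zero_iff, V.valuation_lt_one_iff]
    change V.valuation z < 1 ↔ _
    rw [← V.mem_nonunits_iff, ← W.mem_nonunits_iff, V.mem_nonunits_iff_or, W.mem_nonunits_iff_or, hV]
    constructor
    · rintro (h | h)
      · left
        rw [h]
        rfl
      · exact Or.inr h
    · rintro (h | h)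
      · exact Or.inl (Subtype.ext h)
      · exact Or.inr h

variable {k κ Ω : Type} [Field k] [CharZero k] [Field κ] [CharZero κ] [Field Ω] [IsAlgClosed Ω] [Algebra k Ω] [Algebra (RatFunc k) Ω]
  [IsScalarTower k (RatFunc k) Ω] [Algebra κ Ω] [Algebra (RatFunc k) κ] [IsScalarTower (RatFunc k) κ Ω]
  [FiniteDimensional (RatFunc k) κ] {p : ℕ} [Fact p.Prime] {σ : k →+* ℚ_[p]} {L : IntermediateField (RatFunc k) Ω} {nm : Ω → ℝ}

theorem resg (hp2 : p ≠ 2) (hG : GN p σ L nm) (S : Sec κ Ω) (W : ValuationSubring Ω) (hW : GW S L nm W)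
    (L' : IntermediateField κ Ω) (hL : LExt L L' p) (x : Ω) (hx : x ∈ S.F (L' : Set Ω)) (hxW : x ∈ W) :
    ∃ y ∈ L', W.valuation (x - y) < 1 := by
  classical
  have hp : p.Prime := Fact.out
  obtain ⟨R, iR, cl, hsur, hadd, hmul, hone, hzero⟩ := lfu_field (S.F (L' : Set Ω)) W
  -- the norm
  have halg : ∀ y : Ω, IsAlgebraic κ y → IsAlgebraic (RatFunc k) y := fun y hy => (alg_iff y).1 hy
  have hnmul : ∀ y z : Ω, IsAlgebraic κ y → IsAlgebraic κ z → nm (y * z) = nm y * nm z :=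
    fun y z hy hz => hG.mul y z (halg y hy) (halg z hz)
  have hnpos : ∀ y : Ω, IsAlgebraic κ y → y ≠ 0 → 0 < nm y := fun y hy h0 => hG.pos y (halg y hy) h0
  have hn1 : nm 1 = 1 := by
    have h1 := hnmul 1 1 isAlgebraic_one isAlgebraic_one
    have h2 := hnpos 1 isAlgebraic_one one_ne_zero
    rw [mul_one] at h1
    nlinarith
  have hninv : ∀ y : Ω, IsAlgebraic κ y → y ≠ 0 → nm y⁻¹ = (nm y)⁻¹ := by
    intro y hy h0
    have h1 := hnmul y y⁻¹ hy hy.inv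
    rw [mul_inv_cancel₀ h0, hn1] at h1
    exact eq_inv_of_mul_eq_one_right h1.symm
  have hnpow : ∀ y : Ω, IsAlgebraic κ y → ∀ n : ℕ, nm (y ^ n) = nm y ^ n := by
    intro y hy n
    induction n with
    | zero => rw [pow_zero, pow_zero, hn1]
    | succ n ih => rw [pow_succ, pow_succ, hnmul _ _ (hy.pow n) hy, ih]
  have hnzpow : ∀ y : Ω, IsAlgebraic κ y → y ≠ 0 → ∀ n : ℤ, nm (y ^ n) = nm y ^ n := by
    intro y hy h0 n
    cases n with
    | ofNat n => simpa using hnpow y hy n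
    | negSucc n =>
      rw [zpow_negSucc, zpow_negSucc, hninv _ (hy.pow _) (pow_ne_zero _ h0), hnpow y hy]
  have hvlt : ∀ y : Ω, IsAlgebraic κ y → (W.valuation y < 1 ↔ nm y < 1) := by
    intro y hy
    rw [← W.mem_nonunits_iff, W.mem_nonunits_iff_or]
    by_cases h0 : y = 0
    · rw [h0, hG.zero]
      exact ⟨fun _ => zero_lt_one, fun _ => Or.inl rfl⟩
    · rw [hW.mem _ hy.inv, hninv y hy h0]
      have h1 := hnpos y hy h0
      constructor
      · rintro (h | h)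
        · exact absurd h h0
        · by_contra h2
          exact h (inv_le_one_of_one_le₀ (not_lt.1 h2))
      · intro h
        right
        rw [not_le]
        exact (one_lt_inv₀ h1).2 h
  have hv1 : ∀ y : Ω, IsAlgebraic κ y → nm y = 1 → W.valuation y = 1 := by
    intro y hy h1
    apply le_antisymm
    · exact (W.valuation_le_one_iff _).2 ((hW.mem y hy).2 h1.le)
    · refine not_lt.1 fun h => ?_
      have := (hvlt y hy).1 h
      rw [h1] at this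
      exact lt_irrefl _ this
  have hLF : ∀ y ∈ L', y ∈ S.F (L' : Set Ω) := fun y hy => mem_F_of_mem S _ y hy (hL.alg y hy)
  -- classes
  have h0W : ((0 : S.F (L' : Set Ω)) : Ω) ∈ W := W.zero_mem
  have h1W : ((1 : S.F (L' : Set Ω)) : Ω) ∈ W := W.one_mem
  have hcl0 : cl 0 = 0 := by
    rw [hzero 0 h0W]
    show W.valuation (0 : Ω) < 1
    rw [map_zero]
    exact zero_lt_one
  have hneg : ∀ z : S.F (L' : Set Ω), (z : Ω) ∈ W → cl (-z) = - cl z := by
    intro z hz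
    have h1 := hadd z (-z) hz (neg_mem hz)
    rw [add_neg_cancel, hcl0] at h1
    exact eq_neg_of_add_eq_zero_right h1.symm
  have hsub : ∀ z w : S.F (L' : Set Ω), (z : Ω) ∈ W → (w : Ω) ∈ W → cl (z - w) = cl z - cl w := by
    intro z w hz hw
    rw [sub_eq_add_neg, hadd z (-w) hz (neg_mem hw), hneg w hw, sub_eq_add_neg]
  have heq : ∀ z w : S.F (L' : Set Ω), (z : Ω) ∈ W → (w : Ω) ∈ W → (cl z = cl w ↔ W.valuation ((z : Ω) - w) < 1) := by
    intro z w hz hw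
    rw [← sub_eq_zero, ← hsub z w hz hw, hzero (z - w) (sub_mem hz hw)]
    rfl
  have hpow : ∀ z : S.F (L' : Set Ω), (z : Ω) ∈ W → ∀ n : ℕ, cl (z ^ n) = cl z ^ n := by
    intro z hz n
    induction n with
    | zero => rw [pow_zero, pow_zero, hone]
    | succ n ih => rw [pow_succ, pow_succ, hmul _ _ (pow_mem hz n) hz, ih]
  have hsum : ∀ (s : Finset ℕ) (g : ℕ → S.F (L' : Set Ω)), (∀ i, ((g i : S.F (L' : Set Ω)) : Ω) ∈ W) →
      (((∑ i ∈ s, g i : S.F (L' : Set Ω))) : Ω) ∈ W ∧ cl (∑ i ∈ s, g i) = ∑ i ∈ s, cl (g i) := by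
    intro s g hg
    induction s using Finset.induction_on with
    | empty => exact ⟨h0W, hcl0⟩
    | insert a s ha ih =>
      rw [Finset.sum_insert ha, Finset.sum_insert ha]
      refine ⟨add_mem (hg a) ih.1, ?_⟩
      rw [hadd _ _ (hg a) ih.1, ih.2]
  have hnat : ∀ n : ℕ, cl (n : S.F (L' : Set Ω)) = (n : R) := by
    intro n
    induction n with
    | zero => rw [Nat.cast_zero, Nat.cast_zero, hcl0]
    | succ n ih =>
      rw [Nat.cast_succ, Nat.cast_succ, hadd _ _ (natCast_mem W n) h1W, ih, hone]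
  have hinv : ∀ z : S.F (L' : Set Ω), (z : Ω) ∈ W → cl z ≠ 0 → ((z⁻¹ : S.F (L' : Set Ω)) : Ω) ∈ W ∧ cl z⁻¹ = (cl z)⁻¹ := by
    intro z hz h0
    have h1 : ¬ W.valuation (z : Ω) < 1 := fun h => h0 ((hzero z hz).2 h)
    rw [← W.mem_nonunits_iff, W.mem_nonunits_iff_or, not_or, not_not] at h1
    have hz0 : z ≠ 0 := fun h => h1.1 (by rw [h]; rfl)
    have h2 : ((z⁻¹ : S.F (L' : Set Ω)) : Ω) ∈ W := h1.2
    refine ⟨h2, ?_⟩
    have h3 := hmul z z⁻¹ hz h2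
    rw [mul_inv_cancel₀ hz0, hone] at h3
    exact eq_inv_of_mul_eq_one_right h3.symm
  have hchar : CharP R p := by
    rw [CharP.charP_iff_prime_eq_zero hp, ← hnat p, hzero _ (natCast_mem W p)]
    show W.valuation ((p : ℕ) : Ω) < 1
    rw [hvlt _ (isAlgebraic_natCast p), hG.nm_p]
    exact inv_lt_one_of_one_lt₀ (by exact_mod_cast hp.one_lt)
  -- the subfield of the classes of elements of `L'`
  let F' : Subfield R :=
    { carrier := {r | ∃ y : S.F (L' : Set Ω), (y : Ω) ∈ L' ∧ (y : Ω) ∈ W ∧ cl y = r}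
      mul_mem' := by
        rintro _ _ ⟨y, hy, hyW, rfl⟩ ⟨z, hz, hzW, rfl⟩
        exact ⟨y * z, mul_mem hy hz, mul_mem hyW hzW, hmul y z hyW hzW⟩
      one_mem' := ⟨1, one_mem L', h1W, hone⟩
      add_mem' := by
        rintro _ _ ⟨y, hy, hyW, rfl⟩ ⟨z, hz, hzW, rfl⟩
        exact ⟨y + z, add_mem hy hz, add_mem hyW hzW, hadd y z hyW hzW⟩
      zero_mem' := ⟨0, zero_mem L', h0W, hcl0⟩
      neg_mem' := by
        rintro _ ⟨y, hy, hyW, rfl⟩
        exact ⟨-y, neg_mem hy, neg_mem hyW, hneg y hyW⟩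
      inv_mem' := by
        rintro _ ⟨y, hy, hyW, rfl⟩
        by_cases h0 : cl y = 0
        · rw [h0, inv_zero]
          exact ⟨0, zero_mem L', h0W, hcl0⟩
        · exact ⟨y⁻¹, inv_mem hy, (hinv y hyW h0).1, (hinv y hyW h0).2⟩ }
  have hF' : ∀ r, r ∈ F' ↔ ∃ y : S.F (L' : Set Ω), (y : Ω) ∈ L' ∧ (y : Ω) ∈ W ∧ cl y = r := fun r => Iff.rfl
  -- the element `u`
  have httL : tt k Ω ∈ L' := hL.le (L.algebraMap_mem _)
  have httW : tt k Ω ∈ W := by
    rw [hW.mem _ (hL.alg _ httL)]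
    have h1 := hG.poly_le X 1 zero_le_one (by
      intro i
      rw [coeff_X]
      split_ifs
      · rw [map_one, norm_one]
      · rw [map_zero, norm_zero]
        exact zero_le_one)
    rwa [aeval_X] at h1
  let u : S.F (L' : Set Ω) := ⟨tt k Ω, hLF _ httL⟩
  have huW : (u : Ω) ∈ W := httW
  -- the hypotheses of the algebra lemma
  have hFF : ∀ x ∈ F', ∃ c : ℕ → R, (∀ i, c i ∈ F') ∧ x = ∑ i ∈ Finset.range p, cl u ^ i * c i ^ p := by
    rintro _ ⟨y, hy, hyW, rfl⟩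
    obtain ⟨c, hc, hlt⟩ := sepg hG hL (y : Ω) hy ((hW.mem _ (hL.alg _ hy)).1 hyW)
    have hcW : ∀ i, c i ∈ W := fun i => (hW.mem _ (hL.alg _ (hc i).1)).2 (hc i).2
    let c' : ℕ → S.F (L' : Set Ω) := fun i => ⟨c i, hLF _ (hc i).1⟩
    have hc'W : ∀ i, ((c' i : S.F (L' : Set Ω)) : Ω) ∈ W := hcW
    refine ⟨fun i => cl (c' i), fun i => ⟨c' i, (hc i).1, hcW i, rfl⟩, ?_⟩
    have hg : ∀ i, ((u ^ i * c' i ^ p : S.F (L' : Set Ω)) : Ω) ∈ W := fun i =>
      mul_mem (pow_mem huW i) (pow_mem (hc'W i) p)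
    obtain ⟨h1, h2⟩ := hsum (Finset.range p) (fun i => u ^ i * c' i ^ p) hg
    have h3 : cl (∑ i ∈ Finset.range p, u ^ i * c' i ^ p) = ∑ i ∈ Finset.range p, cl u ^ i * cl (c' i) ^ p := by
      rw [h2]
      refine Finset.sum_congr rfl fun i _ => ?_
      rw [hmul _ _ (pow_mem huW i) (pow_mem (hc'W i) p), hpow u huW, hpow _ (hc'W i)]
    rw [← h3, heq _ _ hyW h1]
    have h4 : ((∑ i ∈ Finset.range p, u ^ i * c' i ^ p : S.F (L' : Set Ω)) : Ω)
        = ∑ i ∈ Finset.range p, tt k Ω ^ i * c i ^ p := by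
      rw [AddSubmonoidClass.coe_finsetSum]
      rfl
    rw [h4]
    have hsL : ∑ i ∈ Finset.range p, tt k Ω ^ i * c i ^ p ∈ L' :=
      sum_mem fun i _ => mul_mem (pow_mem httL i) (pow_mem (hc i).1 p)
    exact (hvlt _ (hL.alg _ (sub_mem hy hsL))).2 hlt
  have hu : ¬ ∃ w : R, cl u = w ^ p := by
    rintro ⟨w, hw⟩
    obtain ⟨b, hb, rfl⟩ := hsur w
    apply no_rootg hp2 hG S W hW L' hL
    refine ⟨(b : Ω), b.2, ?_⟩
    rw [← hpow b hb, eq_comm, heq _ _ (pow_mem hb p) huW] at hw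
    exact hw
  -- the uniformiser
  obtain ⟨π, hπ, hπ0, hπ1, hun⟩ := unifg (κ := κ) hG hL
  have hπa : IsAlgebraic κ π := hL.alg _ hπ
  have hdec : ∀ z : S.F (L' : Set Ω), W.valuation (z : Ω) = 1 → ∃ c ∈ L', W.valuation c = 1 ∧ ∃ (n : ℤ) (w : Ω),
      w ∈ S.F (L' : Set Ω) ∧ w ≠ 0 ∧ (z : Ω) = c * (π ^ n * w ^ p) := by
    intro z hz
    have hz0 : (z : Ω) ≠ 0 := by
      intro h
      rw [h, map_zero] at hz
      exact zero_ne_one hz
    obtain ⟨c, hc, hc0, w, hw, hw0, hzw⟩ := kp S p hp (L' : Set Ω) hL.alg (z : Ω) z.2 hz0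
    rw [IntermediateField.adjoin_self] at hc
    obtain ⟨n, hn⟩ := hun c hc hc0
    refine ⟨c * π ^ (-n), mul_mem hc (zpow_mem hπ _), ?_, n, w, hw, hw0, ?_⟩
    · apply hv1 _ (hL.alg _ (mul_mem hc (zpow_mem hπ _)))
      rw [hnmul _ _ (hL.alg _ hc) (hL.alg _ (zpow_mem hπ _)), hnzpow _ hπa hπ0, hn, ← zpow_add₀ (hnpos _ hπa hπ0).ne']
      rw [add_neg_cancel, zpow_zero]
    · rw [hzw, mul_assoc c, ← mul_assoc (π ^ (-n)), ← zpow_add₀ hπ0, neg_add_cancel, zpow_zero, one_mul]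
  have hroot : ∀ y : Ω, W.valuation (y ^ p) = 1 → W.valuation y = 1 := by
    intro y hy
    rw [map_pow] at hy
    exact (pow_eq_one_iff_of_nonneg zero_le hp.ne_zero).1 hy
  have hπF : π ∈ S.F (L' : Set Ω) := hLF _ hπ
  obtain ⟨ε, h⟩ : ∃ ε : R, ∀ x : R, x ≠ 0 → ∃ (j : ℕ), ∃ f ∈ F', ∃ y : R, x = ε ^ j * f * y ^ p := by
    by_cases hcase : ∃ (n₁ : ℤ) (w₁ : Ω), w₁ ∈ S.F (L' : Set Ω) ∧ w₁ ≠ 0 ∧ ¬ (p : ℤ) ∣ n₁ ∧ W.valuation (π ^ n₁ * w₁ ^ p) = 1
    · obtain ⟨n₁, w₁, hw₁, hw₁0, hn₁, hv⟩ := hcase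
      obtain ⟨s, r, hrs⟩ : IsCoprime (p : ℤ) n₁ := ((Nat.prime_iff_prime_int.1 hp).coprime_iff_not_dvd).2 hn₁
      have hbF : π ^ n₁ * w₁ ^ p ∈ S.F (L' : Set Ω) := mul_mem (zpow_mem hπF _) (pow_mem hw₁ _)
      have hb0 : π ^ n₁ * w₁ ^ p ≠ 0 := mul_ne_zero (zpow_ne_zero _ hπ0) (pow_ne_zero _ hw₁0)
      set e : Ω := (π ^ n₁ * w₁ ^ p) ^ r with he
      have heF : e ∈ S.F (L' : Set Ω) := zpow_mem hbF _
      have he0 : e ≠ 0 := zpow_ne_zero _ hb0
      have hev : W.valuation e = 1 := by rw [he, map_zpow₀, hv, one_zpow]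
      have heW : e ∈ W := (W.valuation_le_one_iff _).1 hev.le
      set ρ : Ω := w₁ ^ (-r) * π ^ s with hρ
      have hρF : ρ ∈ S.F (L' : Set Ω) := mul_mem (zpow_mem hw₁ _) (zpow_mem hπF _)
      have hρ0 : ρ ≠ 0 := mul_ne_zero (zpow_ne_zero _ hw₁0) (zpow_ne_zero _ hπ0)
      have hπe : π = e * ρ ^ p := by
        have h1 : e = π ^ (n₁ * r) * w₁ ^ ((p : ℤ) * r) := by
          rw [he, mul_zpow, ← zpow_mul, ← zpow_natCast w₁ p, ← zpow_mul]
        have h2 : ρ ^ p = w₁ ^ (-r * (p : ℤ)) * π ^ (s * (p : ℤ)) := by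
          rw [hρ, mul_pow, ← zpow_natCast, ← zpow_mul, ← zpow_natCast, ← zpow_mul]
        rw [h1, h2]
        have h3 : π ^ (n₁ * r) * w₁ ^ ((p : ℤ) * r) * (w₁ ^ (-r * (p : ℤ)) * π ^ (s * (p : ℤ)))
            = (π ^ (n₁ * r) * π ^ (s * (p : ℤ))) * (w₁ ^ ((p : ℤ) * r) * w₁ ^ (-r * (p : ℤ))) := by ring
        rw [h3, ← zpow_add₀ hπ0, ← zpow_add₀ hw₁0]
        rw [show n₁ * r + s * (p : ℤ) = 1 by rw [← hrs]; ring, show (p : ℤ) * r + -r * (p : ℤ) = 0 by ring]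
        rw [zpow_one, zpow_zero, mul_one]
      refine ⟨cl ⟨e, heF⟩, fun x hx => ?_⟩
      obtain ⟨z, hzW, rfl⟩ := hsur x
      have hzv : W.valuation (z : Ω) = 1 := by
        apply le_antisymm ((W.valuation_le_one_iff _).2 hzW)
        exact not_lt.1 fun h => hx ((hzero z hzW).2 h)
      obtain ⟨c, hc, hcv, n, w, hw, hw0, hzw⟩ := hdec z hzv
      have hcW : c ∈ W := (W.valuation_le_one_iff _).1 hcv.le
      have hj0 : (0 : ℤ) ≤ n % p := Int.emod_nonneg _ (by exact_mod_cast hp.ne_zero)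
      set j : ℕ := (n % p).toNat with hj
      have hnj : n = (j : ℤ) + (n / p) * p := by
        rw [hj, Int.toNat_of_nonneg hj0, mul_comm (n / p)]
        exact (Int.emod_add_mul_ediv n p).symm
      set y : Ω := e ^ (n / p) * ρ ^ n * w with hy
      have hyF : y ∈ S.F (L' : Set Ω) := mul_mem (mul_mem (zpow_mem heF _) (zpow_mem hρF _)) hw
      have hzy : (z : Ω) = e ^ j * c * y ^ p := by
        have h1 : π ^ n = e ^ j * (e ^ (n / p)) ^ p * (ρ ^ n) ^ p := by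
          have h2 : (ρ ^ p) ^ n = (ρ ^ n) ^ p := by
            rw [← zpow_natCast (ρ ^ n) p, ← zpow_natCast ρ p, ← zpow_mul, ← zpow_mul, mul_comm]
          have h3 : e ^ n = e ^ j * (e ^ (n / p)) ^ p := by
            conv_lhs => rw [hnj]
            rw [zpow_add₀ he0, zpow_natCast, zpow_mul, zpow_natCast]
          have h4 : π ^ n = (e * ρ ^ p) ^ n := congrArg (fun t => t ^ n) hπe
          rw [h4, mul_zpow, h2, h3]
        rw [hzw, h1, hy]
        ring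
      have hyv : W.valuation y = 1 := by
        apply hroot
        have h1 := congrArg W.valuation hzy
        rw [hzv, map_mul, map_mul, map_pow, hev, hcv, one_pow, one_mul, one_mul] at h1
        exact h1.symm
      have hyW : y ∈ W := (W.valuation_le_one_iff _).1 hyv.le
      refine ⟨j, cl ⟨c, hLF _ hc⟩, ⟨⟨c, hLF _ hc⟩, hc, hcW, rfl⟩, cl ⟨y, hyF⟩, ?_⟩
      have hz' : z = (⟨e, heF⟩ : S.F (L' : Set Ω)) ^ j * ⟨c, hLF _ hc⟩ * (⟨y, hyF⟩ : S.F (L' : Set Ω)) ^ p := Subtype.ext hzy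
      have heW' : (((⟨e, heF⟩ : S.F (L' : Set Ω)) : Ω)) ∈ W := heW
      have hcW' : (((⟨c, hLF _ hc⟩ : S.F (L' : Set Ω)) : Ω)) ∈ W := hcW
      have hyW' : (((⟨y, hyF⟩ : S.F (L' : Set Ω)) : Ω)) ∈ W := hyW
      rw [hz', hmul _ _ (mul_mem (pow_mem heW' j) hcW') (pow_mem hyW' p), hmul _ _ (pow_mem heW' j) hcW', hpow _ heW', hpow _ hyW']
    · refine ⟨1, fun x hx => ?_⟩
      obtain ⟨z, hzW, rfl⟩ := hsur x
      have hzv : W.valuation (z : Ω) = 1 := by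
        apply le_antisymm ((W.valuation_le_one_iff _).2 hzW)
        exact not_lt.1 fun h => hx ((hzero z hzW).2 h)
      obtain ⟨c, hc, hcv, n, w, hw, hw0, hzw⟩ := hdec z hzv
      have hcW : c ∈ W := (W.valuation_le_one_iff _).1 hcv.le
      have hnv : W.valuation (π ^ n * w ^ p) = 1 := by
        have h1 := congrArg W.valuation hzw
        rw [hzv, map_mul, hcv, one_mul] at h1
        exact h1.symm
      obtain ⟨m, hm⟩ : (p : ℤ) ∣ n := by
        by_contra hcon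
        exact hcase ⟨n, w, hw, hw0, hcon, hnv⟩
      set y : Ω := π ^ m * w with hy
      have hyF : y ∈ S.F (L' : Set Ω) := mul_mem (zpow_mem hπF _) hw
      have hyp : π ^ n * w ^ p = y ^ p := by
        rw [hy, mul_pow, hm, mul_comm (p : ℤ) m, zpow_mul, zpow_natCast]
      have hyv : W.valuation y = 1 := by
        apply hroot
        rw [← hyp]
        exact hnv
      have hyW : y ∈ W := (W.valuation_le_one_iff _).1 hyv.le
      refine ⟨0, cl ⟨c, hLF _ hc⟩, ⟨⟨c, hLF _ hc⟩, hc, hcW, rfl⟩, cl ⟨y, hyF⟩, ?_⟩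
      have hz' : z = (⟨c, hLF _ hc⟩ : S.F (L' : Set Ω)) * (⟨y, hyF⟩ : S.F (L' : Set Ω)) ^ p :=
        Subtype.ext (by rw [hzw, hyp]; rfl)
      have hcW' : (((⟨c, hLF _ hc⟩ : S.F (L' : Set Ω)) : Ω)) ∈ W := hcW
      have hyW' : (((⟨y, hyF⟩ : S.F (L' : Set Ω)) : Ω)) ∈ W := hyW
      rw [pow_zero, one_mul, hz', hmul _ _ hcW' (pow_mem hyW' p), hpow _ hyW']
  have hall := va_alg p F' (cl u) ⟨u, httL, huW, rfl⟩ hFF hu ε h
  obtain ⟨y, hy, hyW, hyx⟩ := hall (cl ⟨x, hx⟩)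
  refine ⟨(y : Ω), hy, ?_⟩
  exact (heq ⟨x, hx⟩ y hxW hyW).1 hyx.symm

end BSC
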