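import Pool.Agent.Lib_MP_49ddc8_l.LDefs
import Pool.Agent.Lib_MP_49ddc8_g.LW

/-!
# [L-GW] The valuation ring `W`

From `exists_W_gen` (Lib_MP_49ddc8_g/LW.lean).
-/

set_option autoImplicit false

open Polynomial

namespace BSC

variable {k κ Ω : Type} [Field k] [CharZero k] [Field κ] [CharZero κ] [Field Ω] [IsAlgClosed Ω] [Algebra k Ω] [Algebra (RatFunc k) Ω]
  [IsScalarTower k (RatFunc k) Ω] [Algebra κ Ω] [Algebra (RatFunc k) κ] [IsScalarTower (RatFunc k) κ Ω]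
  [FiniteDimensional (RatFunc k) κ] {p : ℕ} [Fact p.Prime] {σ : k →+* ℚ_[p]} {L : IntermediateField (RatFunc k) Ω} {nm : Ω → ℝ}

theorem exists_GW (hp2 : p ≠ 2) (hG : GN p σ L nm) (S : Sec κ Ω) : ∃ W : ValuationSubring Ω, GW S L nm W := by
  obtain ⟨W, h1, h2⟩ := exists_W_gen hp2 hG S
  exact ⟨W, h1, h2⟩

end BSC
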