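import Pool.Agent.Lib_MP_49ddc8_l.LEm
import Pool.Agent.Lib_MP_49ddc8_l.LGw
import Pool.Agent.Lib_MP_49ddc8_l.LFu
import Pool.Agent.Lib_MP_49ddc8_l.LDe
import Pool.Agent.Lib_MP_49ddc8_v.VCa

/-!
# [L-FA] The family of places

`T = Finset Ω × ℕ`, `U` an ultrafilter finer than `Filter.atTop`.  For `(B, N)` let `k'` be generated over `k` by the elements of `B` algebraic over `k`; `k'` is finitely generated over `ℚ` (`level_fg` in Lib_MP_49ddc8/Gen.lean); `cassels` for `k'`, the nonzero elements of `B` in `k'`, and `max N 2`: `p`, `σ'`; `exists_GN'`, `exists_GW`; `res`: `lext_adjoin`, `resg`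
(`S.F A ≤ S.F (L A)` by `F_mono`).  `const`: `c ∈ B`: `c ∈ k' ⊆ L`, `nm c = ‖σ' c‖ = 1`, an integer `r` with `‖σ' c - r‖ < 1` (density of `ℤ` in `ℤ_p`).
`unit`: `z` is algebraic over `k(u)`: `∑ f_i z ^ i = 0`, `f_i ∈ k[X]`, `f_0 ≠ 0`, `f_n ≠ 0`; for almost all members all nonzero coefficients of all `f_i` are units, so `nm (f_i(u)) ∈ {0, 1}`, `nm (f_n(u)) = nm (f_0(u)) = 1`: `nm z > 1` and `nm z < 1` are impossible (ultrametric inequality).
-/

set_option autoImplicit false

open Polynomial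

namespace BSC

variable {k κ Ω : Type} [Field k] [CharZero k] [Field κ] [CharZero κ] [Field Ω] [IsAlgClosed Ω] [Algebra k Ω] [Algebra (RatFunc k) Ω]
  [IsScalarTower k (RatFunc k) Ω] [Algebra κ Ω] [Algebra (RatFunc k) κ] [IsScalarTower (RatFunc k) κ Ω]
  [FiniteDimensional (RatFunc k) κ]

private instance lfa_fact (S : Sec κ Ω) (g : GTri (k := k) S) : Fact g.p.Prime := g.hp

omit [CharZero k] [CharZero κ] [IsAlgClosed Ω] [Algebra κ Ω] [Algebra (RatFunc k) κ] [IsScalarTower (RatFunc k) κ Ω]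
  [FiniteDimensional (RatFunc k) κ] [Field κ] in
private theorem lfa_tt (f : k[X]) :
    aeval (tt k Ω) f = algebraMap (RatFunc k) Ω (algebraMap k[X] (RatFunc k) f) := by
  rw [← RatFunc.aeval_X_left_eq_algebraMap, tt, aeval_algebraMap_apply]

private theorem lfa_padic {p : ℕ} [Fact p.Prime] (x : ℚ_[p]) (hx : ‖x‖ ≤ 1) : ∃ r : ℤ, ‖x - (r : ℚ_[p])‖ < 1 := by
  obtain ⟨y, hy⟩ : ∃ y : ℤ_[p], (y : ℚ_[p]) = x := ⟨⟨x, hx⟩, rfl⟩
  obtain ⟨n, -, hn⟩ := PadicInt.exists_mem_range y
  rw [IsLocalRing.mem_maximalIdeal, PadicInt.mem_nonunits, PadicInt.norm_def] at hn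
  refine ⟨n, ?_⟩
  rw [PadicInt.coe_sub, PadicInt.coe_natCast, hy] at hn
  rw [Int.cast_natCast]
  exact hn

/-- one member of the family -/
private theorem lfa_exists (hk : (⊤ : IntermediateField ℚ k).FG) (S : Sec κ Ω) (B : Finset Ω) (N : ℕ) :
    ∃ g : GTri (k := k) S, N < g.p ∧
      (∀ c ∈ B, IsAlgebraic k c → c ≠ 0 → c ∈ g.L ∧ g.nm c = 1 ∧ ∃ r : ℤ, g.nm (c - (r : Ω)) < 1) ∧
      ∀ a : k, a ≠ 0 → algebraMap k Ω a ∈ B → ‖g.σ a‖ = 1 := by
  classical
  obtain ⟨k', hk'⟩ : ∃ k' : IntermediateField k Ω, k' = IntermediateField.adjoin k {x | x ∈ B ∧ IsAlgebraic k x} :=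
    ⟨_, rfl⟩
  have hfin : FiniteDimensional k k' := by
    rw [hk']
    have hf : {x | x ∈ B ∧ IsAlgebraic k x}.Finite := B.finite_toSet.subset fun x hx => hx.1
    have := hf.to_subtype
    exact IntermediateField.finiteDimensional_adjoin fun x hx => hx.2.isIntegral
  have hmem : ∀ c ∈ B, IsAlgebraic k c → c ∈ k' := by
    intro c hc hc1
    rw [hk']
    exact IntermediateField.subset_adjoin k _ ⟨hc, hc1⟩
  have : CharZero k' := charZero_of_injective_algebraMap (algebraMap k k').injective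
  have hfg : (⊤ : IntermediateField ℚ k').FG := by
    rw [IntermediateField.fg_top_iff] at hk ⊢
    exact Algebra.EssFiniteType.comp ℚ k k'
  obtain ⟨B', hB'⟩ : ∃ B' : Finset k', B' = (B.preimage (fun c : k' => (c : Ω)) Subtype.val_injective.injOn).erase 0 :=
    ⟨_, rfl⟩
  have hB'm : ∀ c : k', c ∈ B' ↔ c ≠ 0 ∧ (c : Ω) ∈ B := by
    intro c
    rw [hB', Finset.mem_erase, Finset.mem_preimage]
  obtain ⟨p, hp, hpN, σ', hσ'⟩ := cassels k' hfg B' (fun h => ((hB'm 0).1 h).1 rfl) (max N 2)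
  have := hp
  obtain ⟨L, nm, hG, hL, hnm⟩ := exists_GN' (Ω := Ω) k' hfin σ'
  have hp2 : p ≠ 2 := by
    have := lt_of_le_of_lt (le_max_right N 2) hpN
    omega
  obtain ⟨W, hW⟩ := exists_GW hp2 hG S
  refine ⟨{ p := p, hp := hp, odd := hp2, σ := σ'.comp (algebraMap k k'), L := L, nm := nm, W := W, gn := hG, gw := hW, res := ?_ },
    lt_of_le_of_lt (le_max_left N 2) hpN, ?_, ?_⟩
  · intro A hA hlt x hx hxW
    have hE := lext_adjoin hG A hA hlt
    refine resg hp2 hG S W hW _ hE x (S.F_mono ?_ hx) hxW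
    intro y hy
    exact IntermediateField.subset_adjoin κ _ (Or.inr hy)
  · intro c hc hca hc0
    have hc' := hmem c hc hca
    have h1 : ‖σ' ⟨c, hc'⟩‖ = 1 := by
      apply hσ'
      rw [hB'm]
      refine ⟨fun h => hc0 ?_, hc⟩
      exact congrArg Subtype.val h
    have h2 : nm c = 1 := by
      have := hnm ⟨c, hc'⟩
      rw [h1] at this
      exact this
    refine ⟨hL c hc', h2, ?_⟩
    obtain ⟨r, hr⟩ := lfa_padic (σ' ⟨c, hc'⟩) h1.le
    refine ⟨r, ?_⟩
    have h3 := hnm (⟨c, hc'⟩ - (r : k'))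
    rw [map_sub, map_intCast] at h3
    have h4 : (((⟨c, hc'⟩ : k') - (r : k') : k') : Ω) = c - (r : Ω) := by
      push_cast
      rfl
    rw [h4] at h3
    show nm (c - (r : Ω)) < 1
    rw [h3]
    exact hr
  · intro a ha0 haB
    show ‖σ' (algebraMap k k' a)‖ = 1
    apply hσ'
    rw [hB'm]
    refine ⟨fun h => ha0 ((algebraMap k k').injective (h.trans (map_zero _).symm)), haB⟩

section LFaNorm

variable {p : ℕ} [Fact p.Prime] {σ : k →+* ℚ_[p]} {L : IntermediateField (RatFunc k) Ω} {nm : Ω → ℝ}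

omit [CharZero k] [IsAlgClosed Ω] [IsScalarTower k (RatFunc k) Ω] in
private theorem lfa_one (hG : GN p σ L nm) : nm 1 = 1 := by
  have ha : IsAlgebraic (RatFunc k) (1 : Ω) := isAlgebraic_one
  have h1 := hG.mul 1 1 ha ha
  rw [mul_one] at h1
  have h2 := hG.pos 1 ha one_ne_zero
  have h3 : nm 1 * (nm 1 - 1) = 0 := by linarith
  rcases mul_eq_zero.1 h3 with h | h
  · exact absurd h h2.ne'
  · linarith

omit [CharZero k] [IsAlgClosed Ω] [IsScalarTower k (RatFunc k) Ω] in
private theorem lfa_neg (hG : GN p σ L nm) (x : Ω) (hx : IsAlgebraic (RatFunc k) x) : nm (-x) = nm x := by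
  have ha : IsAlgebraic (RatFunc k) (-1 : Ω) := isAlgebraic_one.neg
  have h1 := hG.mul (-1) (-1) ha ha
  rw [show (-1 : Ω) * (-1) = 1 by ring, lfa_one hG] at h1
  have h2 := hG.pos (-1) ha (by
    rw [Ne, neg_eq_zero]
    exact one_ne_zero)
  have h3 : nm (-1) = 1 := by nlinarith
  have h4 := hG.mul (-1) x ha hx
  rw [h3, one_mul, neg_one_mul] at h4
  exact h4

omit [CharZero k] [IsAlgClosed Ω] [IsScalarTower k (RatFunc k) Ω] in
private theorem lfa_nonneg (hG : GN p σ L nm) (x : Ω) (hx : IsAlgebraic (RatFunc k) x) : 0 ≤ nm x := by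
  by_cases h : x = 0
  · rw [h, hG.zero]
  · exact (hG.pos x hx h).le

omit [CharZero k] [IsAlgClosed Ω] [IsScalarTower k (RatFunc k) Ω] in
private theorem lfa_pow (hG : GN p σ L nm) (x : Ω) (hx : IsAlgebraic (RatFunc k) x) (n : ℕ) : nm (x ^ n) = nm x ^ n := by
  induction n with
  | zero => rw [pow_zero, pow_zero, lfa_one hG]
  | succ n ih => rw [pow_succ, pow_succ, hG.mul _ _ (hx.pow n) hx, ih]

omit [CharZero k] [IsAlgClosed Ω] [IsScalarTower k (RatFunc k) Ω] in
private theorem lfa_sum (hG : GN p σ L nm) (f : ℕ → Ω) (s : Finset ℕ) (c : ℝ) (hc : 0 ≤ c)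
    (ha : ∀ i ∈ s, IsAlgebraic (RatFunc k) (f i)) (hf : ∀ i ∈ s, nm (f i) ≤ c) :
    IsAlgebraic (RatFunc k) (∑ i ∈ s, f i) ∧ nm (∑ i ∈ s, f i) ≤ c := by
  classical
  induction s using Finset.induction_on with
  | empty =>
    rw [Finset.sum_empty]
    exact ⟨isAlgebraic_zero, by rw [hG.zero]; exact hc⟩
  | insert a s has ih =>
    obtain ⟨h1, h2⟩ := ih (fun i hi => ha i (Finset.mem_insert_of_mem hi)) (fun i hi => hf i (Finset.mem_insert_of_mem hi))
    rw [Finset.sum_insert has]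
    have h3 := ha a (Finset.mem_insert_self a s)
    exact ⟨h3.add h1, (hG.add _ _ h3 h1).trans (max_le (hf a (Finset.mem_insert_self a s)) h2)⟩

omit [CharZero k] [IsAlgClosed Ω] [IsScalarTower k (RatFunc k) Ω] in
/-- integral elements have norm at most one -/
private theorem lfa_le (hG : GN p σ L nm) (z : Ω) (hz : IsAlgebraic (RatFunc k) z)
    (hc : ∀ i, nm (algebraMap (RatFunc k) Ω ((minpoly (RatFunc k) z).coeff i)) ≤ 1) : nm z ≤ 1 := by
  by_contra hcon
  push Not at hcon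
  have hzi : IsIntegral (RatFunc k) z := hz.isIntegral
  obtain ⟨n, hn⟩ : ∃ n, n = (minpoly (RatFunc k) z).natDegree := ⟨_, rfl⟩
  have hn0 : 0 < n := by
    rw [hn]
    exact minpoly.natDegree_pos hzi
  have h1 := minpoly.aeval (RatFunc k) z
  rw [aeval_eq_sum_range, ← hn, Finset.sum_range_succ] at h1
  have hlc : (minpoly (RatFunc k) z).coeff n = 1 := by
    rw [hn]
    exact minpoly.monic hzi
  rw [hlc, one_smul] at h1
  have h2 : z ^ n = -∑ i ∈ Finset.range n, (minpoly (RatFunc k) z).coeff i • z ^ i := by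
    rw [eq_neg_iff_add_eq_zero, add_comm]
    exact h1
  have h3 := lfa_sum hG (fun i => (minpoly (RatFunc k) z).coeff i • z ^ i) (Finset.range n) (nm z ^ (n - 1))
    (pow_nonneg (by linarith) _) (fun i _ => by
      rw [Algebra.smul_def]
      exact (isAlgebraic_algebraMap _).mul (hz.pow i)) (fun i hi => by
      show nm ((minpoly (RatFunc k) z).coeff i • z ^ i) ≤ _
      rw [Algebra.smul_def, hG.mul _ _ (isAlgebraic_algebraMap _) (hz.pow i), lfa_pow hG z hz]
      have h4 : nm z ^ i ≤ nm z ^ (n - 1) := by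
        apply pow_le_pow_right₀ hcon.le
        have := Finset.mem_range.1 hi
        omega
      calc nm (algebraMap (RatFunc k) Ω ((minpoly (RatFunc k) z).coeff i)) * nm z ^ i ≤ 1 * nm z ^ i :=
            mul_le_mul_of_nonneg_right (hc i) (pow_nonneg (by linarith) _)
        _ = nm z ^ i := one_mul _
        _ ≤ nm z ^ (n - 1) := h4)
  have h5 := congrArg nm h2
  rw [lfa_neg hG _ h3.1, lfa_pow hG z hz] at h5
  have h6 : nm z ^ (n - 1) < nm z ^ n := pow_lt_pow_right₀ hcon (by omega)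
  have h7 := h3.2
  rw [← h5] at h7
  exact absurd h7 (not_le.2 h6)

end LFaNorm

theorem exists_gfam (hk : (⊤ : IntermediateField ℚ k).FG) (S : Sec κ Ω) : Nonempty (GFam (k := k) S) := by
  classical
  choose tri htri using fun t : Finset Ω × ℕ => lfa_exists hk S t.1 t.2
  obtain ⟨U, hU⟩ : ∃ U : Ultrafilter (Finset Ω × ℕ), (U : Filter (Finset Ω × ℕ)) ≤ Filter.atTop :=
    ⟨Ultrafilter.of Filter.atTop, Ultrafilter.of_le _⟩
  have hB : ∀ B : Finset Ω, ∀ᶠ t in (U : Filter (Finset Ω × ℕ)), B ⊆ t.1 := by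
    intro B
    refine hU ?_
    filter_upwards [Filter.eventually_ge_atTop ((B, 0) : Finset Ω × ℕ)] with t ht
    exact ht.1
  have hN : ∀ N : ℕ, ∀ᶠ t in (U : Filter (Finset Ω × ℕ)), N ≤ t.2 := by
    intro N
    refine hU ?_
    filter_upwards [Filter.eventually_ge_atTop (((∅ : Finset Ω), N) : Finset Ω × ℕ)] with t ht
    exact ht.2
  -- polynomials
  have hpol : ∀ f : k[X], f ≠ 0 → ∀ᶠ t in (U : Filter (Finset Ω × ℕ)), (tri t).nm (aeval (tt k Ω) f) = 1 := by
    intro f hf
    filter_upwards [hB (f.support.image fun i => algebraMap k Ω (f.coeff i))] with t ht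
    have h1 : ∀ i, f.coeff i ≠ 0 → ‖(tri t).σ (f.coeff i)‖ = 1 := by
      intro i hi
      refine (htri t).2.2 _ hi (ht ?_)
      exact Finset.mem_image.2 ⟨i, mem_support_iff.2 hi, rfl⟩
    refine le_antisymm ((tri t).gn.poly_le f 1 zero_le_one fun i => ?_) ?_
    · by_cases hi : f.coeff i = 0
      · rw [hi, map_zero, norm_zero]
        exact zero_le_one
      · exact (h1 i hi).le
    · have h2 := (tri t).gn.poly_ge f f.natDegree
      rw [h1 _ (by
        rw [coeff_natDegree]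
        exact leadingCoeff_ne_zero.2 hf)] at h2
      exact h2
  -- rational functions
  have hrat : ∀ r : RatFunc k, ∀ᶠ t in (U : Filter (Finset Ω × ℕ)), (tri t).nm (algebraMap (RatFunc k) Ω r) ≤ 1 := by
    intro r
    by_cases hr : r = 0
    · refine Filter.Eventually.of_forall fun t => ?_
      rw [hr, map_zero, (tri t).gn.zero]
      exact zero_le_one
    · filter_upwards [hpol r.num (RatFunc.num_ne_zero hr), hpol r.denom r.denom_ne_zero] with t h1 h2
      have h3 : algebraMap (RatFunc k) Ω r * aeval (tt k Ω) r.denom = aeval (tt k Ω) r.num := by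
        rw [lfa_tt, lfa_tt, ← map_mul]
        congr 1
        have h4 := RatFunc.num_div_denom r
        have h5 : algebraMap k[X] (RatFunc k) r.denom ≠ 0 := by
          rw [Ne, map_eq_zero_iff _ (RatFunc.algebraMap_injective k)]
          exact r.denom_ne_zero
        rw [div_eq_iff h5] at h4
        exact h4.symm
      have h6 := (tri t).gn.mul (algebraMap (RatFunc k) Ω r) (aeval (tt k Ω) r.denom) (isAlgebraic_algebraMap _) (by
        rw [lfa_tt]
        exact isAlgebraic_algebraMap _)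
      rw [h3, h1, h2, mul_one] at h6
      exact h6.symm.le
  -- algebraic elements
  have halg : ∀ z : Ω, IsAlgebraic (RatFunc k) z → ∀ᶠ t in (U : Filter (Finset Ω × ℕ)), (tri t).nm z ≤ 1 := by
    intro z hz
    have h1 : ∀ᶠ t in (U : Filter (Finset Ω × ℕ)), ∀ i ∈ (minpoly (RatFunc k) z).support,
        (tri t).nm (algebraMap (RatFunc k) Ω ((minpoly (RatFunc k) z).coeff i)) ≤ 1 :=
      (Filter.eventually_all_finset _).2 fun i _ => hrat _
    filter_upwards [h1] with t ht
    refine lfa_le (tri t).gn z hz fun i => ?_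
    by_cases hi : (minpoly (RatFunc k) z).coeff i = 0
    · rw [hi, map_zero, (tri t).gn.zero]
      exact zero_le_one
    · exact ht i (mem_support_iff.2 hi)
  refine ⟨{ T := Finset Ω × ℕ, U := U, tri := tri, big := ?_, const := ?_, unit := ?_ }⟩
  · intro N
    filter_upwards [hN N] with t ht
    exact lt_of_le_of_lt ht (htri t).1
  · intro c hc hc0
    filter_upwards [hB {c}] with t ht
    exact (htri t).2.1 c (ht (Finset.mem_singleton_self c)) hc hc0
  · intro z hz hz0
    have hz' : IsAlgebraic (RatFunc k) z := (alg_iff z).1 hz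
    have hzi : IsAlgebraic (RatFunc k) z⁻¹ := hz'.inv
    filter_upwards [halg z hz', halg z⁻¹ hzi] with t h1 h2
    have h3 := (tri t).gn.mul z z⁻¹ hz' hzi
    rw [mul_inv_cancel₀ hz0, lfa_one (tri t).gn] at h3
    refine le_antisymm h1 ?_
    have h4 := lfa_nonneg (tri t).gn z hz'
    nlinarith

end BSC
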