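import Pool.Agent.Lib_MP_49ddc8.Wrap

/-!
# From an invariant valuation ring to the place which defines the section (finitely generated base field)
-/

set_option autoImplicit false

open Polynomial

namespace BSC

/-- if `κ` is finitely generated over `ℚ` and there is a valuation ring of `Ω` which contains the algebraic closure of `κ`, is not trivial
and is invariant under the image of the section, then the section is defined by exactly one `κ`-rational place -/
theorem bsc_of_U2 (κ : Type) [Field κ] [CharZero κ] (hκ : (⊤ : IntermediateField ℚ κ).FG) (K : Type) [Field K] [Algebra κ K]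
    (htd : ∃ t : K, Transcendental κ t ∧ Algebra.IsAlgebraic (IntermediateField.adjoin κ {t}) K)
    (s : ((algebraicClosure κ (AlgebraicClosure K)) ≃ₐ[κ] (algebraicClosure κ (AlgebraicClosure K))) →*
      (AlgebraicClosure K ≃ₐ[K] AlgebraicClosure K)) (hs : Continuous s)
    (hres : ∀ (τ : (algebraicClosure κ (AlgebraicClosure K)) ≃ₐ[κ] (algebraicClosure κ (AlgebraicClosure K)))
      (x : algebraicClosure κ (AlgebraicClosure K)),
        s τ (x : AlgebraicClosure K) = ((τ x : algebraicClosure κ (AlgebraicClosure K)) : AlgebraicClosure K))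
    (hU : ∀ S : Sec κ (AlgebraicClosure K), (∀ c : K, algebraMap K (AlgebraicClosure K) c ∈ S.F ∅) →
      Dep κ (AlgebraicClosure K) →
      ∃ U : ValuationSubring (AlgebraicClosure K), (∀ z : AlgebraicClosure K, IsAlgebraic κ z → z ∈ U) ∧
      (∃ ξ : AlgebraicClosure K, ξ ≠ 0 ∧ U.valuation ξ < 1) ∧
        ∀ (τ : algebraicClosure κ (AlgebraicClosure K) ≃ₐ[κ] algebraicClosure κ (AlgebraicClosure K))
          (z : AlgebraicClosure K), S.s τ z ∈ U ↔ z ∈ U) :
    ∃! O : ValuationSubring K,
      ((∀ c : κ, algebraMap κ K c ∈ O) ∧ O ≠ ⊤ ∧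
        ∀ x ∈ O, ∃ c : κ, x - algebraMap κ K c = 0 ∨ (x - algebraMap κ K c)⁻¹ ∉ O) ∧
      ∃ W : ValuationSubring (AlgebraicClosure K),
        W.comap (algebraMap K (AlgebraicClosure K)) = O ∧
        ∀ τ, ∀ y : AlgebraicClosure K, (s τ y ∈ W ↔ y ∈ W) := by
  obtain ⟨S, hS⟩ := exists_sec κ K s hs hres
  have hK : ∀ τ (c : K), S.s τ (algebraMap K (AlgebraicClosure K) c) = algebraMap K (AlgebraicClosure K) c := by
    intro τ c
    rw [hS]
    exact (s τ).commutes c
  have hdep : Dep κ (AlgebraicClosure K) := dep_of_trdeg κ K htd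
  -- the valuation ring
  obtain ⟨U, halgU, ⟨ξ, hξ0, hξ⟩, hinv⟩ := hU S (fun c τ _ => hK τ c) hdep
  have hresU : ∀ y ∈ U, ∃ ρ : AlgebraicClosure K, IsAlgebraic κ ρ ∧ U.valuation (y - ρ) < 1 := fun y hy =>
    res_alg κ (AlgebraicClosure K) U halgU ξ hξ0 hξ y hy (hdep ξ (m3_tr U halgU ξ hξ0 hξ) y)
  refine ⟨U.comap (algebraMap K (AlgebraicClosure K)), ⟨⟨?_, ?_, ?_⟩, U, rfl, ?_⟩, ?_⟩
  · intro c
    rw [ValuationSubring.mem_comap, ← IsScalarTower.algebraMap_apply]
    exact halgU _ (isAlgebraic_algebraMap c)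
  · intro htop
    have h1 : ∀ c : K, algebraMap K (AlgebraicClosure K) c ∈ U := by
      intro c
      rw [← ValuationSubring.mem_comap, htop]
      exact ValuationSubring.mem_top c
    exact (m3_lt_one U ξ hξ0).1 hξ (m3_int U h1 ξ⁻¹ (Algebra.IsAlgebraic.isAlgebraic _))
  · intro z hz
    obtain ⟨c, hc⟩ := m3_res S U halgU hresU hinv (algebraMap K (AlgebraicClosure K) z) hz (fun τ => hK τ z)
    refine ⟨c, ?_⟩
    by_cases h0 : z - algebraMap κ K c = 0
    · exact Or.inl h0
    · right
      rw [ValuationSubring.mem_comap, map_inv₀, map_sub, ← IsScalarTower.algebraMap_apply]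
      refine (m3_lt_one U _ ?_).1 hc
      rw [IsScalarTower.algebraMap_apply κ K (AlgebraicClosure K), ← map_sub, Ne, map_eq_zero]
      exact h0
  · intro τ y
    rw [← hS]
    exact hinv τ y
  · rintro O' ⟨⟨hO1, hO2, hO3⟩, W, hWO, hW⟩
    have hWκ : ∀ c : κ, algebraMap κ (AlgebraicClosure K) c ∈ W := by
      intro c
      have := hO1 c
      rw [← hWO, ValuationSubring.mem_comap, ← IsScalarTower.algebraMap_apply] at this
      exact this
    have halgW : ∀ z : AlgebraicClosure K, IsAlgebraic κ z → z ∈ W := m3_int W hWκ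
    obtain ⟨v, hv⟩ : ∃ v : K, v ∉ O' := by
      by_contra hcon
      push Not at hcon
      exact hO2 (eq_top_iff.2 fun z _ => hcon z)
    have hv0 : v ≠ 0 := by
      rintro rfl
      exact hv (zero_mem _)
    have hξ'0 : algebraMap K (AlgebraicClosure K) v⁻¹ ≠ 0 := by
      rw [Ne, map_eq_zero]
      exact inv_ne_zero hv0
    have hξ' : W.valuation (algebraMap K (AlgebraicClosure K) v⁻¹) < 1 := by
      rw [m3_lt_one W _ hξ'0, ← map_inv₀, inv_inv, ← ValuationSubring.mem_comap, hWO]
      exact hv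
    have hresW : ∀ y ∈ W, ∃ ρ : AlgebraicClosure K, IsAlgebraic κ ρ ∧ W.valuation (y - ρ) < 1 := fun y hy =>
      res_alg κ (AlgebraicClosure K) W halgW _ hξ'0 hξ' y hy (hdep _ (m3_tr W halgW _ hξ'0 hξ') y)
    obtain ⟨n, hn, -, -⟩ := (arith_fg κ hκ).2
    have hUW : U = W := by
      refine unique_inv κ (AlgebraicClosure K) S ⊥ ?_ (algebraMap κ (AlgebraicClosure K) n)
        (IntermediateField.mem_bot.2 ⟨n, rfl⟩) ?_ U W halgU halgW hresU hresW
        (fun τ _ z => hinv τ z) (fun τ _ z => ?_)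
      · intro x hx
        obtain ⟨r, rfl⟩ := IntermediateField.mem_bot.1 hx
        exact isAlgebraic_algebraMap r
      · rintro ⟨x, hx, hd⟩
        obtain ⟨d, rfl⟩ := IntermediateField.mem_bot.1 hx
        apply hn
        refine ⟨d, (algebraMap κ (AlgebraicClosure K)).injective ?_⟩
        rw [map_pow]
        exact hd
      · rw [hS]
        exact hW τ z
    rw [hUW, hWO]

end BSC
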