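import Pool.Agent.Lib_MP_49ddc8_l.Nsq
import Pool.Agent.Lib_MP_49ddc8.Wrap

/-!
# [St3] Stability under the whole section

`U` contains the algebraic elements, is not trivial and is stable under `S.s τ` for the `τ` fixing the algebraic closure of `k`.  Then it is
stable under all `S.s τ`: the valuation ring `(S.s τ)⁻¹ U` is stable under the same `S.s ρ` (they form a normal subgroup), so it is `U` by
`unique_inv` over `M = adjoin κ {c | IsAlgebraic k c}`.
-/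

set_option autoImplicit false

open Polynomial

namespace BSC

variable {k κ Ω : Type} [Field k] [CharZero k] [Field κ] [CharZero κ] [Field Ω] [IsAlgClosed Ω] [Algebra k Ω] [Algebra (RatFunc k) Ω]
  [IsScalarTower k (RatFunc k) Ω] [Algebra κ Ω] [Algebra (RatFunc k) κ] [IsScalarTower (RatFunc k) κ Ω]
  [FiniteDimensional (RatFunc k) κ]

omit [CharZero k] [CharZero κ] [IsAlgClosed Ω] [FiniteDimensional (RatFunc k) κ] in
/-- `τ` maps the algebraic closure of `k` to itself -/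
theorem st3_const (τ : algebraicClosure κ Ω ≃ₐ[κ] algebraicClosure κ Ω) (x : algebraicClosure κ Ω)
    (hx : IsAlgebraic k (x : Ω)) : IsAlgebraic k ((τ x : algebraicClosure κ Ω) : Ω) := by
  obtain ⟨f, hf0, hf⟩ := hx
  refine ⟨f, hf0, ?_⟩
  let j : k →+* κ := (algebraMap (RatFunc k) κ).comp (algebraMap k (RatFunc k))
  have hj : (algebraMap κ Ω).comp j = algebraMap k Ω := by
    ext a
    show algebraMap κ Ω (algebraMap (RatFunc k) κ (algebraMap k (RatFunc k) a)) = algebraMap k Ω a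
    rw [← IsScalarTower.algebraMap_apply (RatFunc k) κ Ω, ← IsScalarTower.algebraMap_apply k (RatFunc k) Ω]
  have h1 : ∀ z : algebraicClosure κ Ω, aeval (z : Ω) f = ((aeval z (f.map j) : algebraicClosure κ Ω) : Ω) := by
    intro z
    have h2 := aeval_algebraMap_apply Ω z (f.map j)
    have h3 : aeval (algebraMap (algebraicClosure κ Ω) Ω z) (f.map j) = aeval (z : Ω) f := by
      rw [aeval_def, eval₂_map, hj, ← aeval_def]
      rfl
    rw [← h3, h2]
    rfl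
  rw [h1] at hf ⊢
  have h4 : (aeval x (f.map j) : algebraicClosure κ Ω) = 0 := Subtype.ext hf
  rw [aeval_algHom_apply τ x (f.map j), h4, map_zero]
  rfl

theorem st_all (S : Sec κ Ω) (hdep : Dep κ Ω) (U : ValuationSubring Ω) (halg : ∀ z : Ω, IsAlgebraic κ z → z ∈ U)
    (ξ : Ω) (hξ0 : ξ ≠ 0) (hξ : U.valuation ξ < 1)
    (hM : ∀ τ : algebraicClosure κ Ω ≃ₐ[κ] algebraicClosure κ Ω, Fix {c : Ω | IsAlgebraic k c} τ →
      ∀ z : Ω, S.s τ z ∈ U ↔ z ∈ U) (τ : algebraicClosure κ Ω ≃ₐ[κ] algebraicClosure κ Ω) (z : Ω) : S.s τ z ∈ U ↔ z ∈ U := by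
  obtain ⟨n, hn, hnsq⟩ := nonsq_M (k := k) (κ := κ) (Ω := Ω)
  have hkκ : ∀ c : Ω, IsAlgebraic k c → IsAlgebraic κ c := by
    intro c hc
    have h1 : IsAlgebraic (RatFunc k) c := hc.tower_top (RatFunc k)
    exact h1.tower_top κ
  have hMalg : ∀ x ∈ IntermediateField.adjoin κ {c : Ω | IsAlgebraic k c}, IsAlgebraic κ x := by
    intro x hx
    have h1 : IntermediateField.adjoin κ {c : Ω | IsAlgebraic k c} ≤ algebraicClosure κ Ω := by
      rw [IntermediateField.adjoin_le_iff]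
      intro y hy
      exact mem_algebraicClosure_iff.2 (hkκ y hy)
    exact mem_algebraicClosure_iff.1 (h1 hx)
  let U' : ValuationSubring Ω := U.comap (S.s τ : Ω →+* Ω)
  have hU' : ∀ y, y ∈ U' ↔ S.s τ y ∈ U := fun y => Iff.rfl
  have hinv : ∀ y, S.s τ (S.s τ⁻¹ y) = y := by
    intro y
    have h : S.s (τ * τ⁻¹) y = S.s τ (S.s τ⁻¹ y) := by rw [map_mul]; rfl
    rw [← h, mul_inv_cancel, map_one]
    rfl
  have halg' : ∀ y : Ω, IsAlgebraic κ y → y ∈ U' := by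
    intro y hy
    rw [hU']
    have h1 := S.res τ ⟨y, mem_algebraicClosure_iff.2 hy⟩
    have h2 : S.s τ y = ((τ ⟨y, mem_algebraicClosure_iff.2 hy⟩ : algebraicClosure κ Ω) : Ω) := h1
    rw [h2]
    exact halg _ (mem_algebraicClosure_iff.1 (τ ⟨y, mem_algebraicClosure_iff.2 hy⟩).2)
  have hξ'0 : S.s τ⁻¹ ξ ≠ 0 := (map_ne_zero_iff _ (S.s τ⁻¹).injective).2 hξ0
  have hξ' : U'.valuation (S.s τ⁻¹ ξ) < 1 := by
    rw [m3_lt_one U' _ hξ'0, hU', map_inv₀, hinv]
    exact (m3_lt_one U ξ hξ0).1 hξ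
  have hres : ∀ y ∈ U, ∃ ρ : Ω, IsAlgebraic κ ρ ∧ U.valuation (y - ρ) < 1 := fun y hy =>
    res_alg κ Ω U halg ξ hξ0 hξ y hy (hdep ξ (m3_tr U halg ξ hξ0 hξ) y)
  have hres' : ∀ y ∈ U', ∃ ρ : Ω, IsAlgebraic κ ρ ∧ U'.valuation (y - ρ) < 1 := fun y hy =>
    res_alg κ Ω U' halg' _ hξ'0 hξ' y hy (hdep _ (m3_tr U' halg' _ hξ'0 hξ') y)
  have hfix : ∀ ρ : algebraicClosure κ Ω ≃ₐ[κ] algebraicClosure κ Ω,
      (∀ x : algebraicClosure κ Ω, (x : Ω) ∈ IntermediateField.adjoin κ {c : Ω | IsAlgebraic k c} → ρ x = x) →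
        Fix {c : Ω | IsAlgebraic k c} ρ := fun ρ hρ x hx => hρ x (IntermediateField.subset_adjoin κ _ hx)
  have hUU : U = U' := by
    refine unique_inv κ Ω S (IntermediateField.adjoin κ {c : Ω | IsAlgebraic k c}) hMalg n hn hnsq U U' halg halg' hres hres'
      (fun ρ hρ y => hM ρ (hfix ρ hρ) y) (fun ρ hρ y => ?_)
    rw [hU', hU']
    have h1 : Fix {c : Ω | IsAlgebraic k c} (τ * ρ * τ⁻¹) := by
      intro x hx
      have h2 : IsAlgebraic k ((τ⁻¹ x : algebraicClosure κ Ω) : Ω) := st3_const τ⁻¹ x hx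
      show τ (ρ (τ⁻¹ x)) = x
      rw [hfix ρ hρ (τ⁻¹ x) h2]
      show (τ * τ⁻¹) x = x
      rw [mul_inv_cancel]
      rfl
    have h3 : S.s τ (S.s ρ y) = S.s (τ * ρ * τ⁻¹) (S.s τ y) := by
      have h4 : S.s (τ * ρ) y = S.s τ (S.s ρ y) := by rw [map_mul]; rfl
      have h5 : S.s (τ * ρ * τ⁻¹ * τ) y = S.s (τ * ρ * τ⁻¹) (S.s τ y) := by rw [map_mul]; rfl
      rw [← h4, ← h5]
      have h6 : τ * ρ * τ⁻¹ * τ = τ * ρ := by group
      rw [h6]
    rw [h3]
    exact hM _ h1 _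
  constructor
  · intro h
    rw [hUU]
    exact h
  · intro h
    rw [hUU] at h
    exact h

end BSC
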