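import Pool.Agent.Lib_MP_49ddc8_l.LFa
import Pool.Agent.Lib_MP_49ddc8_l.LWr
import Pool.Agent.Lib_MP_49ddc8_g.F1
import Pool.Agent.Lib_MP_49ddc8_g.Pk
import Pool.Agent.Lib_MP_49ddc8_g.Lim
import Pool.Agent.Lib_MP_49ddc8_g.E2
import Pool.Agent.Lib_MP_49ddc8_g.St2
import Pool.Agent.Lib_MP_49ddc8_l.St3

/-!
# The valuation ring `U` for every section over a finitely generated field which is not a number field
-/

set_option autoImplicit false

open Polynomial

namespace BSC

theorem exists_U_fg (κ Ω : Type) [Field κ] [CharZero κ] [Field Ω] [IsAlgClosed Ω] [Algebra κ Ω]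
    (h : (⊤ : IntermediateField ℚ κ).FG) (hna : ¬ Algebra.IsAlgebraic ℚ κ) (S : Sec κ Ω) (hdep : Dep κ Ω) (x : Ω)
    (hx : x ∈ S.F ∅) (htr : Transcendental κ x) :
    ∃ U : ValuationSubring Ω, (∀ z : Ω, IsAlgebraic κ z → z ∈ U) ∧ (∃ ξ : Ω, ξ ≠ 0 ∧ U.valuation ξ < 1) ∧
      ∀ (τ : algebraicClosure κ Ω ≃ₐ[κ] algebraicClosure κ Ω) (z : Ω), S.s τ z ∈ U ↔ z ∈ U := by
  obtain ⟨k, u, θ, φ, hk, hu, hgen, hint, hφC, hφX, hfin, hadj⟩ := BSCG.exists_base κ h hna
  have hbase := BSCG.base_of κ Ω k u θ hu hgen hint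
  letI : Algebra (RatFunc k) κ := φ.toAlgebra
  letI : Algebra (RatFunc k) Ω := ((algebraMap κ Ω).comp φ).toAlgebra
  haveI : IsScalarTower (RatFunc k) κ Ω := IsScalarTower.of_algebraMap_eq (fun _ => rfl)
  haveI : FiniteDimensional (RatFunc k) κ := hfin
  haveI : CharZero k := charZero_of_injective_algebraMap (algebraMap ℚ k).injective
  haveI : IsScalarTower k (RatFunc k) Ω := IsScalarTower.of_algebraMap_eq (fun c => by
    show algebraMap k Ω c = algebraMap κ Ω (φ (algebraMap k (RatFunc k) c))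
    have h1 : algebraMap k (RatFunc k) c = RatFunc.C c := rfl
    rw [h1, hφC]
    rfl)
  obtain ⟨F⟩ := exists_gfam (k := k) (κ := κ) (Ω := Ω) hk S
  have htt : tt k Ω = algebraMap κ Ω u := by
    show algebraMap κ Ω (φ RatFunc.X) = algebraMap κ Ω u
    rw [hφX]
  have hK : ∀ c ∈ (algebraicClosure k Ω).toSubfield, IsAlgebraic k c := fun c hc => mem_algebraicClosure_iff.1 hc
  have hθ : IsAlgebraic κ (algebraMap κ Ω θ) := isAlgebraic_algebraMap θ
  have hgen' : ∀ c : κ, algebraMap κ Ω c ∈ IntermediateField.adjoin (RatFunc k) {algebraMap κ Ω θ} := by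
    intro c
    have h1 : c ∈ IntermediateField.adjoin (RatFunc k) ({θ} : Set κ) := by
      rw [hadj]
      exact IntermediateField.mem_top
    have h2 : IntermediateField.adjoin (RatFunc k) {algebraMap κ Ω θ} =
        (IntermediateField.adjoin (RatFunc k) ({θ} : Set κ)).map (IsScalarTower.toAlgHom (RatFunc k) κ Ω) := by
      rw [IntermediateField.adjoin_map, Set.image_singleton]
      rfl
    rw [h2]
    exact ⟨c, h1, rfl⟩
  let P := packOf S F (algebraicClosure k Ω).toSubfield hK (algebraMap κ Ω θ) hθ hgen'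
  rw [← htt] at hbase
  -- the limit of the valuation rings is not trivial
  have hntriv : ∃ ξ : Ω, ξ ≠ 0 ∧ ∀ᶠ t in (F.U : Filter F.T), ((F.tri t).W).valuation ξ < 1 := by
    rcases (BSCG.lim F.U (fun t => (F.tri t).W)).mem_or_inv_mem x with h1 | h1
    · exact BSCG.nontrivial P hbase x hx htr h1
    · refine BSCG.nontrivial P hbase x⁻¹ (inv_mem hx) (fun h2 => htr ?_) h1
      have h3 := h2.inv
      rwa [inv_inv] at h3
  have hM : ∀ τ : algebraicClosure κ Ω ≃ₐ[κ] algebraicClosure κ Ω, Fix {c : Ω | IsAlgebraic k c} τ →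
      ∀ z : Ω, ∀ᶠ t in (F.U : Filter F.T), (S.s τ z ∈ (F.tri t).W ↔ z ∈ (F.tri t).W) :=
    fun τ hτ z => st_s1 S F τ hτ z
  obtain ⟨ξ, hξ0, hξ⟩ := hntriv
  have halg : ∀ z : Ω, IsAlgebraic κ z → z ∈ BSCG.lim F.U (fun t => (F.tri t).W) := fun z hz =>
    BSCG.mem_lim_of_unit _ _ z fun h0 => P.unit z hz h0
  have hξ' := (BSCG.lim_lt F.U (fun t => (F.tri t).W) ξ).2 hξ
  exact ⟨BSCG.lim F.U (fun t => (F.tri t).W), halg, ⟨ξ, hξ0, hξ'⟩,
    st_all (k := k) S hdep _ halg ξ hξ0 hξ' fun τ hτ z => Filter.eventually_congr (hM τ hτ z)⟩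

/-- the birational section conjecture over finitely generated fields which are not number fields: sections come from places -/
theorem bsc_fgen (κ : Type) [Field κ] [CharZero κ] (K : Type) [Field K] [Algebra κ K] (h : (⊤ : IntermediateField ℚ κ).FG)
    (hna : ¬ Algebra.IsAlgebraic ℚ κ)
    (htd : ∃ t : K, Transcendental κ t ∧ Algebra.IsAlgebraic (IntermediateField.adjoin κ {t}) K)
    (s : ((algebraicClosure κ (AlgebraicClosure K)) ≃ₐ[κ] (algebraicClosure κ (AlgebraicClosure K))) →*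
      (AlgebraicClosure K ≃ₐ[K] AlgebraicClosure K)) (hs : Continuous s)
    (hres : ∀ (τ : (algebraicClosure κ (AlgebraicClosure K)) ≃ₐ[κ] (algebraicClosure κ (AlgebraicClosure K)))
      (x : algebraicClosure κ (AlgebraicClosure K)),
        s τ (x : AlgebraicClosure K) = ((τ x : algebraicClosure κ (AlgebraicClosure K)) : AlgebraicClosure K)) :
    ∃! O : ValuationSubring K,
      ((∀ c : κ, algebraMap κ K c ∈ O) ∧ O ≠ ⊤ ∧
        ∀ x ∈ O, ∃ c : κ, x - algebraMap κ K c = 0 ∨ (x - algebraMap κ K c)⁻¹ ∉ O) ∧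
      ∃ W : ValuationSubring (AlgebraicClosure K),
        W.comap (algebraMap K (AlgebraicClosure K)) = O ∧
        ∀ τ, ∀ y : AlgebraicClosure K, (s τ y ∈ W ↔ y ∈ W) := by
  refine bsc_of_U2 κ h K htd s hs hres fun S hK hdep => ?_
  obtain ⟨t, ht, -⟩ := htd
  refine exists_U_fg κ (AlgebraicClosure K) h hna S hdep (algebraMap K (AlgebraicClosure K) t) (hK t) fun h1 => ht ?_
  exact (isAlgebraic_algebraMap_iff (algebraMap K (AlgebraicClosure K)).injective).1 h1

end BSC
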