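import Pool.Agent.Lib_MP_49ddc8_l.LDefs
import Pool.Agent.Lib_MP_49ddc8.Gal

/-!
# [L-HE] `W` is henselian on `S.F B`, `L ⊆ B`

Adaptation of Lib_MP_49ddc8_v/VHe.lean (there `κ = RatFunc k`, `B = L`): `GW.mem` instead of `VW.mem`; if `τ` fixes `B` then it fixes `L`.
-/

set_option autoImplicit false

open Polynomial

namespace BSC

variable {k κ Ω : Type} [Field k] [CharZero k] [Field κ] [CharZero κ] [Field Ω] [IsAlgClosed Ω] [Algebra k Ω] [Algebra (RatFunc k) Ω]
  [IsScalarTower k (RatFunc k) Ω] [Algebra κ Ω] [Algebra (RatFunc k) κ] [IsScalarTower (RatFunc k) κ Ω]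
  [FiniteDimensional (RatFunc k) κ] {p : ℕ} [Fact p.Prime] {σ : k →+* ℚ_[p]} {L : IntermediateField (RatFunc k) Ω} {nm : Ω → ℝ}

/-- stability for the maximal ideal -/
theorem GW.st_lt {S : Sec κ Ω} {L : IntermediateField (RatFunc k) Ω} {nm : Ω → ℝ} {W : ValuationSubring Ω} (hW : GW S L nm W)
    (τ : algebraicClosure κ Ω ≃ₐ[κ] algebraicClosure κ Ω) (hτ : Fix (L : Set Ω) τ) (z : Ω) :
    W.valuation (S.s τ z) < 1 ↔ W.valuation z < 1 := by
  rw [← ValuationSubring.mem_nonunits_iff, ← ValuationSubring.mem_nonunits_iff,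
    ValuationSubring.mem_nonunits_iff_or, ValuationSubring.mem_nonunits_iff_or, ← map_inv₀, hW.st τ hτ,
    map_eq_zero_iff _ (S.s τ).injective]

/-- the maximal ideal on the algebraic elements -/
theorem GW.mem_lt {S : Sec κ Ω} (hG : GN p σ L nm) {W : ValuationSubring Ω} (hW : GW S L nm W) (x : Ω) (hx : IsAlgebraic κ x) :
    W.valuation x < 1 ↔ nm x < 1 := by
  have hxi : IsAlgebraic κ x⁻¹ := hx.inv
  rw [← ValuationSubring.mem_nonunits_iff, ValuationSubring.mem_nonunits_iff_or, hW.mem _ hxi]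
  by_cases h0 : x = 0
  · simp [h0, hG.zero]
  · have hxa := (alg_iff (k := k) x).1 hx
    have hia := (alg_iff (k := k) x⁻¹).1 hxi
    have h1 : nm 1 = 1 := by
      have h2 := hG.mul 1 1 (isAlgebraic_one) (isAlgebraic_one)
      have h3 := hG.pos 1 (isAlgebraic_one) one_ne_zero
      rw [mul_one] at h2
      nlinarith
    have h2 : nm x * nm x⁻¹ = 1 := by
      rw [← hG.mul x x⁻¹ hxa hia, mul_inv_cancel₀ h0, h1]
    have h3 := hG.pos x hxa h0
    have h4 := hG.pos _ hia (inv_ne_zero h0)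
    constructor
    · rintro (h | h)
      · exact absurd h h0
      · push Not at h
        by_contra h5
        push Not at h5
        nlinarith
    · intro h
      right
      push Not
      by_contra h5
      push Not at h5
      nlinarith

omit [IsAlgClosed Ω] in
private theorem LHe_uniq {W : ValuationSubring Ω} {p : ℕ} (hp : 2 ≤ p) {c d : Ω} (h : c ^ p - c = d ^ p - d)
    (hc : W.valuation c < 1) (hd : W.valuation d < 1) : c = d := by
  by_contra hne
  have h1 := (Commute.all c d).geom_sum₂_mul p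
  have h2 : (∑ i ∈ Finset.range p, c ^ i * d ^ (p - 1 - i)) * (c - d) = 1 * (c - d) := by
    rw [h1]
    linear_combination h
  have h3 := mul_right_cancel₀ (sub_ne_zero.2 hne) h2
  have h4 : W.valuation (∑ i ∈ Finset.range p, c ^ i * d ^ (p - 1 - i)) < 1 := by
    refine Valuation.map_sum_lt _ one_ne_zero ?_
    intro i hi
    rw [Finset.mem_range] at hi
    rw [map_mul, map_pow, map_pow]
    rcases Nat.eq_zero_or_pos i with h0 | h0
    · rw [h0, pow_zero, one_mul]
      exact pow_lt_one₀ zero_le hd (by omega)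
    · exact mul_lt_one_of_lt_of_le (pow_lt_one₀ zero_le hc (by omega)) (pow_le_one₀ zero_le hd.le)
  rw [h3, map_one] at h4
  exact lt_irrefl _ h4

theorem hensg_as (hG : GN p σ L nm) (S : Sec κ Ω) (W : ValuationSubring Ω) (hW : GW S L nm W) (B : Set Ω) (hB : (L : Set Ω) ⊆ B)
    (a : Ω) (ha : a ∈ S.F B) (h : W.valuation a < 1) : ∃ c ∈ S.F B, c ^ p - c = a := by
  have hp : 2 ≤ p := (Fact.out : p.Prime).two_le
  obtain ⟨c, hc, hcv⟩ : ∃ c : Ω, c ^ p - c = a ∧ W.valuation c < 1 := by
    set P : Polynomial Ω := X ^ p - X - C a with hP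
    have hdeg : (X + C a : Polynomial Ω).degree < p := by
      rw [degree_X_add_C]
      exact_mod_cast hp
    have hPe : P = X ^ p - (X + C a) := by
      rw [hP]
      ring
    have hm : P.Monic := by
      rw [hPe]
      exact monic_X_pow_sub hdeg
    have h0 : P.coeff 0 = -a := by
      rw [hP]
      simp [show (0 : ℕ) ≠ p by omega]
    have h1 := (IsAlgClosed.splits P).coeff_zero_eq_prod_roots_of_monic hm
    rw [h0] at h1
    by_contra hcon
    push Not at hcon
    have h2 : ∀ c ∈ P.roots, 1 ≤ W.valuation c := by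
      intro c hc
      apply hcon
      rw [mem_roots hm.ne_zero, IsRoot.def, hP] at hc
      simp only [eval_sub, eval_pow, eval_X, eval_C] at hc
      linear_combination hc
    have h3 : ∀ s : Multiset Ω, (∀ c ∈ s, 1 ≤ W.valuation c) → 1 ≤ W.valuation s.prod := by
      intro s
      induction s using Multiset.induction_on with
      | empty => simp
      | cons c s ih =>
        intro hs
        rw [Multiset.prod_cons, map_mul]
        exact one_le_mul_of_one_le_of_one_le (hs c (Multiset.mem_cons_self c s))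
          (ih fun d hd => hs d (Multiset.mem_cons_of_mem hd))
    have h4 := h3 _ h2
    have h5 : W.valuation (-a) = W.valuation P.roots.prod := by
      rw [h1, map_mul, map_pow, Valuation.map_neg, map_one, one_pow, one_mul]
    rw [Valuation.map_neg] at h5
    rw [← h5] at h4
    exact absurd h (not_lt.2 h4)
  refine ⟨c, ?_, hc⟩
  intro τ hτ
  refine LHe_uniq hp ?_ ((hW.st_lt τ (fun x hx => hτ x (hB hx)) c).2 hcv) hcv
  rw [← map_pow, ← map_sub, hc]
  exact ha τ hτ

theorem hensg_sq (hp2 : p ≠ 2) (hG : GN p σ L nm) (S : Sec κ Ω) (W : ValuationSubring Ω) (hW : GW S L nm W) (B : Set Ω)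
    (hB : (L : Set Ω) ⊆ B) (a : Ω) (ha : a ∈ S.F B) (h : W.valuation a < 1) : ∃ w ∈ S.F B, 1 + a = w ^ 2 := by
  have h2v : ¬ W.valuation (2 : Ω) < 1 := by
    have h2L : IsAlgebraic κ (2 : Ω) := by exact_mod_cast isAlgebraic_natCast (R := κ) (A := Ω) 2
    rw [hW.mem_lt hG 2 h2L, not_lt]
    have h1 := hG.poly_ge (C 2) 0
    rw [coeff_C_zero, aeval_C, map_ofNat, map_ofNat] at h1
    refine le_trans ?_ h1
    have h2 : ¬ ‖((2 : ℤ) : ℚ_[p])‖ < 1 := by
      rw [Padic.norm_intCast_lt_one_iff]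
      intro h3
      have h4 : p ∣ 2 := by exact_mod_cast h3
      exact hp2 ((Nat.prime_dvd_prime_iff_eq Fact.out Nat.prime_two).1 h4)
    push Not at h2
    exact_mod_cast h2
  obtain ⟨w, hw, hwv⟩ : ∃ w : Ω, 1 + a = w ^ 2 ∧ W.valuation (w - 1) < 1 := by
    obtain ⟨w, hw⟩ := IsAlgClosed.exists_pow_nat_eq (1 + a) (n := 2) (by norm_num)
    have h1 : W.valuation ((w - 1) * (w + 1)) < 1 := by
      rw [show (w - 1) * (w + 1) = a by linear_combination hw]
      exact h
    rw [map_mul] at h1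
    by_cases h2 : W.valuation (w - 1) < 1
    · exact ⟨w, hw.symm, h2⟩
    · refine ⟨-w, by rw [neg_sq, hw], ?_⟩
      rw [← Valuation.map_neg, show -(-w - 1) = w + 1 by ring]
      by_contra h3
      push Not at h2 h3
      exact absurd h1 (not_lt.2 (one_le_mul_of_one_le_of_one_le h2 h3))
  refine ⟨w, ?_, hw⟩
  intro τ hτ
  have h1 : S.s τ w = w ∨ S.s τ w = -w := by
    refine sq_eq_sq_iff_eq_or_eq_neg.1 ?_
    rw [← map_pow, ← hw, map_add, map_one, ha τ hτ]
  rcases h1 with h1 | h1
  · exact h1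
  · exfalso
    apply h2v
    have h3 := (hW.st_lt τ (fun x hx => hτ x (hB hx)) (w - 1)).2 hwv
    rw [map_sub, map_one, h1] at h3
    have h4 := Valuation.map_add_lt _ h3 hwv
    rw [← Valuation.map_neg, show -(-w - 1 + (w - 1)) = 2 by ring] at h4
    exact h4

end BSC
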