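import Pool.Agent.Lib_MP_49ddc8_l.LDefs
import Pool.Agent.Lib_MP_49ddc8.Gal

/-!
# [L-N1] The roots of `X ^ p - X - 1` over `L'`

Adaptation of Lib_MP_49ddc8_v/VN1.lean (there `κ = RatFunc k`, `L' = L` and the residue field of `V ∩ L` is `𝔽_p`).  Now every element of the residue field `F'` of `V ∩ L'` has degree `< p` over `𝔽_p` (`hres`).  `X ^ p - X - 1` is irreducible over `F'`: its roots are `α + i`; a monic factor of degree `d`, `0 < d < p`, has the
second coefficient `- (d α + integer)`, so `α ∈ F'`; but `α` has degree `p` over `𝔽_p`.  The rest is the same with `F'` for `𝔽_p`: for `A ∈ L'[X]`, `A ≠ 0`, `deg A < p` divide by the coefficient `c` of largest valuation; the reduction of `A / c` is nonzero of degree `< p`, so it does not vanish at the residue of `τ j θ`, which has degree `p` over `F'`.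
-/

set_option autoImplicit false

open Polynomial

namespace BSC

/-- Artin-Schreier: a root of `X ^ p - X - 1` has degree `p` over the prime field -/
private theorem as_indep_ln1 {R : Type*} [Field R] {p : ℕ} [Fact p.Prime] [CharP R p] (α : R) (hα : α ^ p = α + 1)
    (r : ℕ → ℤ) (h : ∑ i ∈ Finset.range p, (r i : R) * α ^ i = 0) (i : ℕ) (hi : i < p) : (r i : R) = 0 := by
  haveI : ExpChar R p := expChar_prime R p
  set g : R[X] := ∑ i ∈ Finset.range p, C (r i : R) * X ^ i with hg
  have hev : ∀ x : R, g.eval x = ∑ i ∈ Finset.range p, (r i : R) * x ^ i := by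
    intro x
    rw [hg, eval_finsetSum]
    refine Finset.sum_congr rfl fun i _ => ?_
    rw [eval_mul, eval_C, eval_pow, eval_X]
  have hfro : ∀ x : R, g.eval x = 0 → g.eval (x ^ p) = 0 := by
    intro x hx
    have h1 : g.eval (x ^ p) = (g.eval x) ^ p := by
      rw [hev, hev]
      have h2 : (∑ i ∈ Finset.range p, (r i : R) * x ^ i) ^ p =
          frobenius R p (∑ i ∈ Finset.range p, (r i : R) * x ^ i) := rfl
      rw [h2, map_sum]
      refine Finset.sum_congr rfl fun i _ => ?_
      rw [map_mul, map_intCast, map_pow, frobenius_def]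
    rw [h1, hx, zero_pow (Fact.out : p.Prime).ne_zero]
  have hroot : ∀ n : ℕ, g.eval (α + n) = 0 := by
    intro n
    induction n with
    | zero => rw [Nat.cast_zero, add_zero, hev, h]
    | succ n ih =>
      have h1 := hfro _ ih
      have h2 : (α + (n : R)) ^ p = α + ((n + 1 : ℕ) : R) := by
        rw [add_pow_char, hα]
        have h3 : ((n : R)) ^ p = (n : R) := by
          have : frobenius R p (n : R) = (n : R) := map_natCast _ _
          rwa [frobenius_def] at this
        rw [h3]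
        push_cast
        ring
      rwa [h2] at h1
  have hinj : Function.Injective (fun j : Fin p => α + ((j : ℕ) : R)) := by
    intro a b hab
    have h1 : ((a : ℕ) : R) = ((b : ℕ) : R) := add_left_cancel hab
    have h2 := (CharP.natCast_eq_natCast R p).1 h1
    have h3 : (a : ℕ) % p = (b : ℕ) % p := h2
    rw [Nat.mod_eq_of_lt a.2, Nat.mod_eq_of_lt b.2] at h3
    exact Fin.ext h3
  have hdeg : g.natDegree < Fintype.card (Fin p) := by
    rw [Fintype.card_fin]
    have h1 : g.natDegree ≤ p - 1 := by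
      rw [hg]
      refine natDegree_sum_le_of_forall_le _ _ fun i hi => ?_
      refine (natDegree_C_mul_X_pow_le _ _).trans ?_
      have := Finset.mem_range.1 hi
      omega
    have h2 := (Fact.out : p.Prime).pos
    omega
  have hg0 : g = 0 := eq_zero_of_natDegree_lt_card_of_eval_eq_zero g hinj (fun j => hroot j) hdeg
  have hc : g.coeff i = (r i : R) := by
    rw [hg, finsetSum_coeff]
    simp only [coeff_C_mul, coeff_X_pow, mul_ite, mul_one, mul_zero]
    rw [Finset.sum_ite_eq, if_pos (Finset.mem_range.2 hi)]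
  rw [← hc, hg0, coeff_zero]

private theorem mem_V_ln1 {Ω : Type*} [Field Ω] {p : ℕ} [Fact p.Prime] (V : ValuationSubring Ω) (θ : Ω)
    (hθ : θ ^ p = θ + 1) : θ ∈ V := by
  rw [← V.valuation_le_one_iff]
  by_contra hcon
  push Not at hcon
  have h1 : V.valuation (θ + 1) ≤ V.valuation θ := by
    refine (V.valuation.map_add θ 1).trans ?_
    rw [map_one]
    exact max_le le_rfl hcon.le
  rw [← hθ, map_pow] at h1
  have h2 : V.valuation θ < V.valuation θ ^ p :=
    lt_self_pow₀ hcon (Fact.out : p.Prime).one_lt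
  exact absurd h1 (not_le.2 h2)

private theorem deg_ln1 (p : ℕ) (hp : p.Prime) (F : Type*) [Field F] :
    (X ^ p - X - 1 : F[X]).natDegree = p ∧ (X ^ p - X - 1 : F[X]).Monic := by
  have h1 : (X ^ p - X - 1 : F[X]) = X ^ p - (X + 1) := by ring
  have h3 : (X + 1 : F[X]) = X + C 1 := by rw [C_1]
  have h2 : (X + 1 : F[X]).degree < p := by
    rw [h3, degree_X_add_C]
    exact_mod_cast hp.one_lt
  rw [h1]
  refine ⟨?_, monic_X_pow_sub h2⟩
  have h4 : (X + 1 : F[X]).natDegree < (X ^ p : F[X]).natDegree := by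
    rw [h3, natDegree_X_add_C, natDegree_X_pow]
    exact hp.one_lt
  rw [natDegree_sub_eq_left_of_natDegree_lt h4, natDegree_X_pow]

private theorem gal_ln1 {K M : Type*} [Field K] [CharZero K] [Field M] [Algebra K M] [IsAlgClosed M] [Normal K M]
    (E : IntermediateField K M) (p : ℕ) [Fact p.Prime]
    (hmin : ∀ A : E[X], A ≠ 0 → A.natDegree < p → ∀ θ : M, θ ^ p = θ + 1 → aeval θ A ≠ 0) :
    ∃ (θ : M) (τ : Fin p → (M ≃ₐ[K] M)), (∀ j, ∀ x ∈ E, τ j x = x) ∧ Function.Injective (fun j => τ j θ) ∧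
      (∏ j, (X - C (τ j θ)) = X ^ p - X - 1) ∧ ∀ j, (τ j θ) ^ p = τ j θ + 1 := by
  have hpp : p.Prime := Fact.out
  obtain ⟨hdE, hmE⟩ := deg_ln1 p hpp E
  obtain ⟨hdM, hmM⟩ := deg_ln1 p hpp M
  have hev : ∀ t : M, aeval t (X ^ p - X - 1 : E[X]) = t ^ p - t - 1 := by
    intro t
    simp
  have hevM : ∀ t : M, eval t (X ^ p - X - 1 : M[X]) = t ^ p - t - 1 := by
    intro t
    simp
  have hmp : ∀ t : M, t ^ p = t + 1 → IsIntegral E t ∧ minpoly E t = (X ^ p - X - 1 : E[X]) := by
    intro t ht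
    have h0 : aeval t (X ^ p - X - 1 : E[X]) = 0 := by
      rw [hev, ht]
      ring
    have hint : IsIntegral E t := ⟨_, hmE, h0⟩
    refine ⟨hint, (eq_of_monic_of_dvd_of_natDegree_le (minpoly.monic hint) hmE
      (minpoly.dvd E t h0) ?_).symm⟩
    rw [hdE]
    by_contra hcon
    push Not at hcon
    exact hmin _ (minpoly.ne_zero hint) hcon t ht (minpoly.aeval E t)
  obtain ⟨θ, hθ⟩ : ∃ θ : M, θ ^ p = θ + 1 := by
    obtain ⟨θ, hθ⟩ := IsAlgClosed.exists_root (X ^ p - X - 1 : M[X]) (by
      rw [degree_eq_natDegree hmM.ne_zero, hdM]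
      exact_mod_cast hpp.ne_zero)
    refine ⟨θ, ?_⟩
    rw [IsRoot.def, hevM] at hθ
    linear_combination hθ
  have hsep : (X ^ p - X - 1 : E[X]).Separable := by
    rw [← (hmp θ hθ).2]
    exact (minpoly.irreducible (hmp θ hθ).1).separable
  have hcard : Fintype.card ((X ^ p - X - 1 : E[X]).rootSet M) = p := by
    rw [card_rootSet_eq_natDegree hsep (IsAlgClosed.splits _), hdE]
  let e := (Fintype.equivFinOfCardEq hcard).symm
  have hρ : ∀ j, ((e j : M)) ^ p = (e j : M) + 1 := by
    intro j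
    have h1 := (mem_rootSet.1 (e j).2).2
    rw [hev] at h1
    linear_combination h1
  haveI : Normal E M := Normal.tower_top_of_normal K E M
  have hσ : ∀ j, ∃ σ : M ≃ₐ[E] M, σ θ = (e j : M) := by
    intro j
    apply isConjRoot_iff_exists_algEquiv.1
    change minpoly E (e j : M) = minpoly E θ
    rw [(hmp _ (hρ j)).2, (hmp θ hθ).2]
  choose σ hσ using hσ
  have hinj : Function.Injective (fun j => ((e j : M))) := fun a b h =>
    e.injective (Subtype.ext h)
  refine ⟨θ, fun j => (σ j).restrictScalars K, ?_, ?_, ?_, ?_⟩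
  · intro j x hx
    change (σ j) x = x
    exact (σ j).commutes ⟨x, hx⟩
  · intro a b h
    apply hinj
    change (e a : M) = (e b : M)
    rw [← hσ a, ← hσ b]
    exact h
  · have h1 : ∏ j, (X - C (((σ j).restrictScalars K) θ)) = ∏ j, (X - C ((e j : M))) := by
      refine Finset.prod_congr rfl fun j _ => ?_
      rw [← hσ j]
      rfl
    rw [h1]
    have h2 : (∏ j, (X - C ((e j : M)))).Monic := monic_prod_of_monic _ _ fun j _ => monic_X_sub_C _
    have h3 : (∏ j, (X - C ((e j : M)))).natDegree = p := by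
      rw [natDegree_prod_of_monic _ _ fun j _ => monic_X_sub_C _]
      simp
    have h4 : (∏ j, (X - C ((e j : M)))).degree = (X ^ p - X - 1 : M[X]).degree := by
      rw [degree_eq_natDegree h2.ne_zero, degree_eq_natDegree hmM.ne_zero, h3, hdM]
    refine eq_of_degree_sub_lt_of_eval_index_eq (s := Finset.univ) (v := fun j => (e j : M))
      (fun a _ b _ h => hinj h) ?_ ?_
    · refine (degree_sub_lt h4 h2.ne_zero ?_).trans_eq ?_
      · rw [h2.leadingCoeff, hmM.leadingCoeff]
      · rw [degree_eq_natDegree h2.ne_zero, h3, Finset.card_univ, Fintype.card_fin]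
    · intro j _
      rw [hevM, hρ j, eval_prod, Finset.prod_eq_zero (Finset.mem_univ j)]
      · ring
      · simp
  · intro j
    change (σ j θ) ^ p = σ j θ + 1
    rw [hσ j]
    exact hρ j

/-- over a field of elements of degree `< p` over the prime field a root of `X ^ p - X - 1` still has degree `p` -/
private theorem indep_ln1 {R : Type*} [Field R] {p : ℕ} [Fact p.Prime] [CharP R p] (F : Subfield R)
    (hF : ∀ r ∈ F, ∃ q : ℤ[X], ired p q ≠ 0 ∧ q.natDegree < p ∧ aeval r q = 0) (α : R) (hα : α ^ p = α + 1)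
    (r : ℕ → R) (hr : ∀ i, r i ∈ F) (h : ∑ i ∈ Finset.range p, r i * α ^ i = 0) (i : ℕ) (hi : i < p) : r i = 0 := by
  have hpp : p.Prime := Fact.out
  by_contra hri
  -- `α` is not in `F`
  have hαF : α ∉ F := by
    intro hmem
    obtain ⟨q, hq0, hqd, hq⟩ := hF α hmem
    apply hq0
    rw [Polynomial.aeval_eq_sum_range' hqd] at hq
    have h1 : ∑ i ∈ Finset.range p, ((q.coeff i : ℤ) : R) * α ^ i = 0 := by
      rw [← hq]
      refine Finset.sum_congr rfl fun i _ => ?_
      rw [zsmul_eq_mul]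
    have h2 := as_indep_ln1 α hα (fun i => q.coeff i) h1
    ext n
    unfold ired
    rw [coeff_map, coeff_zero]
    by_cases hn : n < p
    · have h3 := h2 n hn
      have h4 : (p : ℤ) ∣ q.coeff n := (CharP.intCast_eq_zero_iff R p _).1 h3
      exact (CharP.intCast_eq_zero_iff (ZMod p) p _).2 h4
    · rw [coeff_eq_zero_of_natDegree_lt (by omega), map_zero]
  -- the minimal polynomial
  set f : F[X] := X ^ p - X - 1 with hf
  obtain ⟨hdF, hmF⟩ := deg_ln1 p hpp F
  obtain ⟨hdR, hmR⟩ := deg_ln1 p hpp R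
  have h0 : aeval α f = 0 := by
    rw [hf]
    simp only [map_sub, map_pow, aeval_X, map_one]
    rw [hα]
    ring
  have hint : IsIntegral F α := ⟨f, hmF, h0⟩
  set m := minpoly F α with hm
  have hmf : m ∣ f := minpoly.dvd F α h0
  have hmdeg : m.natDegree < p := by
    let g : F[X] := ∑ i ∈ Finset.range p, C (⟨r i, hr i⟩ : F) * X ^ i
    have hg : aeval α g = 0 := by
      rw [map_sum, ← h]
      refine Finset.sum_congr rfl fun i _ => ?_
      rw [map_mul, aeval_C, map_pow, aeval_X]
      rfl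
    have hgd : g.natDegree ≤ p - 1 := by
      refine natDegree_sum_le_of_forall_le _ _ fun i hi => ?_
      refine (natDegree_C_mul_X_pow_le _ _).trans ?_
      have := Finset.mem_range.1 hi
      omega
    have hg0 : g ≠ 0 := by
      intro hg0
      have hc : g.coeff i = (⟨r i, hr i⟩ : F) := by
        simp only [g]
        rw [finsetSum_coeff]
        simp only [coeff_C_mul, coeff_X_pow, mul_ite, mul_one, mul_zero]
        rw [Finset.sum_ite_eq, if_pos (Finset.mem_range.2 hi)]
      rw [hg0, coeff_zero] at hc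
      exact hri (congrArg Subtype.val hc).symm
    have h1 : m.natDegree ≤ g.natDegree := natDegree_le_of_dvd (minpoly.dvd F α hg) hg0
    have := hpp.pos
    omega
  have hmpos : 0 < m.natDegree := minpoly.natDegree_pos hint
  -- the roots of `f` in `R`
  have hroots : ∀ y : R, y ^ p = y + 1 → ∃ n : ℕ, y = α + n := by
    classical
    intro y hy
    have hev : ∀ t : R, eval t (X ^ p - X - 1 : R[X]) = t ^ p - t - 1 := by
      intro t
      simp
    have hinj : Function.Injective (fun j : Fin p => α + ((j : ℕ) : R)) := by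
      intro a b hab
      have h1 : ((a : ℕ) : R) = ((b : ℕ) : R) := add_left_cancel hab
      have h2 := (CharP.natCast_eq_natCast R p).1 h1
      have h3 : (a : ℕ) % p = (b : ℕ) % p := h2
      rw [Nat.mod_eq_of_lt a.2, Nat.mod_eq_of_lt b.2] at h3
      exact Fin.ext h3
    haveI : ExpChar R p := expChar_prime R p
    have hαn : ∀ n : ℕ, (α + (n : R)) ^ p = α + (n : R) + 1 := by
      intro n
      rw [add_pow_char, hα]
      have h3 : ((n : R)) ^ p = (n : R) := by
        have : frobenius R p (n : R) = (n : R) := map_natCast _ _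
        rwa [frobenius_def] at this
      rw [h3]
      ring
    have hsub : Finset.univ.image (fun j : Fin p => α + ((j : ℕ) : R)) ⊆ (X ^ p - X - 1 : R[X]).roots.toFinset := by
      intro z hz
      obtain ⟨j, _, rfl⟩ := Finset.mem_image.1 hz
      rw [Multiset.mem_toFinset, mem_roots hmR.ne_zero, IsRoot.def, hev, hαn]
      ring
    have hcard : (X ^ p - X - 1 : R[X]).roots.toFinset.card ≤
        (Finset.univ.image (fun j : Fin p => α + ((j : ℕ) : R))).card := by
      rw [Finset.card_image_of_injective _ hinj, Finset.card_univ, Fintype.card_fin]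
      refine (Multiset.toFinset_card_le _).trans ((card_roots' _).trans hdR.le)
    have heq := Finset.eq_of_subset_of_card_le hsub hcard
    have hy' : y ∈ (X ^ p - X - 1 : R[X]).roots.toFinset := by
      rw [Multiset.mem_toFinset, mem_roots hmR.ne_zero, IsRoot.def, hev, hy]
      ring
    rw [← heq] at hy'
    obtain ⟨j, _, hj⟩ := Finset.mem_image.1 hy'
    exact ⟨j, hj.symm⟩
  -- `m` splits in `R`
  have hfR : f.map (algebraMap F R) = X ^ p - X - 1 := by
    rw [hf]
    simp
  have hspf : (X ^ p - X - 1 : R[X]).Splits := by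
    haveI : ExpChar R p := expChar_prime R p
    have h1 : (X ^ p - X - 1 : R[X]) = ∏ j : Fin p, (X - C (α + ((j : ℕ) : R))) := by
      have h2 : (∏ j : Fin p, (X - C (α + ((j : ℕ) : R)))).Monic := monic_prod_of_monic _ _ fun j _ => monic_X_sub_C _
      have h3 : (∏ j : Fin p, (X - C (α + ((j : ℕ) : R)))).natDegree = p := by
        rw [natDegree_prod_of_monic _ _ fun j _ => monic_X_sub_C _, Finset.sum_congr rfl fun j _ => natDegree_X_sub_C _]
        simp
      have h4 : (X ^ p - X - 1 : R[X]).degree = (∏ j : Fin p, (X - C (α + ((j : ℕ) : R)))).degree := by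
        rw [degree_eq_natDegree h2.ne_zero, degree_eq_natDegree hmR.ne_zero, h3, hdR]
      refine eq_of_degree_sub_lt_of_eval_index_eq (s := Finset.univ) (v := fun j : Fin p => α + ((j : ℕ) : R))
        (fun a _ b _ hab => ?_) ?_ ?_
      · have h1 : ((a : ℕ) : R) = ((b : ℕ) : R) := add_left_cancel hab
        have h2 := (CharP.natCast_eq_natCast R p).1 h1
        have h3 : (a : ℕ) % p = (b : ℕ) % p := h2
        rw [Nat.mod_eq_of_lt a.2, Nat.mod_eq_of_lt b.2] at h3
        exact Fin.ext h3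
      · refine (degree_sub_lt h4 hmR.ne_zero ?_).trans_eq ?_
        · rw [h2.leadingCoeff, hmR.leadingCoeff]
        · rw [degree_eq_natDegree hmR.ne_zero, hdR, Finset.card_univ, Fintype.card_fin]
      · intro j _
        rw [eval_prod, Finset.prod_eq_zero (Finset.mem_univ j)]
        · simp only [eval_sub, eval_pow, eval_X, eval_one]
          rw [add_pow_char, hα]
          have h3 : (((j : ℕ) : R)) ^ p = ((j : ℕ) : R) := by
            have : frobenius R p ((j : ℕ) : R) = ((j : ℕ) : R) := map_natCast _ _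
            rwa [frobenius_def] at this
          rw [h3]
          ring
        · simp
    rw [h1]
    exact Splits.prod fun j _ => Splits.X_sub_C _
  have hmmap : m.map (algebraMap F R) ∣ (X ^ p - X - 1 : R[X]) := by
    rw [← hfR]
    exact Polynomial.map_dvd _ hmf
  have hspm : (m.map (algebraMap F R)).Splits := hspf.of_dvd hmR.ne_zero hmmap
  have hmon : (m.map (algebraMap F R)).Monic := (minpoly.monic hint).map _
  have hnext := hspm.nextCoeff_eq_neg_sum_roots_of_monic hmon
  have hsum : ∀ s : Multiset R, (∀ y ∈ s, ∃ n : ℕ, y = α + n) → ∃ n : ℕ, s.sum = (Multiset.card s : R) * α + n := by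
    intro s
    induction s using Multiset.induction with
    | empty =>
      intro _
      exact ⟨0, by simp⟩
    | cons a s ih =>
      intro hs
      obtain ⟨n, hn⟩ := ih fun y hy => hs y (Multiset.mem_cons_of_mem hy)
      obtain ⟨l, hl⟩ := hs a (Multiset.mem_cons_self a s)
      refine ⟨l + n, ?_⟩
      rw [Multiset.sum_cons, Multiset.card_cons, hn, hl]
      push_cast
      ring
  obtain ⟨n, hn⟩ := hsum (m.map (algebraMap F R)).roots (fun y hy => by
    apply hroots
    have h1 : (X ^ p - X - 1 : R[X]).IsRoot y := (isRoot_of_mem_roots hy).dvd hmmap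
    rw [IsRoot.def] at h1
    simp only [eval_sub, eval_pow, eval_X, eval_one] at h1
    linear_combination h1)
  rw [hn, ← hspm.natDegree_eq_card_roots, natDegree_map] at hnext
  have hnF : (m.map (algebraMap F R)).nextCoeff ∈ F := by
    rw [nextCoeff_map (algebraMap F R).injective]
    exact (m.nextCoeff).2
  have hd0 : (m.natDegree : R) ≠ 0 := by
    intro h1
    have h2 := (CharP.cast_eq_zero_iff R p _).1 h1
    exact absurd (Nat.le_of_dvd hmpos h2) (not_le.2 hmdeg)
  apply hαF
  have h2 : α = (-(m.map (algebraMap F R)).nextCoeff - n) / (m.natDegree : R) := by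
    rw [eq_div_iff hd0, hnext]
    ring
  rw [h2]
  exact F.div_mem (F.sub_mem (F.neg_mem hnF) (natCast_mem F n)) (natCast_mem F _)

/-- the residue field of `V ∩ L'` -/
private def resF_ln1 {κ Ω : Type*} [Field κ] [Field Ω] [Algebra κ Ω] (L' : IntermediateField κ Ω) (V : ValuationSubring Ω) :
    Subfield (IsLocalRing.ResidueField V) where
  carrier := {r | ∃ x : V, (x : Ω) ∈ L' ∧ IsLocalRing.residue V x = r}
  zero_mem' := ⟨0, L'.zero_mem, map_zero _⟩
  one_mem' := ⟨1, L'.one_mem, map_one _⟩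
  add_mem' := by
    rintro _ _ ⟨x, hx, rfl⟩ ⟨y, hy, rfl⟩
    exact ⟨x + y, L'.add_mem hx hy, map_add _ _ _⟩
  mul_mem' := by
    rintro _ _ ⟨x, hx, rfl⟩ ⟨y, hy, rfl⟩
    exact ⟨x * y, L'.mul_mem hx hy, map_mul _ _ _⟩
  neg_mem' := by
    rintro _ ⟨x, hx, rfl⟩
    exact ⟨-x, L'.neg_mem hx, map_neg _ _⟩
  inv_mem' := by
    rintro _ ⟨x, hx, rfl⟩
    by_cases h : IsLocalRing.residue V x = 0
    · exact ⟨0, L'.zero_mem, by rw [h, inv_zero, map_zero]⟩
    · have h1 : IsUnit x := by
        by_contra h2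
        exact h ((IsLocalRing.residue_eq_zero_iff x).2 h2)
      obtain ⟨u, rfl⟩ := h1
      refine ⟨((u⁻¹ : Vˣ) : V), ?_, ?_⟩
      · have h2 : ((((u⁻¹ : Vˣ) : V)) : Ω) = ((u : V) : Ω)⁻¹ := by
          have h3 : ((u⁻¹ : Vˣ) : V) * (u : V) = 1 := by rw [← Units.val_mul, inv_mul_cancel, Units.val_one]
          exact eq_inv_of_mul_eq_one_left (congrArg Subtype.val h3)
        rw [h2]
        exact L'.inv_mem hx
      · refine eq_inv_of_mul_eq_one_left ?_
        rw [← map_mul, ← Units.val_mul, inv_mul_cancel, Units.val_one, map_one]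

private theorem unit_ln1 {κ Ω : Type*} [Field κ] [Field Ω] [Algebra κ Ω] (L' : IntermediateField κ Ω) {p : ℕ} [Fact p.Prime]
    (V : ValuationSubring Ω) (hp : V.valuation (p : Ω) < 1)
    (hres : ∀ x ∈ L', x ∈ V → ∃ q : ℤ[X], ired p q ≠ 0 ∧ q.natDegree < p ∧ V.valuation (aeval x q) < 1)
    (θ : Ω) (hθ : θ ^ p = θ + 1) (b : ℕ → Ω) (hb : ∀ i, b i ∈ V) (hbL : ∀ i, b i ∈ L') (i₀ : ℕ) (hi₀ : i₀ < p) (hb₀ : b i₀ = 1) :
    V.valuation (∑ i ∈ Finset.range p, b i * θ ^ i) = 1 := by
  have hθV : θ ∈ V := mem_V_ln1 V θ hθ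
  set s : V := ∑ i ∈ Finset.range p, (⟨b i, hb i⟩ : V) * (⟨θ, hθV⟩ : V) ^ i with hs
  have hsc : (s : Ω) = ∑ i ∈ Finset.range p, b i * θ ^ i := by
    rw [hs]
    push_cast
    rfl
  rw [← hsc]
  by_contra hcon
  have hlt : V.valuation (s : Ω) < 1 := lt_of_le_of_ne ((V.valuation_le_one_iff _).2 s.2) hcon
  have hs0 : IsLocalRing.residue V s = 0 := by
    rw [IsLocalRing.residue_eq_zero_iff, V.valuation_lt_one_iff]
    exact hlt
  have hp0 : ((p : ℕ) : IsLocalRing.ResidueField V) = 0 := by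
    rw [← map_natCast (IsLocalRing.residue V), IsLocalRing.residue_eq_zero_iff, V.valuation_lt_one_iff]
    exact hp
  haveI : CharP (IsLocalRing.ResidueField V) p :=
    (CharP.charP_iff_prime_eq_zero (Fact.out : p.Prime)).2 hp0
  have hα : (IsLocalRing.residue V ⟨θ, hθV⟩) ^ p = IsLocalRing.residue V ⟨θ, hθV⟩ + 1 := by
    rw [← map_pow, ← map_one (IsLocalRing.residue V), ← map_add]
    congr 1
    exact Subtype.ext hθ
  have hF : ∀ r ∈ resF_ln1 L' V, ∃ q : ℤ[X], ired p q ≠ 0 ∧ q.natDegree < p ∧ aeval r q = 0 := by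
    rintro _ ⟨x, hx, rfl⟩
    obtain ⟨q, h1, h2, h3⟩ := hres x hx x.2
    refine ⟨q, h1, h2, ?_⟩
    have h4 : ((aeval x q : V) : Ω) = aeval (x : Ω) q :=
      (Polynomial.aeval_algHom_apply V.subtype.toIntAlgHom x q).symm
    have h5 : aeval (IsLocalRing.residue V x) q = IsLocalRing.residue V (aeval x q) :=
      Polynomial.aeval_algHom_apply (IsLocalRing.residue V).toIntAlgHom x q
    rw [h5, IsLocalRing.residue_eq_zero_iff, V.valuation_lt_one_iff, h4]
    exact h3
  have hsum : ∑ i ∈ Finset.range p, IsLocalRing.residue V ⟨b i, hb i⟩ *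
      (IsLocalRing.residue V ⟨θ, hθV⟩) ^ i = 0 := by
    rw [← hs0, hs, map_sum]
    refine Finset.sum_congr rfl fun i hi => ?_
    rw [map_mul, map_pow]
  have h1 := indep_ln1 (resF_ln1 L' V) hF _ hα (fun i => IsLocalRing.residue V ⟨b i, hb i⟩)
    (fun i => ⟨⟨b i, hb i⟩, hbL i, rfl⟩) hsum i₀ hi₀
  have h2 : (⟨b i₀, hb i₀⟩ : V) = 1 := Subtype.ext hb₀
  beta_reduce at h1
  rw [h2, map_one] at h1
  exact one_ne_zero h1

/-- the coefficient of the largest valuation -/
private theorem coef_ln1 {κ Ω : Type*} [Field κ] [Field Ω] [Algebra κ Ω] (L' : IntermediateField κ Ω) {p : ℕ} [Fact p.Prime]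
    (V : ValuationSubring Ω) (hp : V.valuation (p : Ω) < 1)
    (hres : ∀ x ∈ L', x ∈ V → ∃ q : ℤ[X], ired p q ≠ 0 ∧ q.natDegree < p ∧ V.valuation (aeval x q) < 1)
    (a : ℕ → Ω) (haL : ∀ i, a i ∈ L') (hne : ∃ i < p, a i ≠ 0) :
    ∃ c ∈ L', c ≠ 0 ∧ ∀ θ : Ω, θ ^ p = θ + 1 → V.valuation (∑ i ∈ Finset.range p, a i * θ ^ i) = V.valuation c := by
  obtain ⟨i₁, hi₁, hai₁⟩ := hne
  obtain ⟨i₀, hi₀, hmax⟩ := Finset.exists_max_image (Finset.range p) (fun i => V.valuation (a i))
    ⟨i₁, Finset.mem_range.2 hi₁⟩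
  have hc0 : a i₀ ≠ 0 := by
    intro h
    have h1 := hmax i₁ (Finset.mem_range.2 hi₁)
    simp only [h, map_zero] at h1
    exact hai₁ ((V.valuation.zero_iff).1 (le_zero_iff.1 h1))
  have hi₀p : i₀ < p := Finset.mem_range.1 hi₀
  have hvc : V.valuation (a i₀) ≠ 0 := (V.valuation.ne_zero_iff).2 hc0
  let b : ℕ → Ω := fun i => if i < p then a i / a i₀ else 0
  have hbL : ∀ i, b i ∈ L' := by
    intro i
    simp only [b]
    by_cases hi : i < p
    · rw [if_pos hi]; exact L'.div_mem (haL i) (haL i₀)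
    · rw [if_neg hi]; exact L'.zero_mem
  have hmem : ∀ i, b i ∈ V := by
    intro i
    simp only [b]
    by_cases hi : i < p
    · rw [if_pos hi, ← V.valuation_le_one_iff, map_div₀]
      exact (div_le_one₀ (zero_lt_iff.2 hvc)).2 (hmax i (Finset.mem_range.2 hi))
    · rw [if_neg hi]; exact V.zero_mem
  refine ⟨a i₀, haL i₀, hc0, fun θ hθ => ?_⟩
  have h1 := unit_ln1 L' V hp hres θ hθ b hmem hbL i₀ hi₀p (by
    simp only [b]
    rw [if_pos hi₀p, div_self hc0])
  have h2 : ∑ i ∈ Finset.range p, a i * θ ^ i = a i₀ * ∑ i ∈ Finset.range p, b i * θ ^ i := by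
    rw [Finset.mul_sum]
    refine Finset.sum_congr rfl fun i hi => ?_
    simp only [b]
    rw [if_pos (Finset.mem_range.1 hi), ← mul_assoc, mul_div_cancel₀ _ hc0]
  rw [h2, map_mul, h1, mul_one]

variable {k κ Ω : Type} [Field k] [CharZero k] [Field κ] [CharZero κ] [Field Ω] [IsAlgClosed Ω] [Algebra k Ω] [Algebra (RatFunc k) Ω]
  [IsScalarTower k (RatFunc k) Ω] [Algebra κ Ω] [Algebra (RatFunc k) κ] [IsScalarTower (RatFunc k) κ Ω]
  [FiniteDimensional (RatFunc k) κ] {p : ℕ} [Fact p.Prime] {σ : k →+* ℚ_[p]} {L : IntermediateField (RatFunc k) Ω} {nm : Ω → ℝ}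

omit [CharZero k] [IsScalarTower k (RatFunc k) Ω] [Algebra (RatFunc k) κ] [IsScalarTower (RatFunc k) κ Ω]
  [FiniteDimensional (RatFunc k) κ] in
theorem as_rootsg {L' : IntermediateField κ Ω} (hL : LExt L L' p) (V : ValuationSubring Ω) (hVp : V.valuation (p : Ω) < 1)
    (hres : ∀ x ∈ L', x ∈ V → ∃ q : ℤ[X], ired p q ≠ 0 ∧ q.natDegree < p ∧ V.valuation (aeval x q) < 1) :
    ∃ (θ : algebraicClosure κ Ω) (τ : Fin p → (algebraicClosure κ Ω ≃ₐ[κ] algebraicClosure κ Ω)),
      (∀ j, Fix (L' : Set Ω) (τ j)) ∧ Function.Injective (fun j => τ j θ) ∧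
      (∏ j, (X - C (τ j θ)) = X ^ p - X - 1) ∧
      (∀ l ∈ IntermediateField.adjoin κ ((L' : Set Ω) ∪ {(θ : Ω)}), ∃ A : L'[X], A.natDegree < p ∧ l = aeval (θ : Ω) A) ∧
      ∀ A : L'[X], A ≠ 0 → A.natDegree < p → ∃ c ∈ L', c ≠ 0 ∧
        ∏ j, V.valuation (aeval ((τ j θ : algebraicClosure κ Ω) : Ω) A) = V.valuation c ^ p := by
  have hpp : p.Prime := Fact.out
  haveI : IsGalois κ (algebraicClosure κ Ω) := ⟨⟩
  haveI : IsAlgClosed (algebraicClosure κ Ω) := IsAlgClosure.isAlgClosed κ
  obtain ⟨θ, τ, h1, h2, h3, h4⟩ := gal_ln1 (K := κ) (M := algebraicClosure κ Ω)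
    (L'.comap (algebraicClosure κ Ω).val) p (by
      intro A hA hd θ hθ h0
      obtain ⟨c, hcL, hc0, hc⟩ := coef_ln1 L' V hVp hres
        (fun i => (((A.coeff i : _) : algebraicClosure κ Ω) : Ω)) (fun i => (A.coeff i).2)
        ⟨A.natDegree, hd, fun h => hA (by
          have h5 : A.coeff A.natDegree = 0 := Subtype.ext (Subtype.ext h)
          exact leadingCoeff_eq_zero.1 h5)⟩
      have h5 := hc (θ : Ω) (by
        have := congrArg (fun x : algebraicClosure κ Ω => (x : Ω)) hθ
        simpa using this)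
      have h6 : ((aeval θ A : algebraicClosure κ Ω) : Ω) =
          ∑ i ∈ Finset.range p, (((A.coeff i : _) : algebraicClosure κ Ω) : Ω) * (θ : Ω) ^ i := by
        rw [Polynomial.aeval_eq_sum_range' hd, AddSubmonoidClass.coe_finsetSum]
        refine Finset.sum_congr rfl fun i _ => ?_
        rw [Algebra.smul_def]
        rfl
      rw [← h6, h0] at h5
      have h7 : V.valuation ((0 : algebraicClosure κ Ω) : Ω) = 0 := by simp
      rw [h7] at h5
      exact hc0 ((V.valuation.zero_iff).1 h5.symm))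
  have hroot : ∀ j, ((τ j θ : algebraicClosure κ Ω) : Ω) ^ p =
      ((τ j θ : algebraicClosure κ Ω) : Ω) + 1 := by
    intro j
    have := congrArg (fun x : algebraicClosure κ Ω => (x : Ω)) (h4 j)
    simpa using this
  have hθ : (θ : Ω) ^ p = (θ : Ω) + 1 := by
    have j : Fin p := ⟨0, hpp.pos⟩
    have h5 := h4 j
    rw [← map_pow, ← map_one (τ j), ← map_add] at h5
    have h6 := (τ j).injective h5
    have := congrArg (fun x : algebraicClosure κ Ω => (x : Ω)) h6
    simpa using this
  refine ⟨θ, τ, ?_, h2, h3, ?_, ?_⟩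
  · intro j x hx
    exact h1 j x hx
  · intro l hl
    obtain ⟨hd, hm⟩ := deg_ln1 p hpp L'
    have h0 : aeval (θ : Ω) (X ^ p - X - 1 : L'[X]) = 0 := by
      simp only [map_sub, map_pow, aeval_X, map_one]
      rw [hθ]
      ring
    have hint : IsIntegral L' (θ : Ω) := ⟨_, hm, h0⟩
    rw [← IntermediateField.restrictScalars_adjoin] at hl
    have hl' : l ∈ (IntermediateField.adjoin L' {(θ : Ω)}).toSubalgebra := hl
    rw [IntermediateField.adjoin_simple_toSubalgebra_of_isAlgebraic hint.isAlgebraic,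
      Algebra.adjoin_singleton_eq_range_aeval] at hl'
    obtain ⟨A, hA⟩ := hl'
    refine ⟨A %ₘ (X ^ p - X - 1 : L'[X]), ?_, ?_⟩
    · have h5 : (X ^ p - X - 1 : L'[X]) ≠ 1 := by
        intro h5
        rw [h5, natDegree_one] at hd
        exact hpp.ne_zero hd.symm
      exact (natDegree_modByMonic_lt A hm h5).trans_eq hd
    · rw [aeval_modByMonic_eq_self_of_root h0]
      exact hA.symm
  · intro A hA hd
    obtain ⟨c, hcL, hc0, hc⟩ := coef_ln1 L' V hVp hres
      (fun i => ((A.coeff i : L') : Ω)) (fun i => (A.coeff i).2)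
      ⟨A.natDegree, hd, fun h => hA (by
        have h5 : A.coeff A.natDegree = 0 := Subtype.ext h
        exact leadingCoeff_eq_zero.1 h5)⟩
    refine ⟨c, hcL, hc0, ?_⟩
    have h5 : ∀ t : Ω, t ^ p = t + 1 → V.valuation (aeval t A) = V.valuation c := by
      intro t ht
      rw [← hc t ht, Polynomial.aeval_eq_sum_range' hd]
      congr 1
    rw [Finset.prod_congr rfl fun j _ => h5 _ (hroot j), Finset.prod_const, Finset.card_univ,
      Fintype.card_fin]


end BSC
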