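import Pool.Agent.Lib_MP_49ddc8_l.LDefs

/-!
# [L-V2] The valuation of rank two on `L'`

`v2_ne`: suppose `V.valuation u = V.valuation n ^ p`, `n ∈ L'`.  `DepOver` for `1, n, .., n ^ (p - 1)`: `∑ c i * n ^ i = 0`, so two nonzero terms have the same valuation, `V.valuation n ^ d = V.valuation c`, `c ∈ L`, `0 < d < p`.  Bezout `a d + b p = 1`: `V.valuation n = V.valuation (c ^ a u ^ b)`, `n₁ = c ^ a u ^ b ∈ L`,
`V.valuation u = V.valuation n₁ ^ p`, contradiction to `hV3`.

`v2_res`: `DepOver` for `1, x, .., x ^ (p - 1)`: divide by the `c i` of largest valuation: `c i ∈ V`, one is `1`; `hV2`: `c i ≡ r i ∈ ℤ`; `q = ∑ r i X ^ i` (`V.valuation p < 1`, so `r i` is not divisible by `p` for that `i`).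
-/

set_option autoImplicit false

open Polynomial

namespace BSC

variable {k κ Ω : Type} [Field k] [CharZero k] [Field κ] [CharZero κ] [Field Ω] [IsAlgClosed Ω] [Algebra k Ω] [Algebra (RatFunc k) Ω]
  [IsScalarTower k (RatFunc k) Ω] [Algebra κ Ω] [Algebra (RatFunc k) κ] [IsScalarTower (RatFunc k) κ Ω]
  [FiniteDimensional (RatFunc k) κ] {p : ℕ} [Fact p.Prime] {σ : k →+* ℚ_[p]} {L : IntermediateField (RatFunc k) Ω} {nm : Ω → ℝ}

/-- the largest value of finitely many elements, attained by a nonzero one -/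
private theorem lv2_max {Ω : Type} [Field Ω] (V : ValuationSubring Ω) {p : ℕ} (a : Fin p → Ω) (h : ∃ i, a i ≠ 0) :
    ∃ i, a i ≠ 0 ∧ ∀ j, V.valuation (a j) ≤ V.valuation (a i) := by
  classical
  obtain ⟨i₁, h₁⟩ := h
  obtain ⟨i, -, hi⟩ := Finset.exists_max_image (Finset.univ : Finset (Fin p)) (fun j => V.valuation (a j))
    ⟨i₁, Finset.mem_univ _⟩
  refine ⟨i, ?_, fun j => hi j (Finset.mem_univ _)⟩
  intro h0
  have h2 := hi i₁ (Finset.mem_univ _)
  rw [h0, map_zero] at h2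
  have h3 : V.valuation (a i₁) = 0 := le_antisymm h2 zero_le
  exact h₁ ((V.valuation.zero_iff).mp h3)

/-- two terms of a vanishing sum have the same value -/
private theorem lv2_two {Ω : Type} [Field Ω] (V : ValuationSubring Ω) {p : ℕ} (a : Fin p → Ω) (h : ∃ i, a i ≠ 0)
    (hs : ∑ i, a i = 0) : ∃ i j, i < j ∧ a i ≠ 0 ∧ a j ≠ 0 ∧ V.valuation (a i) = V.valuation (a j) := by
  classical
  obtain ⟨i, hi0, hi⟩ := lv2_max V a h
  by_cases hj : ∃ j, j ≠ i ∧ V.valuation (a j) = V.valuation (a i)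
  · obtain ⟨j, hji, hj⟩ := hj
    have hj0 : a j ≠ 0 := by
      intro h0
      rw [h0, map_zero] at hj
      exact hi0 ((V.valuation.zero_iff).mp hj.symm)
    rcases lt_or_gt_of_ne hji with h1 | h1
    · exact ⟨j, i, h1, hj0, hi0, hj⟩
    · exact ⟨i, j, h1, hi0, hj0, hj.symm⟩
  · exfalso
    have h1 : V.valuation (∑ l, a l) = V.valuation (a i) := by
      apply Valuation.map_sum_eq_of_lt _ (Finset.mem_univ i)
      intro l hl
      rw [Finset.mem_sdiff, Finset.mem_singleton] at hl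
      exact lt_of_le_of_ne (hi l) (fun h2 => hj ⟨l, hl.2, h2⟩)
    rw [hs, map_zero] at h1
    exact hi0 ((V.valuation.zero_iff).mp h1.symm)

omit [CharZero k] [CharZero κ] [IsAlgClosed Ω] [IsScalarTower k (RatFunc k) Ω] [Algebra (RatFunc k) κ] [IsScalarTower (RatFunc k) κ Ω]
  [FiniteDimensional (RatFunc k) κ] in
theorem v2_ne {L' : IntermediateField κ Ω} (hL : LExt L L' p) (V : ValuationSubring Ω)
    (hV3 : ∀ n ∈ L, n ≠ 0 → V.valuation (tt k Ω) ≠ V.valuation n ^ p) :
    ∀ n ∈ L', n ≠ 0 → V.valuation (tt k Ω) ≠ V.valuation n ^ p := by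
  intro n hn hn0 hv
  have hp : p.Prime := Fact.out
  have htL : tt k Ω ∈ L := L.algebraMap_mem _
  have ht0 : tt k Ω ≠ 0 := by
    intro h0
    have h1 : V.valuation n ^ p = 0 := by rw [← hv, h0, map_zero]
    exact hn0 ((V.valuation.zero_iff).mp (eq_zero_of_pow_eq_zero h1))
  obtain ⟨c, hc, hc0, hs⟩ := hL.dep (fun i => n ^ (i : ℕ)) (fun i => pow_mem hn _)
  obtain ⟨i, j, hij, hi0, hj0, hv2⟩ := lv2_two V (fun l => c l * n ^ (l : ℕ))
    (by
      obtain ⟨l, hl⟩ := hc0
      exact ⟨l, mul_ne_zero hl (pow_ne_zero _ hn0)⟩) hs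
  have hci : c i ≠ 0 := left_ne_zero_of_mul hi0
  have hcj : c j ≠ 0 := left_ne_zero_of_mul hj0
  obtain ⟨d, hd⟩ := Nat.exists_eq_add_of_lt (show (i : ℕ) < (j : ℕ) from hij)
  have hvn : V.valuation n ≠ 0 := (V.valuation.ne_zero_iff).mpr hn0
  have hvcj : V.valuation (c j) ≠ 0 := (V.valuation.ne_zero_iff).mpr hcj
  have h1 : V.valuation n ^ (d + 1) = V.valuation (c i / c j) := by
    rw [map_div₀, eq_div_iff hvcj]
    rw [map_mul, map_mul, map_pow, map_pow, hd, add_assoc, pow_add] at hv2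
    have h2 : V.valuation n ^ (i : ℕ) * (V.valuation n ^ (d + 1) * V.valuation (c j)) =
        V.valuation n ^ (i : ℕ) * V.valuation (c i) := by
      rw [mul_comm (V.valuation n ^ (i : ℕ)) (V.valuation (c i)), hv2, mul_comm (V.valuation (c j)), mul_assoc]
    exact mul_left_cancel₀ (pow_ne_zero _ hvn) h2
  have hdp : d + 1 < p := by
    have := j.isLt
    omega
  have hcop : IsCoprime ((d + 1 : ℕ) : ℤ) (p : ℤ) := by
    rw [Nat.isCoprime_iff_coprime]
    exact (Nat.coprime_of_lt_prime (by omega) hdp hp).symm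
  obtain ⟨a, b, hab⟩ := hcop
  have hcL : c i / c j ∈ L := div_mem (hc i) (hc j)
  have hcc : c i / c j ≠ 0 := div_ne_zero hci hcj
  have h3 : V.valuation n = V.valuation ((c i / c j) ^ a * (tt k Ω) ^ b) := by
    rw [map_mul, map_zpow₀, map_zpow₀, ← h1, hv, ← zpow_natCast, ← zpow_natCast, ← zpow_mul, ← zpow_mul, ← zpow_add₀ hvn]
    have h4 : ((d + 1 : ℕ) : ℤ) * a + (p : ℤ) * b = 1 := by
      rw [← hab]
      ring
    rw [h4, zpow_one]
  apply hV3 _ (mul_mem (zpow_mem hcL a) (zpow_mem htL b)) (mul_ne_zero (zpow_ne_zero _ hcc) (zpow_ne_zero _ ht0))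
  rw [← h3]
  exact hv

omit [CharZero k] [CharZero κ] [IsAlgClosed Ω] [IsScalarTower k (RatFunc k) Ω] [Algebra (RatFunc k) κ] [IsScalarTower (RatFunc k) κ Ω]
  [FiniteDimensional (RatFunc k) κ] in
theorem v2_res {L' : IntermediateField κ Ω} (hL : LExt L L' p) (V : ValuationSubring Ω) (hVp : V.valuation (p : Ω) < 1)
    (hV2 : ∀ x ∈ L, x ∈ V → ∃ r : ℤ, V.valuation (x - (r : Ω)) < 1) :
    ∀ x ∈ L', x ∈ V → ∃ q : ℤ[X], ired p q ≠ 0 ∧ q.natDegree < p ∧ V.valuation (aeval x q) < 1 := by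
  classical
  intro x hx hxV
  have hp : p.Prime := Fact.out
  obtain ⟨c, hc, hc0, hs⟩ := hL.dep (fun i => x ^ (i : ℕ)) (fun i => pow_mem hx _)
  obtain ⟨i, hi0, hi⟩ := lv2_max V c hc0
  have hvi : V.valuation (c i) ≠ 0 := (V.valuation.ne_zero_iff).mpr hi0
  have hcV : ∀ j, c j / c i ∈ V := by
    intro j
    rw [← V.valuation_le_one_iff, map_div₀]
    exact div_le_one_of_le₀ (hi j) zero_le
  choose r hr using fun j => hV2 (c j / c i) (div_mem (hc j) (hc i)) (hcV j)
  have hxv : V.valuation x ≤ 1 := (V.valuation_le_one_iff x).mpr hxV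
  let q : ℤ[X] := ∑ j : Fin p, monomial (j : ℕ) (r j)
  have hq : aeval x q = ∑ j : Fin p, (r j : Ω) * x ^ (j : ℕ) := by
    show aeval x (∑ j : Fin p, monomial (j : ℕ) (r j)) = _
    rw [map_sum]
    apply Finset.sum_congr rfl
    intro j _
    rw [aeval_monomial]
    rfl
  have hcf : ∀ j : Fin p, q.coeff (j : ℕ) = r j := by
    intro j
    show (∑ l : Fin p, monomial (l : ℕ) (r l)).coeff (j : ℕ) = _
    rw [finsetSum_coeff, Finset.sum_eq_single j]
    · rw [coeff_monomial, if_pos rfl]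
    · intro l _ hl
      rw [coeff_monomial, if_neg (fun h => hl (Fin.ext h))]
    · intro h
      exact absurd (Finset.mem_univ j) h
  refine ⟨q, ?_, ?_, ?_⟩
  · intro h0
    have h1 : (ired p q).coeff (i : ℕ) = 0 := by rw [h0, coeff_zero]
    unfold ired at h1
    rw [coeff_map, hcf i] at h1
    have h2 : ((r i : ℤ) : ZMod p) = 0 := h1
    rw [ZMod.intCast_zmod_eq_zero_iff_dvd] at h2
    obtain ⟨m, hm⟩ := h2
    have h3 := hr i
    rw [div_self hi0] at h3
    have h4 : V.valuation ((r i : ℤ) : Ω) < 1 := by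
      rw [hm, Int.cast_mul, Int.cast_natCast, map_mul]
      have h5 : V.valuation ((m : ℤ) : Ω) ≤ 1 := (V.valuation_le_one_iff _).mpr (intCast_mem V m)
      calc V.valuation (p : Ω) * V.valuation ((m : ℤ) : Ω) ≤ V.valuation (p : Ω) * 1 :=
            mul_le_mul_right h5 _
        _ = V.valuation (p : Ω) := mul_one _
        _ < 1 := hVp
    have h6 : V.valuation (((1 : Ω) - (r i : Ω)) + (r i : Ω)) < 1 := V.valuation.map_add_lt h3 h4
    rw [sub_add_cancel, map_one] at h6
    exact lt_irrefl _ h6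
  · have h1 : q.natDegree ≤ p - 1 := by
      rw [natDegree_le_iff_coeff_eq_zero]
      intro N hN
      show (∑ l : Fin p, monomial (l : ℕ) (r l)).coeff N = 0
      rw [finsetSum_coeff]
      apply Finset.sum_eq_zero
      intro l _
      rw [coeff_monomial, if_neg]
      have := l.isLt
      omega
    have := hp.pos
    omega
  · have h1 : ∑ j : Fin p, (c j / c i) * x ^ (j : ℕ) = 0 := by
      have h2 : ∑ j : Fin p, (c j / c i) * x ^ (j : ℕ) = (c i)⁻¹ * ∑ j : Fin p, c j * x ^ (j : ℕ) := by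
        rw [Finset.mul_sum]
        apply Finset.sum_congr rfl
        intro j _
        rw [div_eq_mul_inv]
        ring
      rw [h2, hs, mul_zero]
    have h2 : aeval x q = ∑ j : Fin p, ((r j : Ω) - c j / c i) * x ^ (j : ℕ) := by
      rw [hq, ← sub_zero (∑ j : Fin p, (r j : Ω) * x ^ (j : ℕ)), ← h1, ← Finset.sum_sub_distrib]
      apply Finset.sum_congr rfl
      intro j _
      rw [sub_mul]
    rw [h2]
    apply Valuation.map_sum_lt _ one_ne_zero
    intro j _
    rw [map_mul, map_pow]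
    have h3 : V.valuation ((r j : Ω) - c j / c i) < 1 := by
      rw [Valuation.map_sub_swap]
      exact hr j
    calc V.valuation ((r j : Ω) - c j / c i) * V.valuation x ^ (j : ℕ)
        ≤ V.valuation ((r j : Ω) - c j / c i) * 1 := mul_le_mul_right (pow_le_one₀ zero_le hxv) _
      _ = V.valuation ((r j : Ω) - c j / c i) := mul_one _
      _ < 1 := h3

end BSC
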