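import Pool.Agent.Lib_MP_49ddc8_l.LHe
import Pool.Agent.Lib_MP_49ddc8_l.LV2
import Pool.Agent.Lib_MP_49ddc8_l.LN1
import Pool.Agent.Lib_MP_49ddc8_v.VTw
import Pool.Agent.Lib_MP_49ddc8_v.VKp

/-!
# [L-NO] `u` is not a `p`-th power in the residue field of `S.F L'`

Adaptation of Lib_MP_49ddc8_v/VNo.lean with `L'` for `L`: `hensg_as` (`B = L'`), `exists_V2 hG` (for `L`; `V.valuation p < 1` as `nm p < 1`), `v2_ne`, `v2_res`, `as_rootsg`, `kp` for `A = L' ∪ {θ}`, `mem_adjoin`.
-/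

set_option autoImplicit false

open Polynomial

namespace BSC

variable {k κ Ω : Type} [Field k] [CharZero k] [Field κ] [CharZero κ] [Field Ω] [IsAlgClosed Ω] [Algebra k Ω] [Algebra (RatFunc k) Ω]
  [IsScalarTower k (RatFunc k) Ω] [Algebra κ Ω] [Algebra (RatFunc k) κ] [IsScalarTower (RatFunc k) κ Ω]
  [FiniteDimensional (RatFunc k) κ] {p : ℕ} [Fact p.Prime] {σ : k →+* ℚ_[p]} {L : IntermediateField (RatFunc k) Ω} {nm : Ω → ℝ}

private theorem LNo_tt_mem (L : IntermediateField (RatFunc k) Ω) : tt k Ω ∈ L := L.algebraMap_mem RatFunc.X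

omit [CharZero k] [CharZero κ] [IsAlgClosed Ω] [Algebra (RatFunc k) κ] [IsScalarTower (RatFunc k) κ Ω]
  [FiniteDimensional (RatFunc k) κ] [Field κ] [Algebra κ Ω] in
private theorem LNo_nm_tt (hG : GN p σ L nm) : nm (tt k Ω) = 1 := by
  apply le_antisymm
  · have h := hG.poly_le (X : k[X]) 1 zero_le_one (fun i => by
      rw [Polynomial.coeff_X]
      split_ifs
      · simp
      · simp)
    rwa [aeval_X] at h
  · have h := hG.poly_ge (X : k[X]) 1
    rw [Polynomial.coeff_X_one, map_one, norm_one, aeval_X] at h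
    exact h

private theorem LNo_s_aeval (S : Sec κ Ω) {L' : IntermediateField κ Ω} (hL : ∀ x ∈ L', IsAlgebraic κ x)
    (ρ : algebraicClosure κ Ω ≃ₐ[κ] algebraicClosure κ Ω) (hρ : Fix (L' : Set Ω) ρ) (A : L'[X])
    (θ : algebraicClosure κ Ω) :
    S.s ρ (aeval (θ : Ω) A) = aeval ((ρ θ : algebraicClosure κ Ω) : Ω) A := by
  rw [aeval_eq_sum_range, aeval_eq_sum_range, map_sum]
  refine Finset.sum_congr rfl fun i _ => ?_
  rw [Algebra.smul_def, Algebra.smul_def, map_mul, map_pow, S.res]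
  congr 1
  have h1 : (algebraMap L' Ω) (A.coeff i) ∈ S.F (L' : Set Ω) := mem_F_of_mem S _ _ (A.coeff i).2 (hL _ (A.coeff i).2)
  exact h1 ρ hρ

theorem no_rootg (hp2 : p ≠ 2) (hG : GN p σ L nm) (S : Sec κ Ω) (W : ValuationSubring Ω) (hW : GW S L nm W)
    (L' : IntermediateField κ Ω) (hL : LExt L L' p) : ¬ ∃ b ∈ S.F (L' : Set Ω), W.valuation (b ^ p - tt k Ω) < 1 := by
  rintro ⟨b, hb, hlt⟩
  have hpp : p.Prime := Fact.out
  have hodd : Odd p := hpp.odd_of_ne_two hp2
  have hLalg := hL.alg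
  have hu0' : tt k Ω ∈ L := LNo_tt_mem L
  have hu : tt k Ω ∈ L' := hL.le hu0'
  have huF : tt k Ω ∈ S.F (L' : Set Ω) := mem_F_of_mem S _ _ hu (hLalg _ hu)
  have hu1 : W.valuation (tt k Ω) = 1 := by
    apply le_antisymm
    · rw [ValuationSubring.valuation_le_one_iff, hW.mem _ (hLalg _ hu), LNo_nm_tt hG]
    · rw [← not_lt, hW.mem_lt hG _ (hLalg _ hu), LNo_nm_tt hG]
      exact lt_irrefl _
  have hbp : W.valuation (b ^ p) = 1 := by
    have h1 : b ^ p = tt k Ω + (b ^ p - tt k Ω) := by ring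
    rw [h1, Valuation.map_add_eq_of_lt_left _ (by rw [hu1]; exact hlt), hu1]
  have hb0 : b ≠ 0 := by
    rintro rfl
    rw [zero_pow hpp.ne_zero, map_zero] at hbp
    exact zero_ne_one hbp
  have hbp0 : b ^ p ≠ 0 := pow_ne_zero _ hb0
  have ha : (tt k Ω - b ^ p) / b ^ p ∈ S.F (L' : Set Ω) :=
    div_mem (sub_mem huF (pow_mem hb p)) (pow_mem hb p)
  have hav : W.valuation ((tt k Ω - b ^ p) / b ^ p) < 1 := by
    rw [map_div₀, hbp, div_one, Valuation.map_sub_swap]
    exact hlt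
  obtain ⟨c, hc, hca⟩ := hensg_as hG S W hW (L' : Set Ω) hL.le _ ha hav
  obtain ⟨V, hV1, hV2, hV3⟩ := exists_V2 hG
  have hVp : V.valuation (p : Ω) < 1 := by
    refine hV1 _ (natCast_mem L p) ?_
    rw [hG.nm_p]
    exact inv_lt_one_of_one_lt₀ (by exact_mod_cast hpp.one_lt)
  have hV3' := v2_ne hL V hV3
  obtain ⟨θ, τ, hτ, hinj, hprod, hadj, hval⟩ := as_rootsg hL V hVp (v2_res hL V hVp hV2)
  -- the roots
  have hprodΩ : ∏ j, (X - C ((τ j θ : algebraicClosure κ Ω) : Ω)) = (X ^ p - X - 1 : Polynomial Ω) := by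
    have h := congrArg (Polynomial.map (algebraMap (algebraicClosure κ Ω) Ω)) hprod
    rw [Polynomial.map_prod] at h
    simpa using h
  have hroots : ∀ x : algebraicClosure κ Ω, x ^ p - x - 1 = 0 → ∃ j, x = τ j θ := by
    intro x hx
    have h := congrArg (Polynomial.eval x) hprod
    rw [Polynomial.eval_prod] at h
    have h2 : ∏ j, Polynomial.eval x (X - C (τ j θ)) = 0 := by
      rw [h]
      simpa using hx
    obtain ⟨j, _, hj⟩ := Finset.prod_eq_zero_iff.1 h2
    refine ⟨j, ?_⟩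
    rw [Polynomial.eval_sub, Polynomial.eval_X, Polynomial.eval_C] at hj
    exact sub_eq_zero.1 hj
  have hroot : ∀ j, (τ j θ) ^ p - τ j θ - 1 = 0 := by
    intro j
    have h := congrArg (Polynomial.eval (τ j θ)) hprod
    rw [Polynomial.eval_prod, Finset.prod_eq_zero (Finset.mem_univ j) (by simp)] at h
    have h2 : (0 : algebraicClosure κ Ω) = τ j θ ^ p - τ j θ - 1 := by simpa using h
    exact h2.symm
  have hprodc : ∏ j, (c + ((τ j θ : algebraicClosure κ Ω) : Ω)) = c ^ p - c + 1 := by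
    have h := congrArg (Polynomial.eval (-c)) hprodΩ
    rw [Polynomial.eval_prod] at h
    have h2 : ∏ j, Polynomial.eval (-c) (X - C ((τ j θ : algebraicClosure κ Ω) : Ω))
        = ∏ j, (-1 * (c + ((τ j θ : algebraicClosure κ Ω) : Ω))) := by
      refine Finset.prod_congr rfl fun j _ => ?_
      rw [Polynomial.eval_sub, Polynomial.eval_X, Polynomial.eval_C]
      ring
    rw [h2, Finset.prod_mul_distrib, Finset.prod_const, Finset.card_univ, Fintype.card_fin, hodd.neg_one_pow] at h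
    have h3 : Polynomial.eval (-c) (X ^ p - X - 1 : Polynomial Ω) = -(c ^ p - c + 1) := by
      simp only [Polynomial.eval_sub, Polynomial.eval_pow, Polynomial.eval_X, Polynomial.eval_one, hodd.neg_pow]
      ring
    rw [h3, neg_one_mul] at h
    exact neg_injective h
  have hprody : ∏ j, (b * (c + ((τ j θ : algebraicClosure κ Ω) : Ω))) = tt k Ω := by
    rw [Finset.prod_mul_distrib, Finset.prod_const, Finset.card_univ, Fintype.card_fin, hprodc, hca]
    field_simp
    ring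
  have hu0 : tt k Ω ≠ 0 := by
    intro h
    rw [h, map_zero] at hu1
    exact zero_ne_one hu1
  -- the set `L ∪ {θ}`
  set A₀ : Set Ω := (L' : Set Ω) ∪ {(θ : Ω)} with hA₀
  have hA₀alg : ∀ x ∈ A₀, IsAlgebraic κ x := by
    rintro x (hx | hx)
    · exact hLalg x hx
    · rw [Set.mem_singleton_iff] at hx
      rw [hx]
      exact mem_algebraicClosure_iff.1 θ.2
  have hsub : S.F (L' : Set Ω) ≤ S.F A₀ := S.F_mono Set.subset_union_left
  have hθF : (θ : Ω) ∈ S.F A₀ := mem_F_of_mem S _ _ (Or.inr rfl) (mem_algebraicClosure_iff.1 θ.2)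
  have hyF : b * (c + (θ : Ω)) ∈ S.F A₀ := mul_mem (hsub hb) (add_mem (hsub hc) hθF)
  have hsy : ∀ j, S.s (τ j) (b * (c + (θ : Ω))) = b * (c + ((τ j θ : algebraicClosure κ Ω) : Ω)) := by
    intro j
    rw [map_mul, map_add, hb (τ j) (hτ j), hc (τ j) (hτ j), S.res]
  have hy0 : b * (c + (θ : Ω)) ≠ 0 := by
    intro h0
    apply hu0
    rw [← hprody]
    refine Finset.prod_eq_zero (Finset.mem_univ (⟨0, hpp.pos⟩ : Fin p)) ?_
    rw [← hsy, h0, map_zero]
  obtain ⟨l, hl, hl0, w, hw, hw0, hyl⟩ := kp S p hpp A₀ hA₀alg _ hyF hy0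
  obtain ⟨A, hAdeg, hlA⟩ := hadj l hl
  have hA0 : A ≠ 0 := by
    rintro rfl
    apply hl0
    rw [hlA, map_zero]
  obtain ⟨c', hc', hc'0, hcv⟩ := hval A hA0 hAdeg
  -- the norm
  set n : Ω := ∏ j, S.s (τ j) w with hn
  have hn0 : n ≠ 0 := by
    rw [hn, Finset.prod_ne_zero_iff]
    intro j _ h
    exact hw0 ((map_eq_zero (S.s (τ j))).1 h)
  have hmain : tt k Ω = (∏ j, aeval ((τ j θ : algebraicClosure κ Ω) : Ω) A) * n ^ p := by
    rw [← hprody, hn, ← Finset.prod_pow, ← Finset.prod_mul_distrib]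
    refine Finset.prod_congr rfl fun j _ => ?_
    rw [← hsy, hyl, map_mul, map_pow, hlA, LNo_s_aeval S hLalg (τ j) (hτ j)]
  have hnF : n ∈ S.F (L' : Set Ω) := by
    intro ρ hρ
    have hex : ∀ j, ∃ i, ρ (τ j θ) = τ i θ := by
      intro j
      apply hroots
      have h := congrArg ρ (hroot j)
      rw [map_sub, map_sub, map_pow, map_one, map_zero] at h
      exact h
    choose π hπ using hex
    have hπinj : Function.Injective π := by
      intro i j hij
      apply hinj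
      apply ρ.injective
      show ρ (τ i θ) = ρ (τ j θ)
      rw [hπ, hπ, hij]
    have hπbij : Function.Bijective π := Finite.injective_iff_bijective.1 hπinj
    have hstep : ∀ j, S.s ρ (S.s (τ j) w) = S.s (τ (π j)) w := by
      intro j
      have h1 : S.s ((τ (π j))⁻¹ * (ρ * τ j)) w = w := by
        apply hw
        rintro x (hx | hx)
        · rw [AlgEquiv.mul_apply, AlgEquiv.mul_apply, hτ j x hx, hρ x hx]
          have h2 := hτ (π j) x hx
          calc (τ (π j))⁻¹ x = (τ (π j))⁻¹ (τ (π j) x) := by rw [h2]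
            _ = x := by rw [← AlgEquiv.mul_apply, inv_mul_cancel, AlgEquiv.one_apply]
        · have hx' : x = θ := Subtype.ext hx
          rw [hx', AlgEquiv.mul_apply, AlgEquiv.mul_apply, hπ, ← AlgEquiv.mul_apply, inv_mul_cancel, AlgEquiv.one_apply]
      have h3 : S.s (τ (π j)) (S.s ((τ (π j))⁻¹ * (ρ * τ j)) w) = S.s ρ (S.s (τ j) w) := by
        rw [← RingAut.mul_apply, ← map_mul, mul_inv_cancel_left, map_mul, RingAut.mul_apply]
      rw [← h3, h1]
    rw [hn, map_prod]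
    calc ∏ j, S.s ρ (S.s (τ j) w) = ∏ j, S.s (τ (π j)) w := Finset.prod_congr rfl fun j _ => hstep j
      _ = ∏ j, S.s (τ j) w := hπbij.prod_comp (fun i => S.s (τ i) w)
  have hPalg : IsAlgebraic κ (∏ j, aeval ((τ j θ : algebraicClosure κ Ω) : Ω) A) := by
    have hmem : (∏ j, aeval ((τ j θ : algebraicClosure κ Ω) : Ω) A) ∈ algebraicClosure κ Ω := by
      refine prod_mem fun j _ => ?_
      rw [aeval_eq_sum_range]
      refine sum_mem fun i _ => ?_
      rw [Algebra.smul_def]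
      refine mul_mem ?_ (pow_mem (τ j θ).2 i)
      exact mem_algebraicClosure_iff.2 (hLalg _ (A.coeff i).2)
    exact mem_algebraicClosure_iff.1 hmem
  have hP0 : (∏ j, aeval ((τ j θ : algebraicClosure κ Ω) : Ω) A) ≠ 0 := by
    intro h
    apply hu0
    rw [hmain, h, zero_mul]
  have hnalg : IsAlgebraic κ n := by
    apply IsAlgebraic.of_pow hpp.pos
    have h1 : n ^ p = tt k Ω / ∏ j, aeval ((τ j θ : algebraicClosure κ Ω) : Ω) A := by
      rw [hmain]
      field_simp
    rw [h1]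
    exact mem_algebraicClosure_iff.1 (div_mem (mem_algebraicClosure_iff.2 (hLalg _ hu)) (mem_algebraicClosure_iff.2 hPalg))
  have hnL : n ∈ L' := by
    have h := mem_adjoin S (L' : Set Ω) hLalg n hnF hnalg
    rwa [IntermediateField.adjoin_self] at h
  refine hV3' (c' * n) (mul_mem hc' hnL) (mul_ne_zero hc'0 hn0) ?_
  conv_lhs => rw [hmain]
  rw [map_mul, map_prod, hcv, map_pow, map_mul, mul_pow]

end BSC
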