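import Pool.Agent.Lib_MP_49ddc8_l.LDefs

/-!
# [Nsq] A nonsquare in the compositum of `κ` and the algebraic closure of the constants

If every element of `M = K κ` were a square in `M`, then `u = w ^ N`, `w ∈ M`, with `N = 2 ^ j > [κ : k(u)]`.  `w` has degree at most
`[κ : k(u)]` over `K(u)`, so `∑ i < N, c_i(u) w ^ i = 0`; with `u = w ^ N` this is a nonzero polynomial equation for `w` over `K`.
-/

set_option autoImplicit false

open Polynomial

namespace BSC

/-- `∑ i < N, C_i(X ^ N) X ^ i ≠ 0` -/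
theorem nsq_ne {F : Type} [Field F] (N : ℕ) (C' : Fin N → Polynomial F) (i₀ : Fin N) (h : C' i₀ ≠ 0) :
    ∑ i, expand F N (C' i) * X ^ (i : ℕ) ≠ 0 := by
  have hN : 0 < N := i₀.pos
  obtain ⟨m, hm⟩ : ∃ m, (C' i₀).coeff m ≠ 0 := by
    by_contra hcon
    push Not at hcon
    exact h (Polynomial.ext fun i => by rw [hcon i, coeff_zero])
  intro h0
  have h1 : (∑ i, expand F N (C' i) * X ^ (i : ℕ)).coeff (m * N + i₀) = 0 := by rw [h0, coeff_zero]
  rw [finset_sum_coeff, Finset.sum_eq_single i₀] at h1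
  · rw [coeff_mul_X_pow, coeff_expand_mul hN] at h1
    exact hm h1
  · intro i _ hi
    rw [coeff_mul_X_pow']
    split_ifs with hle
    · rw [coeff_expand hN, if_neg]
      rintro ⟨c, hc⟩
      apply hi
      apply Fin.ext
      have h2 : m * N + i₀ = N * c + i := by omega
      have h3 := congrArg (· % N) h2
      simp only [Nat.mul_add_mod', Nat.mul_add_mod, Nat.mod_eq_of_lt i₀.2, Nat.mod_eq_of_lt i.2] at h3
      exact h3.symm
    · rfl
  · intro h
    exact absurd (Finset.mem_univ _) h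

variable {k κ Ω : Type} [Field k] [CharZero k] [Field κ] [CharZero κ] [Field Ω] [IsAlgClosed Ω] [Algebra k Ω] [Algebra (RatFunc k) Ω]
  [IsScalarTower k (RatFunc k) Ω] [Algebra κ Ω] [Algebra (RatFunc k) κ] [IsScalarTower (RatFunc k) κ Ω]
  [FiniteDimensional (RatFunc k) κ]

omit [CharZero k] [IsAlgClosed Ω] in
theorem nsq_tt (f : Polynomial k) : algebraMap (RatFunc k) Ω (algebraMap (Polynomial k) (RatFunc k) f) = aeval (tt k Ω) f := by
  rw [← RatFunc.aeval_X_left_eq_algebraMap, tt, aeval_algebraMap_apply]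

omit [CharZero k] [IsAlgClosed Ω] in
theorem nsq_tr : Transcendental k (tt k Ω) := by
  rw [transcendental_iff]
  intro f hf
  rw [← nsq_tt] at hf
  have h1 := (map_eq_zero_iff _ (algebraMap (RatFunc k) Ω).injective).1 hf
  exact (map_eq_zero_iff _ (IsFractionRing.injective (Polynomial k) (RatFunc k))).1 h1

/-- the field `K(u)` contains `k(u)` and `K` -/
theorem nsq_mem (x : Ω) (hx : x ∈ IntermediateField.adjoin (RatFunc k) ((algebraicClosure k Ω : IntermediateField k Ω) : Set Ω)) :
    ∃ r s : Polynomial (algebraicClosure k Ω), aeval (tt k Ω) s ≠ 0 ∧ x = aeval (tt k Ω) r / aeval (tt k Ω) s := by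
  have hk : ∀ f : Polynomial k, aeval (tt k Ω) f ∈ IntermediateField.adjoin (algebraicClosure k Ω) {tt k Ω} := by
    intro f
    have : aeval (tt k Ω) f = aeval (tt k Ω) (f.map (algebraMap k (algebraicClosure k Ω))) := by
      rw [aeval_map_algebraMap]
    rw [this]
    exact IntermediateField.algebra_adjoin_le_adjoin _ _ (aeval_mem_adjoin_singleton _ _)
  have h1 : ∀ f : RatFunc k, algebraMap (RatFunc k) Ω f ∈
      (IntermediateField.adjoin (algebraicClosure k Ω) {tt k Ω}).toSubfield := by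
    intro f
    rw [← RatFunc.num_div_denom f, map_div₀, nsq_tt, nsq_tt]
    exact div_mem (hk _) (hk _)
  have h2 : IntermediateField.adjoin (RatFunc k) ((algebraicClosure k Ω : IntermediateField k Ω) : Set Ω) ≤
      (IntermediateField.adjoin (algebraicClosure k Ω) {tt k Ω}).toSubfield.toIntermediateField h1 := by
    rw [IntermediateField.adjoin_le_iff]
    intro z hz
    exact (IntermediateField.adjoin (algebraicClosure k Ω) {tt k Ω}).algebraMap_mem ⟨z, hz⟩
  have h3 : x ∈ IntermediateField.adjoin (algebraicClosure k Ω) {tt k Ω} := h2 hx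
  rw [IntermediateField.mem_adjoin_simple_iff] at h3
  obtain ⟨r, s, hrs⟩ := h3
  by_cases hs : aeval (tt k Ω) s = 0
  · refine ⟨0, 1, ?_, ?_⟩
    · rw [map_one]
      exact one_ne_zero
    · rw [hrs, hs, div_zero, map_zero, zero_div]
  · exact ⟨r, s, hs, hrs⟩

/-- an element of `K κ` whose `N`-th power is `u`, `N > [κ : k(u)]`, is algebraic over `K` -/
theorem nsq_alg (w : Ω) (hw : w ∈ IntermediateField.adjoin κ {c : Ω | IsAlgebraic k c}) (N : ℕ)
    (hN : Module.finrank (RatFunc k) κ < N) (hwN : w ^ N = tt k Ω) : IsAlgebraic (algebraicClosure k Ω) w := by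
  have hN0 : 0 < N := lt_of_le_of_lt (Nat.zero_le _) hN
  let L : IntermediateField (RatFunc k) Ω :=
    IntermediateField.adjoin (RatFunc k) ((algebraicClosure k Ω : IntermediateField k Ω) : Set Ω)
  let A' : IntermediateField (RatFunc k) Ω := (IsScalarTower.toAlgHom (RatFunc k) κ Ω).fieldRange
  let M : IntermediateField L Ω := IntermediateField.adjoin L (A' : Set Ω)
  let e : κ ≃ₐ[RatFunc k] A' := AlgEquiv.ofInjectiveField (IsScalarTower.toAlgHom (RatFunc k) κ Ω)
  haveI hfA' : FiniteDimensional (RatFunc k) A' := Module.Finite.equiv e.toLinearEquiv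
  have hdim : Module.finrank (RatFunc k) A' < N := by
    rw [← e.toLinearEquiv.finrank_eq]
    exact hN
  have hrank : Module.rank L M ≤ Module.rank (RatFunc k) A' :=
    IntermediateField.adjoin_rank_le_of_isAlgebraic_right L A'
  haveI hfM : FiniteDimensional L M := by
    refine Module.rank_lt_aleph0_iff.1 (hrank.trans_lt ?_)
    exact Module.rank_lt_aleph0_iff.2 hfA'
  have hdM : Module.finrank L M < N := by
    refine lt_of_le_of_lt ?_ hdim
    have h1 := hrank
    rw [← Module.finrank_eq_rank, ← Module.finrank_eq_rank] at h1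
    exact_mod_cast h1
  have hκM : ∀ c : κ, algebraMap κ Ω c ∈ M.toSubfield := fun c =>
    IntermediateField.subset_adjoin L _ ⟨c, rfl⟩
  have hwM : w ∈ M := by
    have h1 : IntermediateField.adjoin κ {c : Ω | IsAlgebraic k c} ≤ M.toSubfield.toIntermediateField hκM := by
      refine IntermediateField.adjoin_le_iff.2 fun x hx => ?_
      have h2 : x ∈ L := IntermediateField.subset_adjoin (RatFunc k) _ (mem_algebraicClosure_iff.2 hx)
      exact M.algebraMap_mem ⟨x, h2⟩
    exact h1 hw
  have hnot : ¬ LinearIndependent L (fun i : Fin N => (⟨w, hwM⟩ : M) ^ (i : ℕ)) := by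
    intro hli
    have h1 := hli.fintype_card_le_finrank
    rw [Fintype.card_fin] at h1
    omega
  obtain ⟨g, hg, i₀, hi₀⟩ := Fintype.not_linearIndependent_iff.1 hnot
  have hsum : ∑ i : Fin N, (g i : Ω) * w ^ (i : ℕ) = 0 := by
    have h1 := congrArg (fun x : M => (x : Ω)) hg
    simpa [Algebra.smul_def] using h1
  choose r s hs hrs using fun i : Fin N => nsq_mem (k := k) (g i : Ω) (g i).2
  let C' : Fin N → Polynomial (algebraicClosure k Ω) := fun i => r i * ∏ j ∈ Finset.univ.erase i, s j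
  have hC : ∀ i, aeval (tt k Ω) (C' i) = (∏ j, aeval (tt k Ω) (s j)) * (g i : Ω) := by
    intro i
    show aeval (tt k Ω) (r i * ∏ j ∈ Finset.univ.erase i, s j) = _
    rw [map_mul, map_prod, hrs i, ← Finset.mul_prod_erase _ _ (Finset.mem_univ i)]
    have := hs i
    field_simp
  have hC0 : C' i₀ ≠ 0 := by
    intro h
    have h1 := hC i₀
    rw [h, map_zero] at h1
    rcases mul_eq_zero.1 h1.symm with h2 | h2
    · exact (Finset.prod_ne_zero_iff.2 fun j _ => hs j) h2
    · exact hi₀ (Subtype.ext h2)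
  refine ⟨_, nsq_ne N C' i₀ hC0, ?_⟩
  rw [map_sum]
  have h3 : ∀ i : Fin N, aeval w (expand (algebraicClosure k Ω) N (C' i) * X ^ (i : ℕ)) =
      (∏ j, aeval (tt k Ω) (s j)) * ((g i : Ω) * w ^ (i : ℕ)) := by
    intro i
    rw [map_mul, expand_aeval, hwN, hC, map_pow, aeval_X, mul_assoc]
  rw [Finset.sum_congr rfl fun i _ => h3 i, ← Finset.mul_sum, hsum, mul_zero]

theorem nonsq_M : ∃ n ∈ IntermediateField.adjoin κ {c : Ω | IsAlgebraic k c},
    ¬ ∃ d ∈ IntermediateField.adjoin κ {c : Ω | IsAlgebraic k c}, n = d ^ 2 := by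
  by_contra hcon
  push Not at hcon
  have hroot : ∀ j : ℕ, ∃ w ∈ IntermediateField.adjoin κ {c : Ω | IsAlgebraic k c}, w ^ (2 ^ j) = tt k Ω := by
    intro j
    induction j with
    | zero =>
      refine ⟨tt k Ω, ?_, by rw [pow_zero, pow_one]⟩
      have h1 : tt k Ω = algebraMap κ Ω (algebraMap (RatFunc k) κ RatFunc.X) := by
        rw [← IsScalarTower.algebraMap_apply]
        rfl
      rw [h1]
      exact IntermediateField.algebraMap_mem _ _
    | succ j ih =>
      obtain ⟨w, hw, hwj⟩ := ih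
      obtain ⟨d, hd, hd2⟩ := hcon w hw
      exact ⟨d, hd, by rw [pow_succ', pow_mul, ← hd2, hwj]⟩
  obtain ⟨w, hw, hwj⟩ := hroot (Module.finrank (RatFunc k) κ)
  have h1 := nsq_alg w hw _ Nat.lt_two_pow_self hwj
  have h2 : IsAlgebraic k w := h1.restrictScalars k
  have h3 : IsAlgebraic k (tt k Ω) := by
    rw [← hwj]
    exact h2.pow _
  exact nsq_tr h3

end BSC
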